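import Mathlib

/-! The language of arithmetic, first-order Peano arithmetic `PA`, the Paris-Harrington relation
and its expression by an arithmetical formula. -/

universe u

namespace Pool.Agent.Helper687.Arith

open FirstOrder FirstOrder.Language

/-! ### The language of arithmetic and Peano arithmetic -/

/-- The function symbols of arithmetic: zero, successor, addition and multiplication. -/
inductive ArithFunc : ℕ → Type
  | zero : ArithFunc 0
  | succ : ArithFunc 1
  | add : ArithFunc 2
  | mul : ArithFunc 2

/-- The language `0, S, +, ·` of arithmetic (with equality, no relation symbols). -/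
def LA : FirstOrder.Language.{0, 0} := ⟨ArithFunc, fun _ => Empty⟩

/-- The term `0`. -/
def O {α : Type*} : LA.Term α := Term.func (ArithFunc.zero : LA.Functions 0) ![]

/-- The term `S t`. -/
def Sc {α : Type*} (t : LA.Term α) : LA.Term α := Term.func (ArithFunc.succ : LA.Functions 1) ![t]

/-- The term `s + t`. -/
def Pl {α : Type*} (s t : LA.Term α) : LA.Term α :=
  Term.func (ArithFunc.add : LA.Functions 2) ![s, t]

/-- The term `s · t`. -/
def Ti {α : Type*} (s t : LA.Term α) : LA.Term α :=
  Term.func (ArithFunc.mul : LA.Functions 2) ![s, t]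

/-- The instance of the induction scheme for the formula `φ` with parameters `y_0, ..., y_{n-1}`
and induction variable `x`:
`∀ y_0 ... y_{n-1}, φ(0) ∧ (∀ x, φ(x) → φ(S x)) → ∀ x, φ(x)`. -/
noncomputable def inductionAxiom {n : ℕ} (φ : LA.Formula (Fin n ⊕ Fin 1)) : LA.Sentence :=
  let atZero : LA.Formula (Fin n) := φ.subst (Sum.elim (fun i => Term.var i) (fun _ => O))
  let atSucc : LA.Formula (Fin n ⊕ Fin 1) :=
    φ.subst (Sum.elim (fun i => Term.var (Sum.inl i)) (fun i => Sc (Term.var (Sum.inr i))))
  Formula.iAlls (Fin n) (((atZero ⊓ Formula.iAlls (Fin 1) (φ.imp atSucc)).imp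
    (Formula.iAlls (Fin 1) φ)).relabel (Sum.inr : Fin n → Empty ⊕ Fin n))

/-- The axioms of first-order Peano arithmetic:
`S x ≠ 0`, `S x = S y → x = y`, `x + 0 = x`, `x + S y = S (x + y)`, `x · 0 = 0`,
`x · S y = x · y + x`, and all instances of induction. -/
inductive IsAxiom : LA.Sentence → Prop
  | succ_ne : IsAxiom (∀' ∼(Sc (&0) =' O))
  | succ_inj : IsAxiom (∀' ∀' ((Sc (&0) =' Sc (&1)) ⟹ (&0 =' &1)))
  | add_zero : IsAxiom (∀' (Pl (&0) O =' &0))
  | add_succ : IsAxiom (∀' ∀' (Pl (&0) (Sc (&1)) =' Sc (Pl (&0) (&1))))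
  | mul_zero : IsAxiom (∀' (Ti (&0) O =' O))
  | mul_succ : IsAxiom (∀' ∀' (Ti (&0) (Sc (&1)) =' Pl (Ti (&0) (&1)) (&0)))
  | induction {n : ℕ} (φ : LA.Formula (Fin n ⊕ Fin 1)) : IsAxiom (inductionAxiom φ)

/-- First-order Peano arithmetic. -/
def PA : LA.Theory := {φ | IsAxiom φ}

/-- The Paris-Harrington partition relation `n →_* (k)^e_c`: for every colouring `F` of the
`e`-element subsets of `{0, ..., n - 1}` with `c` colours there is a set `H ⊆ {0, ..., n - 1}` on
whose `e`-element subsets `F` is constant, with `|H| ≥ k` and `|H| ≥ min H`. -/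
def PHRel (n k e c : ℕ) : Prop :=
  ∀ F : {s : Finset ℕ // s ⊆ Finset.range n ∧ s.card = e} → Fin c,
    ∃ (H : Finset ℕ) (hH : H ⊆ Finset.range n),
      (∀ (s t : Finset ℕ) (hs : s ⊆ H ∧ s.card = e) (ht : t ⊆ H ∧ t.card = e),
        F ⟨s, hs.1.trans hH, hs.2⟩ = F ⟨t, ht.1.trans hH, ht.2⟩) ∧
      k ≤ H.card ∧ ∃ x ∈ H, (∀ y ∈ H, x ≤ y) ∧ x ≤ H.card

/-! ### Arithmetical formulas for the Paris-Harrington relation

The variables of a formula in `LA.BoundedFormula Empty n` are `&0, ..., &(n-1)`. A quantifier
introduces the new variable `&n`. The functions below build formulas from terms; `up` only adapts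
a term to the scope of one more quantifier. -/

/-- A term, considered in the scope of one more quantifier. -/
def up {n : ℕ} (t : LA.Term (Empty ⊕ Fin n)) : LA.Term (Empty ⊕ Fin (n + 1)) :=
  t.relabel (Sum.map id Fin.castSucc)

/-- `∃ x, f x`. -/
def exF {n : ℕ} (f : LA.Term (Empty ⊕ Fin (n + 1)) → LA.BoundedFormula Empty (n + 1)) :
    LA.BoundedFormula Empty n := (f (Term.var (Sum.inr (Fin.last n)))).ex

/-- `∀ x, f x`. -/
def allF {n : ℕ} (f : LA.Term (Empty ⊕ Fin (n + 1)) → LA.BoundedFormula Empty (n + 1)) :
    LA.BoundedFormula Empty n := (f (Term.var (Sum.inr (Fin.last n)))).all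

section formulas

variable {n : ℕ}

/-- `s < t`: there is `z` with `s + S z = t`. -/
def ltF (s t : LA.Term (Empty ⊕ Fin n)) : LA.BoundedFormula Empty n :=
  exF fun z => Pl (up s) (Sc z) =' up t

/-- `s ≤ t`: there is `z` with `s + z = t`. -/
def leF (s t : LA.Term (Empty ⊕ Fin n)) : LA.BoundedFormula Empty n :=
  exF fun z => Pl (up s) z =' up t

/-- The `i`-th entry of the sequence coded by `a` and `b` is `y` (beta function): `y` is the
remainder of `a` on division by `(i + 1) b + 1`. -/
def betaF (a b i y : LA.Term (Empty ⊕ Fin n)) : LA.BoundedFormula Empty n :=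
  (exF fun q => up a =' Pl (Ti q (Sc (Ti (Sc (up i)) (up b)))) (up y)) ⊓ ltF y (Sc (Ti (Sc i) b))

/-- `p = 2 ^ x`: there is a coded sequence with first entry `1`, in which each of the next `x`
entries is twice the previous one, and whose `x`-th entry is `p`. -/
def powF (x p : LA.Term (Empty ⊕ Fin n)) : LA.BoundedFormula Empty n :=
  exF fun a => exF fun b =>
    betaF (up a) b O (Sc O) ⊓
    (allF fun i => (ltF i (up (up (up x)))).imp
      (exF fun u => betaF (up (up (up a))) (up (up b)) (up i) u ⊓
        betaF (up (up (up a))) (up (up b)) (Sc (up i)) (Pl u u))) ⊓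
    betaF (up a) b (up (up x)) (up (up p))

/-- `x ∈ y` in the sense of Ackermann's coding of finite sets: the `x`-th binary digit of `y`
is `1`, i.e. `y = u + 2 ^ x + w · 2 ^ (x + 1)` with `u < 2 ^ x`. -/
def memF (x y : LA.Term (Empty ⊕ Fin n)) : LA.BoundedFormula Empty n :=
  exF fun p => exF fun u => exF fun w =>
    powF (up (up (up x))) (up (up p)) ⊓
    (up (up (up y)) =' Pl (up u) (Pl (up (up p)) (Ti w (Pl (up (up p)) (up (up p)))))) ⊓
    ltF (up u) (up (up p))

/-- `s ⊆ t`. -/
def subF (s t : LA.Term (Empty ⊕ Fin n)) : LA.BoundedFormula Empty n :=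
  allF fun x => (memF x (up s)).imp (memF x (up t))

/-- `card s = k`: there are a bound `m` of the elements of `s` and a coded sequence starting with
`0` which, up to the entry with index `m`, increases by `1` at each element of `s` and is constant
otherwise, and whose `m`-th entry is `k`. -/
def cardF (s k : LA.Term (Empty ⊕ Fin n)) : LA.BoundedFormula Empty n :=
  exF fun m => exF fun a => exF fun b =>
    (allF fun x => (memF x (up (up (up (up s))))).imp (ltF x (up (up (up m))))) ⊓
    betaF (up a) b O O ⊓
    (allF fun i => (ltF i (up (up (up m)))).imp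
      (exF fun y => betaF (up (up (up a))) (up (up b)) (up i) y ⊓
        ((memF (up i) (up (up (up (up (up s))))) ⊓
            betaF (up (up (up a))) (up (up b)) (Sc (up i)) (Sc y)) ⊔
          (∼(memF (up i) (up (up (up (up (up s)))))) ⊓
            betaF (up (up (up a))) (up (up b)) (Sc (up i)) y)))) ⊓
    betaF (up a) b (up (up m)) (up (up (up k)))

/-- The Paris-Harrington relation `N →_* (k)^e_2`. The quantifier over `F` runs over the (codes
of) sets of codes of `e`-element sets, i.e. over the colourings with two colours: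
for all `F` there are `H` and `m` such that all elements of `H` are smaller than `N`,
`card H = m`, `k ≤ m`, the least element of `H` is at most `m`, and for all `s, t ⊆ H` with `e`
elements `s ∈ F ↔ t ∈ F`. -/
def arrowF (N k e : LA.Term (Empty ⊕ Fin n)) : LA.BoundedFormula Empty n :=
  allF fun F => exF fun H => exF fun m =>
    (allF fun x => (memF x (up (up H))).imp (ltF x (up (up (up (up N)))))) ⊓
    cardF (up H) m ⊓
    leF (up (up (up k))) m ⊓
    (exF fun x => memF x (up (up H)) ⊓ (allF fun y => (memF y (up (up (up H)))).imp (leF (up x) y)) ⊓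
      leF x (up m)) ⊓
    (allF fun s => allF fun t => (subF (up s) (up (up (up H)))).imp ((subF t (up (up (up H)))).imp
      ((cardF (up s) (up (up (up (up (up e)))))).imp ((cardF t (up (up (up (up (up e)))))).imp
        ((memF (up s) (up (up (up (up F))))).iff (memF t (up (up (up (up F)))))))))) 

end formulas

/-- The sentence `∀ e, ∃ n, n →_* (e + 1)^e_2`. -/
def phSentence : LA.Sentence := allF fun e => exF fun N => arrowF N (Sc (up e)) (up e)

/-- The interpretation of the symbols of arithmetic in a commutative semiring, in particular in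
`ℕ`: `0`, `x + 1`, `x + y` and `x · y`. -/
instance standard {M : Type u} [CommSemiring M] : LA.Structure M where
  funMap := fun {n} (f : ArithFunc n) => match n, f with
    | _, .zero => fun _ => 0
    | _, .succ => fun x => x 0 + 1
    | _, .add => fun x => x 0 + x 1
    | _, .mul => fun x => x 0 * x 1
  RelMap := fun r => r.elim

end Pool.Agent.Helper687.Arith
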