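import Pool.Agent.Helper687.Arith.Defs

/-! Models of Peano arithmetic: definability with parameters, the beta function, Ackermann's coding
of finite sets, cardinalities, the finite Ramsey theorem inside a model, and the proof that every
model of `PA` satisfies `phSentence`. -/

universe u

namespace Pool.Agent.Helper687.Arith

open FirstOrder FirstOrder.Language

/-! ### Definability with parameters -/

section definability

variable {M : Type u} [LA.Structure M]

/-- `a` followed by the sequence `v`. -/
def cns (a : M) (v : ℕ → M) : ℕ → M
  | 0 => a
  | n + 1 => v n

/-- Predicates on sequences which are definable with parameters. -/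
def Def (R : (ℕ → M) → Prop) : Prop :=
  ∃ φ : LA.Formula (M ⊕ ℕ), ∀ v : ℕ → M, φ.Realize (Sum.elim id v) ↔ R v

/-- variable shift used for quantification -/
def shft : M ⊕ ℕ → (M ⊕ ℕ) ⊕ Fin 1
  | .inl p => .inl (.inl p)
  | .inr 0 => .inr 0
  | .inr (n + 1) => .inl (.inr n)

/-- universal quantification over variable `0`, shifting the others down -/
def qall (φ : LA.Formula (M ⊕ ℕ)) : LA.Formula (M ⊕ ℕ) :=
  (BoundedFormula.relabel (n := 1) (shft (M := M)) φ : LA.BoundedFormula (M ⊕ ℕ) 1).all

theorem realize_qall (φ : LA.Formula (M ⊕ ℕ)) (v : ℕ → M) :
    (qall φ).Realize (Sum.elim id v) ↔ ∀ a : M, φ.Realize (Sum.elim id (cns a v)) := by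
  unfold qall Formula.Realize
  rw [BoundedFormula.realize_all]
  refine forall_congr' fun a => ?_
  rw [BoundedFormula.realize_relabel]
  have h1 : (Sum.elim (Sum.elim id v) ((Fin.snoc default a : Fin 1 → M) ∘ Fin.castAdd 0) ∘ shft)
      = Sum.elim id (cns a v) := by
    funext s
    rcases s with p' | n
    · rfl
    · cases n with
      | zero => rfl
      | succ n => rfl
  rw [h1]
  have h2 : ((Fin.snoc default a : Fin 1 → M) ∘ Fin.natAdd 1 : Fin 0 → M) = default :=
    Subsingleton.elim _ _
  exact iff_of_eq (congrArg (BoundedFormula.Realize φ (Sum.elim id (cns a v))) h2)

theorem realize_ren (φ : LA.Formula (M ⊕ ℕ)) (ρ : ℕ → ℕ) (v : ℕ → M) :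
    (φ.relabel (Sum.map id ρ)).Realize (Sum.elim id v) ↔
      φ.Realize (Sum.elim id (fun n => v (ρ n))) := by
  rw [Formula.realize_relabel]
  have : Sum.elim id v ∘ Sum.map id ρ = Sum.elim id (fun n => v (ρ n)) := by
    funext s; rcases s with p' | n <;> rfl
  rw [this]

namespace Def

theorem congr {R S : (ℕ → M) → Prop} (hR : Def R) (h : ∀ v, R v ↔ S v) : Def S := by
  obtain ⟨φ, hφ⟩ := hR
  exact ⟨φ, fun v => (hφ v).trans (h v)⟩

theorem bot : Def (M := M) (fun _ => False) := ⟨⊥, fun _ => Formula.realize_bot⟩

theorem imp {R S : (ℕ → M) → Prop} (hR : Def R) (hS : Def S) :
    Def (fun v => R v → S v) := by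
  obtain ⟨φ, hφ⟩ := hR
  obtain ⟨ψ, hψ⟩ := hS
  exact ⟨φ.imp ψ, fun v => by rw [Formula.realize_imp, hφ, hψ]⟩

theorem not {R : (ℕ → M) → Prop} (hR : Def R) : Def (fun v => ¬ R v) :=
  imp hR bot

theorem and {R S : (ℕ → M) → Prop} (hR : Def R) (hS : Def S) :
    Def (fun v => R v ∧ S v) :=
  congr (not (imp hR (not hS))) (fun v => by tauto)

theorem or {R S : (ℕ → M) → Prop} (hR : Def R) (hS : Def S) :
    Def (fun v => R v ∨ S v) :=
  congr (imp (not hR) hS) (fun v => by tauto)

theorem iff {R S : (ℕ → M) → Prop} (hR : Def R) (hS : Def S) :
    Def (fun v => R v ↔ S v) :=
  congr (and (imp hR hS) (imp hS hR)) (fun v => by tauto)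

theorem all {S : (ℕ → M) → M → Prop}
    (hR : Def (fun v => S (fun n => v (n + 1)) (v 0))) :
    Def (fun v => ∀ a, S v a) := by
  obtain ⟨φ, hφ⟩ := hR
  refine ⟨qall φ, fun v => ?_⟩
  rw [realize_qall]
  refine forall_congr' fun a => ?_
  rw [hφ]
  exact Iff.rfl

theorem ex {S : (ℕ → M) → M → Prop}
    (hR : Def (fun v => S (fun n => v (n + 1)) (v 0))) :
    Def (fun v => ∃ a, S v a) :=
  congr (not (all (S := fun v a => ¬ S v a) (not hR))) (fun v => by simp)

theorem ren {R : (ℕ → M) → Prop} (ρ : ℕ → ℕ) (hR : Def R) :
    Def (fun v => R (fun n => v (ρ n))) := by
  obtain ⟨φ, hφ⟩ := hR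
  exact ⟨φ.relabel (Sum.map id ρ), fun v => by rw [realize_ren, hφ]⟩

theorem const (p : Prop) : Def (M := M) (fun _ => p) := by
  by_cases h : p
  · exact congr (not bot) (fun _ => by simp [h])
  · exact congr bot (fun _ => by simp [h])

end Def

/-- Functions on sequences with definable graph. -/
def DefF (f : (ℕ → M) → M) : Prop := Def (fun v => v 0 = f (fun n => v (n + 1)))

namespace DefF

theorem ren {f : (ℕ → M) → M} (ρ : ℕ → ℕ) (h : DefF f) : DefF (fun v => f (fun n => v (ρ n))) :=
  Def.ren (fun n => match n with | 0 => 0 | n + 1 => ρ n + 1) h

theorem var (n : ℕ) : DefF (M := M) (fun v => v n) :=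
  ⟨(Term.var (Sum.inr 0)).equal (Term.var (Sum.inr (n + 1))), fun _ => Formula.realize_equal⟩

theorem const (c : M) : DefF (M := M) (fun _ => c) :=
  ⟨(Term.var (Sum.inr 0)).equal (Term.var (Sum.inl c)), fun _ => Formula.realize_equal⟩

end DefF

namespace Def

/-- Substitution in a unary relation. -/
theorem sub1 {R : M → Prop} (h : Def (fun v => R (v 0))) {f : (ℕ → M) → M} (hf : DefF f) :
    Def (fun v => R (f v)) :=
  congr (ex (S := fun v a => a = f v ∧ R a) (and hf h)) (fun v => by simp)

/-- Substitution in a binary relation. -/
theorem sub2 {R : M → M → Prop} (h : Def (fun v => R (v 0) (v 1))) {f g : (ℕ → M) → M}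
    (hf : DefF f) (hg : DefF g) : Def (fun v => R (f v) (g v)) := by
  have h1 : Def (fun v : ℕ → M => v 0 = f (fun n => v (n + 2))) :=
    Def.ren (fun n => match n with | 0 => 0 | n + 1 => n + 2) hf
  have h2 : Def (fun v : ℕ → M => v 1 = g (fun n => v (n + 2))) :=
    Def.ren (fun n => match n with | 0 => 1 | n + 1 => n + 2) hg
  refine congr (ex (S := fun v b => ∃ a, a = f v ∧ b = g v ∧ R a b) (ex (S := fun v a =>
    a = f (fun n => v (n + 1)) ∧ v 0 = g (fun n => v (n + 1)) ∧ R a (v 0)) (and h1 (and h2 h))))
    (fun v => by simp)

/-- Substitution in a ternary relation. -/
theorem sub3 {R : M → M → M → Prop} (h : Def (fun v => R (v 0) (v 1) (v 2)))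
    {f g k : (ℕ → M) → M} (hf : DefF f) (hg : DefF g) (hk : DefF k) :
    Def (fun v => R (f v) (g v) (k v)) := by
  have h1 : Def (fun v : ℕ → M => v 0 = f (fun n => v (n + 3))) :=
    Def.ren (fun n => match n with | 0 => 0 | n + 1 => n + 3) hf
  have h2 : Def (fun v : ℕ → M => v 1 = g (fun n => v (n + 3))) :=
    Def.ren (fun n => match n with | 0 => 1 | n + 1 => n + 3) hg
  have h3 : Def (fun v : ℕ → M => v 2 = k (fun n => v (n + 3))) :=
    Def.ren (fun n => match n with | 0 => 2 | n + 1 => n + 3) hk
  refine congr (ex (S := fun v c => ∃ b, ∃ a, a = f v ∧ b = g v ∧ c = k v ∧ R a b c)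
    (ex (S := fun v b => ∃ a, a = f (fun n => v (n + 1)) ∧ b = g (fun n => v (n + 1)) ∧
      v 0 = k (fun n => v (n + 1)) ∧ R a b (v 0)) (ex (S := fun v a =>
    a = f (fun n => v (n + 2)) ∧ v 0 = g (fun n => v (n + 2)) ∧ v 1 = k (fun n => v (n + 2)) ∧
      R a (v 0) (v 1)) (and h1 (and h2 (and h3 h))))))
    (fun v => by simp)

/-- Substitution in a quaternary relation. -/
theorem sub4 {R : M → M → M → M → Prop} (h : Def (fun v => R (v 0) (v 1) (v 2) (v 3)))
    {f g k l : (ℕ → M) → M} (hf : DefF f) (hg : DefF g) (hk : DefF k) (hl : DefF l) :
    Def (fun v => R (f v) (g v) (k v) (l v)) := by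
  have h1 : Def (fun v : ℕ → M => v 0 = f (fun n => v (n + 4))) :=
    Def.ren (fun n => match n with | 0 => 0 | n + 1 => n + 4) hf
  have h2 : Def (fun v : ℕ → M => v 1 = g (fun n => v (n + 4))) :=
    Def.ren (fun n => match n with | 0 => 1 | n + 1 => n + 4) hg
  have h3 : Def (fun v : ℕ → M => v 2 = k (fun n => v (n + 4))) :=
    Def.ren (fun n => match n with | 0 => 2 | n + 1 => n + 4) hk
  have h4 : Def (fun v : ℕ → M => v 3 = l (fun n => v (n + 4))) :=
    Def.ren (fun n => match n with | 0 => 3 | n + 1 => n + 4) hl
  refine congr (ex (S := fun v d => ∃ c, ∃ b, ∃ a, a = f v ∧ b = g v ∧ c = k v ∧ d = l v ∧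
      R a b c d)
    (ex (S := fun v c => ∃ b, ∃ a, a = f (fun n => v (n + 1)) ∧ b = g (fun n => v (n + 1)) ∧
      c = k (fun n => v (n + 1)) ∧ v 0 = l (fun n => v (n + 1)) ∧ R a b c (v 0))
    (ex (S := fun v b => ∃ a, a = f (fun n => v (n + 2)) ∧ b = g (fun n => v (n + 2)) ∧
      v 0 = k (fun n => v (n + 2)) ∧ v 1 = l (fun n => v (n + 2)) ∧ R a b (v 0) (v 1))
    (ex (S := fun v a =>
    a = f (fun n => v (n + 3)) ∧ v 0 = g (fun n => v (n + 3)) ∧ v 1 = k (fun n => v (n + 3)) ∧
      v 2 = l (fun n => v (n + 3)) ∧ R a (v 0) (v 1) (v 2))
      (and h1 (and h2 (and h3 (and h4 h))))))))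
    (fun v => by simp)

theorem var_eq (m n : ℕ) : Def (M := M) (fun v => v m = v n) :=
  ⟨(Term.var (Sum.inr m)).equal (Term.var (Sum.inr n)), fun _ => Formula.realize_equal⟩

theorem eq {f g : (ℕ → M) → M} (hf : DefF f) (hg : DefF g) : Def (fun v => f v = g v) :=
  sub2 (R := fun a b => a = b) (var_eq 0 1) hf hg

end Def

namespace DefF

/-- A function with definable graph, applied to a definable function. -/
theorem app1 {F : M → M} (h : Def (fun v => v 0 = F (v 1))) {f : (ℕ → M) → M} (hf : DefF f) :
    DefF (fun v => F (f v)) :=
  Def.sub2 (R := fun a b => a = F b) h (var 0) (hf.ren (fun n => n + 1))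

theorem app2 {F : M → M → M} (h : Def (fun v => v 0 = F (v 1) (v 2))) {f g : (ℕ → M) → M}
    (hf : DefF f) (hg : DefF g) : DefF (fun v => F (f v) (g v)) :=
  Def.sub3 (R := fun a b c => a = F b c) h (var 0) (hf.ren (fun n => n + 1))
    (hg.ren (fun n => n + 1))

theorem app3 {F : M → M → M → M} (h : Def (fun v => v 0 = F (v 1) (v 2) (v 3)))
    {f g k : (ℕ → M) → M} (hf : DefF f) (hg : DefF g) (hk : DefF k) :
    DefF (fun v => F (f v) (g v) (k v)) :=
  Def.sub4 (R := fun a b c d => a = F b c d) h (var 0) (hf.ren (fun n => n + 1))
    (hg.ren (fun n => n + 1)) (hk.ren (fun n => n + 1))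

end DefF

end definability

section semiring

variable {M : Type u} [CommSemiring M]

@[simp] lemma realize_O {α : Type*} (v : α → M) : (O : LA.Term α).realize v = 0 := rfl
@[simp] lemma realize_Sc {α : Type*} (v : α → M) (t : LA.Term α) :
    (Sc t).realize v = t.realize v + 1 := rfl
@[simp] lemma realize_Pl {α : Type*} (v : α → M) (s t : LA.Term α) :
    (Pl s t).realize v = s.realize v + t.realize v := rfl
@[simp] lemma realize_Ti {α : Type*} (v : α → M) (s t : LA.Term α) :
    (Ti s t).realize v = s.realize v * t.realize v := rfl

namespace DefF

theorem add {f g : (ℕ → M) → M} (hf : DefF f) (hg : DefF g) : DefF (fun v => f v + g v) :=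
  app2 (F := fun a b => a + b) ⟨(Term.var (Sum.inr 0)).equal
    (Pl (Term.var (Sum.inr 1)) (Term.var (Sum.inr 2))), fun _ => Formula.realize_equal⟩ hf hg

theorem mul {f g : (ℕ → M) → M} (hf : DefF f) (hg : DefF g) : DefF (fun v => f v * g v) :=
  app2 (F := fun a b => a * b) ⟨(Term.var (Sum.inr 0)).equal
    (Ti (Term.var (Sum.inr 1)) (Term.var (Sum.inr 2))), fun _ => Formula.realize_equal⟩ hf hg

end DefF

end semiring

/-! ### Models of Peano arithmetic as ordered semirings -/

/-- A model of Peano arithmetic, presented as an ordered semiring with induction for all sets
definable with parameters. -/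
class PAModel (M : Type u) extends CommSemiring M, LinearOrder M, IsStrictOrderedRing M,
    CanonicallyOrderedAdd M where
  lt_add_one_iff' : ∀ x y : M, x < y + 1 ↔ x ≤ y
  ind' : ∀ P : M → Prop, Def (fun v => P (v 0)) → P 0 → (∀ x, P x → P (x + 1)) → ∀ x, P x

set_option linter.unreachableTactic false
set_option linter.unusedTactic false

section model

variable {M : Type u} [PAModel M]

lemma lt_succ_iff {x y : M} : x < y + 1 ↔ x ≤ y := PAModel.lt_add_one_iff' x y

lemma succ_le_iff {x y : M} : x + 1 ≤ y ↔ x < y := by
  rw [← not_lt, lt_succ_iff, not_le]

lemma lt_succ_iff' {x y : M} : x < y + 1 ↔ x < y ∨ x = y := by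
  rw [lt_succ_iff, le_iff_lt_or_eq]

lemma lt_iff_exists (x y : M) : x < y ↔ ∃ z, x + (z + 1) = y := by
  constructor
  · intro h
    obtain ⟨z, hz⟩ := exists_add_of_le (succ_le_iff.mpr h)
    exact ⟨z, by rw [hz]; ring⟩
  · rintro ⟨z, rfl⟩
    rw [← succ_le_iff, ← add_assoc, add_right_comm]
    exact le_self_add

lemma zero_lt_succ' (x : M) : 0 < x + 1 := lt_succ_iff.mpr zero_le

lemma exists_pred {x : M} (h : 0 < x) : ∃ y, x = y + 1 := by
  obtain ⟨z, hz⟩ := (lt_iff_exists 0 x).mp h
  exact ⟨z, by rw [← hz, zero_add]⟩

lemma pos_of_ne {x : M} (h : x ≠ 0) : 0 < x := lt_of_le_of_ne zero_le (Ne.symm h)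

lemma lt_one_iff' {x : M} : x < 1 ↔ x = 0 := by
  rw [← zero_add (1 : M), lt_succ_iff]
  exact ⟨fun h => le_antisymm h zero_le, fun h => h.le⟩

theorem Def.lt {f g : (ℕ → M) → M} (hf : DefF f) (hg : DefF g) : Def (fun v => f v < g v) := by
  have h : Def (M := M) (fun v => v 0 < v 1) := by
    refine Def.congr (R := fun v => ∃ z, v 0 + (z + 1) = v 1) ?_
      (fun v => (lt_iff_exists _ _).symm)
    apply Def.ex
    apply Def.eq
    · exact (DefF.var 1).add ((DefF.var 0).add (DefF.const 1))
    · exact DefF.var 2
  exact Def.sub2 h hf hg

theorem Def.le {f g : (ℕ → M) → M} (hf : DefF f) (hg : DefF g) : Def (fun v => f v ≤ g v) :=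
  Def.congr (Def.not (Def.lt hg hf)) (fun v => not_lt)

theorem ind {P : M → Prop} (hP : Def (fun v => P (v 0))) (h0 : P 0) (hs : ∀ x, P x → P (x + 1))
    (x : M) : P x :=
  PAModel.ind' P hP h0 hs x

theorem strong_ind {P : M → Prop} (hP : Def (fun v => P (v 0)))
    (h : ∀ x, (∀ y < x, P y) → P x) (x : M) : P x := by
  have key : ∀ x : M, ∀ y < x, P y := by
    intro x
    refine ind (P := fun x => ∀ y, y < x → P y) ?_ ?_ ?_ x
    · apply Def.all
      apply Def.imp
      · exact Def.lt (DefF.var 0) (DefF.var 1)
      · exact Def.sub1 hP (DefF.var 0)
    · intro y hy
      exact absurd hy (not_lt.mpr zero_le)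
    · intro x ih y hy
      exact h y (fun z hz => ih z (lt_of_lt_of_le hz (lt_succ_iff.mp hy)))
  exact h x (key x)

theorem least {P : M → Prop} (hP : Def (fun v => P (v 0))) (h : ∃ x, P x) :
    ∃ x, P x ∧ ∀ y < x, ¬ P y := by
  by_contra hno
  push Not at hno
  obtain ⟨x, hx⟩ := h
  refine strong_ind (P := fun x => ¬ P x) (Def.not hP) (fun x ih hx => ?_) x hx
  obtain ⟨y, hy, hy'⟩ := hno x hx
  exact ih y hy hy'

open Classical in
/-- The unique element with the property `P`, or zero. -/
noncomputable def the (P : M → Prop) : M := if h : ∃! x, P x then h.choose else 0

lemma the_spec {P : M → Prop} (h : ∃! x, P x) : P (the P) := by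
  rw [the, dif_pos h]
  exact h.choose_spec.1

lemma the_neg {P : M → Prop} (h : ¬ ∃! x, P x) : the P = 0 := by
  rw [the, dif_neg h]

lemma the_eq {P : M → Prop} {x : M} (h : P x) (hu : ∀ y, P y → y = x) : the P = x :=
  hu _ (the_spec ⟨x, h, hu⟩)

theorem DefF.the {Q : (ℕ → M) → M → Prop} (h : Def (fun v => Q (fun n => v (n + 1)) (v 0))) :
    DefF (fun v => the (fun x => Q v x)) := by
  have h1 : Def (fun v => Q (fun n => v (n + 2)) (v 0)) :=
    Def.ren (fun n => match n with | 0 => 0 | n + 1 => n + 2) h
  have h2 : Def (fun v => Q (fun n => v (n + 2)) (v 1)) :=
    Def.ren (fun n => match n with | 0 => 1 | n + 1 => n + 2) h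
  have h3 : Def (fun v => Q (fun n => v (n + 3)) (v 1)) :=
    Def.ren (fun n => match n with | 0 => 1 | n + 1 => n + 3) h
  have h4 : Def (fun v => Q (fun n => v (n + 3)) (v 0)) :=
    Def.ren (fun n => match n with | 0 => 0 | n + 1 => n + 3) h
  have hE : Def (fun v => ∃ x, Q (fun n => v (n + 1)) x ∧ ∀ y, Q (fun n => v (n + 1)) y → y = x) :=
    Def.ex (Def.and h1 (Def.all (Def.imp h4 (Def.var_eq 0 1))))
  refine Def.congr (R := fun v => ((∃ x, Q (fun n => v (n + 1)) x ∧
    ∀ y, Q (fun n => v (n + 1)) y → y = x) ∧ Q (fun n => v (n + 1)) (v 0)) ∨
    (¬ (∃ x, Q (fun n => v (n + 1)) x ∧ ∀ y, Q (fun n => v (n + 1)) y → y = x) ∧ v 0 = 0)) ?_ ?_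
  · apply Def.or
    · apply Def.and hE h
    · apply Def.and (Def.not hE)
      exact Def.eq (DefF.var 0) (DefF.const 0)
  · intro v
    constructor
    · rintro (⟨h1, h2⟩ | ⟨h1, h2⟩)
      · exact ExistsUnique.unique h1 h2 (the_spec h1)
      · exact h2.trans (the_neg h1).symm
    · intro h1
      by_cases h2 : ∃! x, Q (fun n => v (n + 1)) x
      · left
        refine ⟨h2, ?_⟩
        rw [h1]
        exact the_spec h2
      · right
        refine ⟨h2, ?_⟩
        rw [h1]
        exact the_neg h2

/-! ### The beta function -/

lemma rem_unique {a m q r q' r' : M} (h : a = q * m + r) (hr : r < m) (h' : a = q' * m + r')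
    (hr' : r' < m) : q = q' ∧ r = r' := by
  have key : ∀ {q r q' r' : M}, a = q * m + r → r < m → a = q' * m + r' → r' < m → ¬ q < q' := by
    intro q r q' r' h hr h' hr' hlt
    obtain ⟨z, rfl⟩ := (lt_iff_exists _ _).mp hlt
    have h1 : a < a := by
      calc a = q * m + r := h
        _ < q * m + m := by gcongr
        _ ≤ q * m + m + (z * m + r') := le_self_add
        _ = (q + (z + 1)) * m + r' := by ring
        _ = a := h'.symm
    exact lt_irrefl _ h1
  have hq : q = q' := le_antisymm (not_lt.mp (key h' hr' h hr)) (not_lt.mp (key h hr h' hr'))
  refine ⟨hq, ?_⟩
  rw [h, hq] at h'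
  exact add_left_cancel h'

lemma exists_rem (a : M) {m : M} (hm : 0 < m) : ∃ r, (∃ q, a = q * m + r) ∧ r < m := by
  refine ind (P := fun a => ∃ r, (∃ q, a = q * m + r) ∧ r < m) ?_ ?_ ?_ a
  · (repeat' first
      | assumption
      | with_reducible exact DefF.var _
      | with_reducible exact DefF.const _
      | with_reducible exact Def.const _
      | with_reducible apply Def.and
      | with_reducible apply Def.or
      | with_reducible apply Def.iff
      | with_reducible apply Def.not
      | with_reducible apply Def.ex
      | with_reducible apply Def.all
      | with_reducible apply Def.imp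
      | with_reducible apply Def.eq
      | with_reducible apply Def.lt
      | with_reducible apply Def.le
      | with_reducible apply DefF.add
      | with_reducible apply DefF.mul
      | with_reducible apply DefF.the)
  · exact ⟨0, ⟨0, by ring⟩, hm⟩
  · rintro a ⟨r, ⟨q, rfl⟩, hr⟩
    rcases (succ_le_iff.mpr hr).lt_or_eq with h | h
    · exact ⟨r + 1, ⟨q, by ring⟩, h⟩
    · exact ⟨0, ⟨q + 1, by rw [← h]; ring⟩, hm⟩

/-- The `i`-th entry of the sequence coded by `a` and `b`: the remainder of `a` on division by
`(i + 1) b + 1`. -/
noncomputable def val (a b i : M) : M :=
  the (fun r => (∃ q, a = q * ((i + 1) * b + 1) + r) ∧ r < (i + 1) * b + 1)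

lemma val_spec (a b i : M) : (∃ q, a = q * ((i + 1) * b + 1) + val a b i) ∧
    val a b i < (i + 1) * b + 1 := by
  obtain ⟨r, ⟨q, hq⟩, hr⟩ := exists_rem a (zero_lt_succ' ((i + 1) * b))
  refine the_spec (P := fun r => (∃ q, a = q * ((i + 1) * b + 1) + r) ∧ r < (i + 1) * b + 1)
    ⟨r, ⟨⟨q, hq⟩, hr⟩, ?_⟩
  rintro r' ⟨⟨q', hq'⟩, hr'⟩
  exact (rem_unique hq' hr' hq hr).2

lemma val_eq {a b i r : M} (h : ∃ q, a = q * ((i + 1) * b + 1) + r) (hr : r < (i + 1) * b + 1) :
    val a b i = r := by
  obtain ⟨q, hq⟩ := h
  obtain ⟨⟨q', hq'⟩, hr'⟩ := val_spec a b i
  exact (rem_unique hq' hr' hq hr).2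

lemma val_eq_iff (a b i r : M) : val a b i = r ↔ (∃ q, a = q * ((i + 1) * b + 1) + r) ∧
    r < (i + 1) * b + 1 := by
  constructor
  · rintro rfl
    exact val_spec a b i
  · rintro ⟨h1, h2⟩
    exact val_eq h1 h2

theorem DefF.val {f g k : (ℕ → M) → M} (hf : DefF f) (hg : DefF g) (hk : DefF k) :
    DefF (fun v => val (f v) (g v) (k v)) := by
  have h : Def (M := M) (fun v => v 0 = Arith.val (v 1) (v 2) (v 3)) := by
    refine Def.congr (R := fun v => (∃ q, v 1 = q * ((v 3 + 1) * v 2 + 1) + v 0) ∧
      v 0 < (v 3 + 1) * v 2 + 1) ?_ (fun v => by rw [eq_comm (a := v 0), val_eq_iff])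
    (repeat' first
        | assumption
        | with_reducible exact DefF.var _
        | with_reducible exact DefF.const _
        | with_reducible exact Def.const _
        | with_reducible apply Def.and
        | with_reducible apply Def.or
        | with_reducible apply Def.iff
        | with_reducible apply Def.not
        | with_reducible apply Def.ex
        | with_reducible apply Def.all
        | with_reducible apply Def.imp
        | with_reducible apply Def.eq
        | with_reducible apply Def.lt
        | with_reducible apply Def.le
        | with_reducible apply DefF.add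
        | with_reducible apply DefF.mul
        | with_reducible apply DefF.the)
  exact DefF.app3 h hf hg hk


/-- Inverses modulo `q`. -/
def Cop (m q : M) : Prop := ∃ x y, x * m = y * q + 1

lemma Cop.mul {m m' q : M} (h : Cop m q) (h' : Cop m' q) : Cop (m * m') q := by
  obtain ⟨x, y, hx⟩ := h
  obtain ⟨x', y', hx'⟩ := h'
  refine ⟨x * x', y * y' * q + y + y', ?_⟩
  calc x * x' * (m * m') = (x * m) * (x' * m') := by ring
    _ = _ := by rw [hx, hx']; ring

lemma cop_succ {i j b c d : M} (hj : j = i + d) (hb : b = d * c) (hc : 0 < c) :
    Cop ((i + 1) * b + 1) ((j + 1) * b + 1) := by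
  obtain ⟨c', rfl⟩ := exists_pred hc
  -- A X + 1 = B Y
  set A := (i + 1) * b + 1 with hA
  set B := (j + 1) * b + 1 with hB
  set X := (c' + 1) * (j + 1) * (j + 1) with hX
  set Y := (c' + 1) * (i + 1) * (j + 1) + 1 with hY
  have h1 : A * X + 1 = B * Y := by
    rw [hA, hB, hX, hY, hj, hb]
    ring
  have h2 : 0 < A * X := by
    rw [hA, hX]
    apply mul_pos (zero_lt_succ' _)
    exact mul_pos (mul_pos (zero_lt_succ' _) (zero_lt_succ' _)) (zero_lt_succ' _)
  obtain ⟨t, ht⟩ := exists_pred h2
  refine ⟨X * X * A, Y * t, ?_⟩
  calc X * X * A * A = (A * X) * (A * X) := by ring
    _ = (t + 1) * (t + 1) := by rw [ht]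
    _ = (t + 1 + 1) * t + 1 := by ring
    _ = (B * Y) * t + 1 := by rw [← h1, ht]
    _ = _ := by ring

lemma crt_step {m q : M} (h : Cop m q) (hq : 0 < q) (a r : M) : ∃ x z, a + m * x = z * q + r := by
  obtain ⟨x, y, hx⟩ := h
  obtain ⟨q', rfl⟩ := exists_pred hq
  refine ⟨x * (r + a * q'), a + y * (r + a * q'), ?_⟩
  calc a + m * (x * (r + a * q')) = a + (x * m) * (r + a * q') := by ring
    _ = _ := by rw [hx]; ring

lemma exists_multiple (n : M) : ∃ b, 0 < b ∧ ∀ i, 0 < i → i ≤ n → ∃ c, b = i * c := by
  refine ind (P := fun n => ∃ b, 0 < b ∧ ∀ i, 0 < i → i ≤ n → ∃ c, b = i * c) ?_ ?_ ?_ n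
  · (repeat' first
      | assumption
      | with_reducible exact DefF.var _
      | with_reducible exact DefF.const _
      | with_reducible exact Def.const _
      | with_reducible apply DefF.val
      | with_reducible apply Def.and
      | with_reducible apply Def.or
      | with_reducible apply Def.iff
      | with_reducible apply Def.not
      | with_reducible apply Def.ex
      | with_reducible apply Def.all
      | with_reducible apply Def.imp
      | with_reducible apply Def.eq
      | with_reducible apply Def.lt
      | with_reducible apply Def.le
      | with_reducible apply DefF.add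
      | with_reducible apply DefF.mul
      | with_reducible apply DefF.the)
  · refine ⟨1, zero_lt_one, fun i h0 h1 => ?_⟩
    exact absurd h0 (not_lt.mpr h1)
  · rintro n ⟨b, hb, h⟩
    refine ⟨b * (n + 1), mul_pos hb (zero_lt_succ' _), fun i h0 h1 => ?_⟩
    rcases h1.lt_or_eq with h1 | h1
    · obtain ⟨c, hc⟩ := h i h0 (lt_succ_iff.mp h1)
      exact ⟨c * (n + 1), by rw [hc]; ring⟩
    · exact ⟨b, by rw [h1]; ring⟩

lemma exists_bound {f : M → M} (hf : DefF (fun v => f (v 0))) (n : M) :
    ∃ B, ∀ i < n, f i < B := by
  have hf' : Def (fun v : ℕ → M => v 0 = f (v 1)) := hf
  refine ind (P := fun n => ∃ B, ∀ i, i < n → f i < B) ?_ ?_ ?_ n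
  · have h1 : DefF (fun v : ℕ → M => f (v 0)) := DefF.app1 hf' (DefF.var 0)
    (repeat' first
        | assumption
        | with_reducible exact DefF.var _
        | with_reducible exact DefF.const _
        | with_reducible exact Def.const _
        | with_reducible apply DefF.val
        | with_reducible apply Def.and
        | with_reducible apply Def.or
        | with_reducible apply Def.iff
        | with_reducible apply Def.not
        | with_reducible apply Def.ex
        | with_reducible apply Def.all
        | with_reducible apply Def.imp
        | with_reducible apply Def.eq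
        | with_reducible apply Def.lt
        | with_reducible apply Def.le
        | with_reducible apply DefF.add
        | with_reducible apply DefF.mul
        | with_reducible apply DefF.the)
  · exact ⟨0, fun i hi => absurd hi (not_lt.mpr zero_le)⟩
  · rintro n ⟨B, hB⟩
    refine ⟨B + f n + 1, fun i hi => ?_⟩
    rw [lt_succ_iff]
    rcases lt_succ_iff'.mp hi with h | h
    · exact (hB i h).le.trans le_self_add
    · rw [h]
      exact le_add_self

/-- Every definable function is coded on every initial segment. -/
theorem exists_val {f : M → M} (hf : DefF (fun v => f (v 0))) (n : M) :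
    ∃ a b, ∀ i < n, val a b i = f i := by
  have hf' : Def (fun v : ℕ → M => v 0 = f (v 1)) := hf
  obtain ⟨B, hB⟩ := exists_bound hf n
  obtain ⟨b₀, hb₀, hdiv⟩ := exists_multiple n
  set b := b₀ * (B + 1) with hb
  have hfb : ∀ i < n, ∀ k, f i < (k + 1) * b + 1 := by
    intro i hi k
    rw [lt_succ_iff]
    obtain ⟨b₁, hb₁⟩ := exists_pred hb₀
    calc f i ≤ B := (hB i hi).le
      _ ≤ B + (1 + b₁ * (B + 1) + k * ((b₁ + 1) * (B + 1))) := le_self_add
      _ = (k + 1) * b := by rw [hb, hb₁]; ring
  have hcop : ∀ k j, k < j → j < n → Cop ((k + 1) * b + 1) ((j + 1) * b + 1) := by
    intro k j hkj hj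
    obtain ⟨d, hd⟩ := exists_add_of_le hkj.le
    have hd0 : 0 < d := by
      apply pos_of_ne
      rintro rfl
      rw [add_zero] at hd
      exact hkj.ne' hd
    obtain ⟨c, hc⟩ := hdiv d hd0 (by rw [hd] at hj; exact (le_add_self.trans hj.le))
    have hc0 : 0 < c := by
      apply pos_of_ne
      rintro rfl
      rw [mul_zero] at hc
      exact hb₀.ne' hc
    exact cop_succ hd (c := c * (B + 1)) (by rw [hb, hc]; ring) (mul_pos hc0 (zero_lt_succ' _))
  have key : ∀ k, k ≤ n → ∃ a m, (∀ i, i < k → ∃ y, m = ((i + 1) * b + 1) * y) ∧
      (∀ j, k ≤ j → j < n → ∃ x y, x * m = y * ((j + 1) * b + 1) + 1) ∧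
      ∀ i, i < k → ∃ q, a = q * ((i + 1) * b + 1) + f i := by
    intro k
    refine ind (P := fun k => k ≤ n → ∃ a m, (∀ i, i < k → ∃ y, m = ((i + 1) * b + 1) * y) ∧
      (∀ j, k ≤ j → j < n → ∃ x y, x * m = y * ((j + 1) * b + 1) + 1) ∧
      ∀ i, i < k → ∃ q, a = q * ((i + 1) * b + 1) + f i) ?_ ?_ ?_ k
    · have h1 : ∀ k : ℕ, DefF (fun v : ℕ → M => f (v k)) := fun k => DefF.app1 hf' (DefF.var k)
      (repeat' first
          | assumption
          | exact h1 _
          | with_reducible exact DefF.var _
          | with_reducible exact DefF.const _
          | with_reducible exact Def.const _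
          | with_reducible apply DefF.val
          | with_reducible apply Def.and
          | with_reducible apply Def.or
          | with_reducible apply Def.iff
          | with_reducible apply Def.not
          | with_reducible apply Def.ex
          | with_reducible apply Def.all
          | with_reducible apply Def.imp
          | with_reducible apply Def.eq
          | with_reducible apply Def.lt
          | with_reducible apply Def.le
          | with_reducible apply DefF.add
          | with_reducible apply DefF.mul
          | with_reducible apply DefF.the)
    · intro _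
      refine ⟨0, 1, fun i hi => absurd hi (not_lt.mpr zero_le), fun j _ _ => ⟨1, 0, by ring⟩,
        fun i hi => absurd hi (not_lt.mpr zero_le)⟩
    · intro k ih hk
      have hkn : k < n := succ_le_iff.mp hk
      obtain ⟨a, m, h1, h2, h3⟩ := ih hkn.le
      obtain ⟨x, z, hxz⟩ := crt_step (h2 k le_rfl hkn) (zero_lt_succ' _) a (f k)
      refine ⟨a + m * x, m * ((k + 1) * b + 1), ?_, ?_, ?_⟩
      · intro i hi
        rcases lt_succ_iff'.mp hi with h | h
        · obtain ⟨y, hy⟩ := h1 i h
          exact ⟨y * ((k + 1) * b + 1), by rw [hy]; ring⟩
        · exact ⟨m, by rw [h]; ring⟩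
      · intro j hj hjn
        have hkj : k < j := succ_le_iff.mp hj
        exact Cop.mul (h2 j hkj.le hjn) (hcop k j hkj hjn)
      · intro i hi
        rcases lt_succ_iff'.mp hi with h | h
        · obtain ⟨y, hy⟩ := h1 i h
          obtain ⟨q, hq⟩ := h3 i h
          refine ⟨q + y * x, ?_⟩
          rw [hq, hy]
          ring
        · exact ⟨z, by rw [h]; exact hxz⟩
  obtain ⟨a, m, _, _, h⟩ := key n le_rfl
  exact ⟨a, b, fun i hi => val_eq (h i hi) (hfb i hi i)⟩




/-! ### Recursion and powers of two -/

/-- `y` is the value at `n` of the function defined by recursion from `c` and `g`. -/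
def RecRel (c : M) (g : M → M → M) (n y : M) : Prop :=
  ∃ a b, val a b 0 = c ∧ (∀ i, i < n → val a b (i + 1) = g i (val a b i)) ∧ val a b n = y

lemma RecRel.unique {c : M} {g : M → M → M}
    {n y y' : M} (h : RecRel c g n y) (h' : RecRel c g n y') : y = y' := by
  obtain ⟨a, b, h0, hs, rfl⟩ := h
  obtain ⟨a', b', h0', hs', rfl⟩ := h'
  have key : ∀ k : M, k ≤ n → val a b k = val a' b' k := by
    intro k
    refine ind (P := fun k => k ≤ n → val a b k = val a' b' k) ?_ ?_ ?_ k
    · (repeat' first
        | assumption
        | with_reducible exact DefF.var _
        | with_reducible exact DefF.const _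
        | with_reducible exact Def.const _
        | with_reducible apply DefF.val
        | with_reducible apply Def.and
        | with_reducible apply Def.or
        | with_reducible apply Def.iff
        | with_reducible apply Def.not
        | with_reducible apply Def.ex
        | with_reducible apply Def.all
        | with_reducible apply Def.imp
        | with_reducible apply Def.eq
        | with_reducible apply Def.lt
        | with_reducible apply Def.le
        | with_reducible apply DefF.add
        | with_reducible apply DefF.mul
        | with_reducible apply DefF.the)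
    · intro _
      rw [h0, h0']
    · intro k ih hk
      have hk' := succ_le_iff.mp hk
      rw [hs k hk', hs' k hk', ih hk'.le]
  exact key n le_rfl

lemma RecRel.exists {c : M} {g : M → M → M} (hg : Def (fun v => v 0 = g (v 1) (v 2))) (n : M) :
    ∃ y, RecRel c g n y := by
  refine ind (P := fun n => ∃ y, ∃ a b, val a b 0 = c ∧
    (∀ i, i < n → val a b (i + 1) = g i (val a b i)) ∧ val a b n = y) ?_ ?_ ?_ n
  · have h1 : ∀ {f k : (ℕ → M) → M}, DefF f → DefF k → DefF (fun v => g (f v) (k v)) :=
      fun hf hk => DefF.app2 hg hf hk
    (repeat' first
        | assumption
        | with_reducible exact DefF.var _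
        | with_reducible exact DefF.const _
        | with_reducible exact Def.const _
        | with_reducible apply h1
        | with_reducible apply DefF.val
        | with_reducible apply Def.and
        | with_reducible apply Def.or
        | with_reducible apply Def.iff
        | with_reducible apply Def.not
        | with_reducible apply Def.ex
        | with_reducible apply Def.all
        | with_reducible apply Def.imp
        | with_reducible apply Def.eq
        | with_reducible apply Def.lt
        | with_reducible apply Def.le
        | with_reducible apply DefF.add
        | with_reducible apply DefF.mul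
        | with_reducible apply DefF.the)
  · obtain ⟨a, b, h⟩ := exists_val (f := fun _ => c) (DefF.const c) 1
    exact ⟨c, a, b, h 0 zero_lt_one, fun i hi => absurd hi (not_lt.mpr zero_le), h 0 zero_lt_one⟩
  · rintro n ⟨y, a, b, h0, hs, rfl⟩
    classical
    -- the extended sequence
    have hf : DefF (fun v : ℕ → M => the (fun z => (v 0 ≤ n ∧ z = val a b (v 0)) ∨
        (¬ v 0 ≤ n ∧ z = g n (val a b n)))) := by
      (repeat' first
          | assumption
          | with_reducible exact DefF.var _
          | with_reducible exact DefF.const _
          | with_reducible exact Def.const _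
          | with_reducible apply DefF.val
          | with_reducible apply Def.and
          | with_reducible apply Def.or
          | with_reducible apply Def.iff
          | with_reducible apply Def.not
          | with_reducible apply Def.ex
          | with_reducible apply Def.all
          | with_reducible apply Def.imp
          | with_reducible apply Def.eq
          | with_reducible apply Def.lt
          | with_reducible apply Def.le
          | with_reducible apply DefF.add
          | with_reducible apply DefF.mul
          | with_reducible apply DefF.the)
    obtain ⟨a', b', h'⟩ := exists_val (f := fun x : M => the (fun z => (x ≤ n ∧ z = val a b x) ∨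
        (¬ x ≤ n ∧ z = g n (val a b n)))) hf (n + 1 + 1)
    have e1 : ∀ x, x ≤ n → val a' b' x = val a b x := by
      intro x hx
      rw [h' x (lt_succ_iff.mpr (hx.trans le_self_add))]
      apply the_eq (P := fun z => (x ≤ n ∧ z = val a b x) ∨ (¬ x ≤ n ∧ z = g n (val a b n)))
        (Or.inl ⟨hx, rfl⟩)
      rintro y (⟨_, hy⟩ | ⟨hy, _⟩)
      · exact hy
      · exact absurd hx hy
    have e2 : val a' b' (n + 1) = g n (val a b n) := by
      rw [h' (n + 1) (lt_succ_iff.mpr le_rfl)]
      have hn : ¬ n + 1 ≤ n := by rw [succ_le_iff]; exact lt_irrefl n
      apply the_eq (P := fun z => (n + 1 ≤ n ∧ z = val a b (n + 1)) ∨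
        (¬ n + 1 ≤ n ∧ z = g n (val a b n))) (Or.inr ⟨hn, rfl⟩)
      rintro y (⟨hy, _⟩ | ⟨_, hy⟩)
      · exact absurd hy hn
      · exact hy
    refine ⟨_, a', b', ?_, ?_, rfl⟩
    · rw [e1 0 zero_le, h0]
    · intro i hi
      rcases lt_succ_iff'.mp hi with h | h
      · rw [e1 _ (succ_le_iff.mpr h), e1 _ h.le, hs i h]
      · rw [h, e2, e1 n le_rfl]

/-- The function defined by recursion. -/
noncomputable def rc (c : M) (g : M → M → M) (n : M) : M := the (RecRel c g n)

lemma rc_spec {c : M} {g : M → M → M} (hg : Def (fun v => v 0 = g (v 1) (v 2))) (n : M) :
    RecRel c g n (rc c g n) := by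
  obtain ⟨y, hy⟩ := RecRel.exists (c := c) hg n
  exact the_spec ⟨y, hy, fun z hz => RecRel.unique hz hy⟩

lemma rc_eq_iff {c : M} {g : M → M → M} (hg : Def (fun v => v 0 = g (v 1) (v 2))) (n y : M) :
    rc c g n = y ↔ RecRel c g n y := by
  constructor
  · rintro rfl
    exact rc_spec hg n
  · intro h
    exact RecRel.unique (rc_spec hg n) h

lemma rc_zero {c : M} {g : M → M → M} (hg : Def (fun v => v 0 = g (v 1) (v 2))) :
    rc c g 0 = c := by
  obtain ⟨a, b, h0, _, h⟩ := rc_spec (c := c) hg 0
  rw [← h, h0]

lemma rc_succ {c : M} {g : M → M → M} (hg : Def (fun v => v 0 = g (v 1) (v 2))) (n : M) :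
    rc c g (n + 1) = g n (rc c g n) := by
  obtain ⟨a, b, h0, hs, h⟩ := rc_spec (c := c) hg (n + 1)
  rw [← h, hs n (lt_succ_iff.mpr le_rfl)]
  congr 1
  exact ((rc_eq_iff hg n _).mpr ⟨a, b, h0, fun i hi => hs i (hi.trans (lt_succ_iff.mpr le_rfl)),
    rfl⟩).symm

lemma def_double : Def (M := M) (fun v => v 0 = (fun _ y : M => y + y) (v 1) (v 2)) := by
  (repeat' first
      | assumption
      | with_reducible exact DefF.var _
      | with_reducible exact DefF.const _
      | with_reducible exact Def.const _
      | with_reducible apply DefF.val
      | with_reducible apply Def.and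
      | with_reducible apply Def.or
      | with_reducible apply Def.iff
      | with_reducible apply Def.not
      | with_reducible apply Def.ex
      | with_reducible apply Def.all
      | with_reducible apply Def.imp
      | with_reducible apply Def.eq
      | with_reducible apply Def.lt
      | with_reducible apply Def.le
      | with_reducible apply DefF.add
      | with_reducible apply DefF.mul
      | with_reducible apply DefF.the)

/-- `2 ^ n`. -/
noncomputable def pow2 (n : M) : M := rc 1 (fun _ y => y + y) n

lemma pow2_eq_iff (n p : M) : pow2 n = p ↔ ∃ a b, val a b 0 = 1 ∧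
    (∀ i, i < n → val a b (i + 1) = val a b i + val a b i) ∧ val a b n = p :=
  rc_eq_iff def_double n p

theorem DefF.pow2 {f : (ℕ → M) → M} (hf : DefF f) : DefF (fun v => pow2 (f v)) := by
  have h : Def (M := M) (fun v => v 0 = Arith.pow2 (v 1)) := by
    refine Def.congr (R := fun v => ∃ a b, Arith.val a b 0 = 1 ∧
      (∀ i, i < v 1 → Arith.val a b (i + 1) = Arith.val a b i +
        Arith.val a b i) ∧ Arith.val a b (v 1) = v 0) ?_
      (fun v => by rw [eq_comm (a := v 0), pow2_eq_iff])
    (repeat' first
        | assumption
        | with_reducible exact DefF.var _
        | with_reducible exact DefF.const _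
        | with_reducible exact Def.const _
        | with_reducible apply DefF.val
        | with_reducible apply Def.and
        | with_reducible apply Def.or
        | with_reducible apply Def.iff
        | with_reducible apply Def.not
        | with_reducible apply Def.ex
        | with_reducible apply Def.all
        | with_reducible apply Def.imp
        | with_reducible apply Def.eq
        | with_reducible apply Def.lt
        | with_reducible apply Def.le
        | with_reducible apply DefF.add
        | with_reducible apply DefF.mul
        | with_reducible apply DefF.the)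
  exact DefF.app1 h hf


lemma pow2_zero : pow2 (0 : M) = 1 := rc_zero def_double

lemma pow2_succ (n : M) : pow2 (n + 1) = pow2 n + pow2 n := rc_succ def_double n

lemma pow2_pos (n : M) : 0 < pow2 n := by
  refine ind (P := fun n => 0 < pow2 n) ?_ ?_ ?_ n
  · (repeat' first
      | assumption
      | with_reducible exact DefF.var _
      | with_reducible exact DefF.const _
      | with_reducible exact Def.const _
      | with_reducible apply DefF.val
      | with_reducible apply DefF.pow2
      | with_reducible apply Def.and
      | with_reducible apply Def.or
      | with_reducible apply Def.iff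
      | with_reducible apply Def.not
      | with_reducible apply Def.ex
      | with_reducible apply Def.all
      | with_reducible apply Def.imp
      | with_reducible apply Def.eq
      | with_reducible apply Def.lt
      | with_reducible apply Def.le
      | with_reducible apply DefF.add
      | with_reducible apply DefF.mul
      | with_reducible apply DefF.the)
  · rw [pow2_zero]; exact zero_lt_one
  · intro n ih
    rw [pow2_succ]
    exact lt_of_lt_of_le ih le_self_add

lemma pow2_lt_succ (n : M) : pow2 n < pow2 (n + 1) := by
  rw [pow2_succ]
  exact lt_add_of_pos_right _ (pow2_pos n)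

lemma exists_pow2 {m n : M} (h : m < n) : ∃ w, pow2 n = w * (pow2 m + pow2 m) := by
  obtain ⟨k, rfl⟩ := (lt_iff_exists _ _).mp h
  refine ind (P := fun k => ∃ w, pow2 (m + (k + 1)) = w * (pow2 m + pow2 m)) ?_ ?_ ?_ k
  · (repeat' first
      | assumption
      | with_reducible exact DefF.var _
      | with_reducible exact DefF.const _
      | with_reducible exact Def.const _
      | with_reducible apply DefF.val
      | with_reducible apply DefF.pow2
      | with_reducible apply Def.and
      | with_reducible apply Def.or
      | with_reducible apply Def.iff
      | with_reducible apply Def.not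
      | with_reducible apply Def.ex
      | with_reducible apply Def.all
      | with_reducible apply Def.imp
      | with_reducible apply Def.eq
      | with_reducible apply Def.lt
      | with_reducible apply Def.le
      | with_reducible apply DefF.add
      | with_reducible apply DefF.mul
      | with_reducible apply DefF.the)
  · exact ⟨1, by rw [zero_add, pow2_succ]; ring⟩
  · rintro k ⟨w, hw⟩
    exact ⟨w + w, by rw [← add_assoc, pow2_succ, hw]; ring⟩

lemma pow2_le {m n : M} (h : m ≤ n) : pow2 m ≤ pow2 n := by
  rcases h.lt_or_eq with h | h
  · obtain ⟨w, hw⟩ := exists_pow2 h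
    have hw0 : 0 < w := by
      apply pos_of_ne
      rintro rfl
      rw [zero_mul] at hw
      exact (pow2_pos n).ne' hw
    obtain ⟨w', rfl⟩ := exists_pred hw0
    calc pow2 m ≤ pow2 m + (pow2 m + w' * (pow2 m + pow2 m)) := le_self_add
      _ = _ := by rw [hw]; ring
  · rw [h]

lemma lt_pow2 (n : M) : n < pow2 n := by
  refine ind (P := fun n => n < pow2 n) ?_ ?_ ?_ n
  · (repeat' first
      | assumption
      | with_reducible exact DefF.var _
      | with_reducible exact DefF.const _
      | with_reducible exact Def.const _
      | with_reducible apply DefF.val
      | with_reducible apply DefF.pow2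
      | with_reducible apply Def.and
      | with_reducible apply Def.or
      | with_reducible apply Def.iff
      | with_reducible apply Def.not
      | with_reducible apply Def.ex
      | with_reducible apply Def.all
      | with_reducible apply Def.imp
      | with_reducible apply Def.eq
      | with_reducible apply Def.lt
      | with_reducible apply Def.le
      | with_reducible apply DefF.add
      | with_reducible apply DefF.mul
      | with_reducible apply DefF.the)
  · exact pow2_pos 0
  · intro n ih
    rw [pow2_succ]
    calc n + 1 ≤ pow2 n := succ_le_iff.mpr ih
      _ < pow2 n + pow2 n := lt_add_of_pos_right _ (pow2_pos n)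

/-! ### Ackermann's coding of finite sets -/

/-- `x` is an element of the set coded by `y`: the `x`-th binary digit of `y` is `1`. -/
def Mem (x y : M) : Prop := ∃ u w, y = u + (pow2 x + w * (pow2 x + pow2 x)) ∧ u < pow2 x

theorem Def.mem {f g : (ℕ → M) → M} (hf : DefF f) (hg : DefF g) :
    Def (fun v => Mem (f v) (g v)) := by
  have h : Def (M := M) (fun v => Mem (v 0) (v 1)) := by
    unfold Mem
    (repeat' first
        | assumption
        | with_reducible exact DefF.var _
        | with_reducible exact DefF.const _
        | with_reducible exact Def.const _
        | with_reducible apply DefF.val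
        | with_reducible apply DefF.pow2
        | with_reducible apply Def.and
        | with_reducible apply Def.or
        | with_reducible apply Def.iff
        | with_reducible apply Def.not
        | with_reducible apply Def.ex
        | with_reducible apply Def.all
        | with_reducible apply Def.imp
        | with_reducible apply Def.eq
        | with_reducible apply Def.lt
        | with_reducible apply Def.le
        | with_reducible apply DefF.add
        | with_reducible apply DefF.mul
        | with_reducible apply DefF.the)
  exact Def.sub2 h hf hg


lemma Mem.pow2_le {x y : M} (h : Mem x y) : pow2 x ≤ y := by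
  obtain ⟨u, w, rfl, _⟩ := h
  exact le_self_add.trans le_add_self

lemma Mem.lt {x y : M} (h : Mem x y) : x < y := lt_of_lt_of_le (lt_pow2 x) h.pow2_le

lemma Mem.lt_of_lt_pow2 {x y n : M} (h : Mem x y) (hy : y < pow2 n) : x < n := by
  by_contra hno
  exact absurd (h.pow2_le.trans_lt hy) (not_lt.mpr (Arith.pow2_le (not_lt.mp hno)))

lemma not_mem_zero (x : M) : ¬ Mem x 0 := fun h => absurd h.lt (not_lt.mpr zero_le)

/-- Adding a multiple of `2 ^ (x + 1)` does not change the `x`-th digit. -/
lemma mem_add_mul (x y w : M) : Mem x (y + w * (pow2 x + pow2 x)) ↔ Mem x y := by
  constructor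
  · rintro ⟨u, w', h, hu⟩
    -- write `y = q * 2 ^ (x + 1) + r`
    obtain ⟨r, ⟨q, hq⟩, hr⟩ := exists_rem y (m := pow2 x + pow2 x)
      (lt_of_lt_of_le (pow2_pos x) le_self_add)
    have e1 : y + w * (pow2 x + pow2 x) = (q + w) * (pow2 x + pow2 x) + r := by rw [hq]; ring
    have e2 : y + w * (pow2 x + pow2 x) = w' * (pow2 x + pow2 x) + (u + pow2 x) := by rw [h]; ring
    obtain ⟨_, e3⟩ := rem_unique e1 hr e2 (by gcongr)
    exact ⟨u, q, by rw [hq, e3]; ring, hu⟩
  · rintro ⟨u, w', rfl, hu⟩
    exact ⟨u, w' + w, by ring, hu⟩

lemma mem_add_pow2 {x y n : M} (hy : y < pow2 n) : Mem x (y + pow2 n) ↔ x = n ∨ Mem x y := by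
  rcases lt_trichotomy x n with h | h | h
  · obtain ⟨w, hw⟩ := exists_pow2 h
    rw [hw, mem_add_mul]
    constructor
    · exact Or.inr
    · rintro (h1 | h1)
      · exact absurd h1 h.ne
      · exact h1
  · rw [h]
    simp only [true_or, iff_true]
    exact ⟨y, 0, by ring, hy⟩
  · constructor
    · intro h1
      have h2 := h1.pow2_le
      have h3 : y + pow2 n < pow2 (n + 1) := by
        rw [pow2_succ]
        gcongr
      exact absurd (h2.trans_lt h3) (not_lt.mpr (pow2_le (succ_le_iff.mpr h)))
    · rintro (h1 | h1)
      · exact absurd h1 h.ne'
      · exact absurd (h1.lt_of_lt_pow2 hy) (not_lt.mpr h.le)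

/-- Comprehension: bounded definable classes are coded. -/
theorem comprehension {P : M → Prop} (hP : Def (fun v => P (v 0))) (n : M) :
    ∃ y, y < pow2 n ∧ ∀ x, Mem x y ↔ x < n ∧ P x := by
  refine ind (P := fun n => ∃ y, y < pow2 n ∧ ∀ x, Mem x y ↔ x < n ∧ P x) ?_ ?_ ?_ n
  · have h1 : ∀ {f : (ℕ → M) → M}, DefF f → Def (fun v => P (f v)) := fun hf => Def.sub1 hP hf
    (repeat' first
        | assumption
        | with_reducible exact DefF.var _
        | with_reducible exact DefF.const _
        | with_reducible exact Def.const _
        | with_reducible apply h1
        | with_reducible apply DefF.val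
        | with_reducible apply DefF.pow2
        | with_reducible apply Def.mem
        | with_reducible apply Def.and
        | with_reducible apply Def.or
        | with_reducible apply Def.iff
        | with_reducible apply Def.not
        | with_reducible apply Def.ex
        | with_reducible apply Def.all
        | with_reducible apply Def.imp
        | with_reducible apply Def.eq
        | with_reducible apply Def.lt
        | with_reducible apply Def.le
        | with_reducible apply DefF.add
        | with_reducible apply DefF.mul
        | with_reducible apply DefF.the)
  · refine ⟨0, pow2_pos 0, fun x => ⟨fun h => absurd h (not_mem_zero x), ?_⟩⟩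
    rintro ⟨h, _⟩
    exact absurd h (not_lt.mpr zero_le)
  · rintro n ⟨y, hy, h⟩
    by_cases hn : P n
    · refine ⟨y + pow2 n, by rw [pow2_succ]; gcongr, fun x => ?_⟩
      rw [mem_add_pow2 hy, h, lt_succ_iff']
      constructor
      · rintro (rfl | ⟨h1, h2⟩)
        · exact ⟨Or.inr rfl, hn⟩
        · exact ⟨Or.inl h1, h2⟩
      · rintro ⟨h1 | h1, h2⟩
        · exact Or.inr ⟨h1, h2⟩
        · exact Or.inl h1
    · refine ⟨y, hy.trans (pow2_lt_succ n), fun x => ?_⟩
      rw [h, lt_succ_iff']
      constructor
      · rintro ⟨h1, h2⟩
        exact ⟨Or.inl h1, h2⟩
      · rintro ⟨h1 | rfl, h2⟩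
        · exact ⟨h1, h2⟩
        · exact absurd h2 hn

/-- Every number below `2 ^ n` is determined by its elements. -/
lemma ext_aux (n : M) : ∀ y z : M, y < pow2 n → z < pow2 n → (∀ x, Mem x y ↔ Mem x z) → y = z := by
  refine ind (P := fun n => ∀ y z : M, y < pow2 n → z < pow2 n → (∀ x, Mem x y ↔ Mem x z) →
    y = z) ?_ ?_ ?_ n
  · (repeat' first
      | assumption
      | with_reducible exact DefF.var _
      | with_reducible exact DefF.const _
      | with_reducible exact Def.const _
      | with_reducible apply DefF.val
      | with_reducible apply DefF.pow2
      | with_reducible apply Def.mem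
      | with_reducible apply Def.and
      | with_reducible apply Def.or
      | with_reducible apply Def.iff
      | with_reducible apply Def.not
      | with_reducible apply Def.ex
      | with_reducible apply Def.all
      | with_reducible apply Def.imp
      | with_reducible apply Def.eq
      | with_reducible apply Def.lt
      | with_reducible apply Def.le
      | with_reducible apply DefF.add
      | with_reducible apply DefF.mul
      | with_reducible apply DefF.the)
  · intro y z hy hz _
    rw [pow2_zero, lt_one_iff'] at hy hz
    rw [hy, hz]
  · intro n ih y z hy hz h
    rw [pow2_succ] at hy hz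
    -- split off the digit of index `n`
    have split : ∀ y : M, y < pow2 n + pow2 n → ¬ Mem n y → y < pow2 n := by
      intro y hy hn
      by_contra hno
      obtain ⟨t, ht⟩ := exists_add_of_le (not_lt.mp hno)
      apply hn
      refine ⟨t, 0, by rw [ht]; ring, ?_⟩
      rw [ht] at hy
      exact lt_of_add_lt_add_left hy
    have split' : ∀ y : M, Mem n y → y < pow2 n + pow2 n → ∃ t, y = t + pow2 n ∧ t < pow2 n := by
      intro y hn hy
      obtain ⟨t, ht⟩ := exists_add_of_le hn.pow2_le
      refine ⟨t, by rw [ht]; ring, ?_⟩
      rw [ht] at hy
      exact lt_of_add_lt_add_left hy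
    by_cases hn : Mem n y
    · obtain ⟨t, rfl, ht⟩ := split' y hn hy
      obtain ⟨s, rfl, hs⟩ := split' z ((h n).mp hn) hz
      rw [ih t s ht hs]
      intro x
      have h1 := h x
      rw [mem_add_pow2 ht, mem_add_pow2 hs] at h1
      by_cases hx : x = n
      · rw [hx]
        constructor
        · intro h2
          exact absurd (h2.lt_of_lt_pow2 ht) (lt_irrefl n)
        · intro h2
          exact absurd (h2.lt_of_lt_pow2 hs) (lt_irrefl n)
      · simpa [hx] using h1
    · exact ih y z (split y hy hn) (split z hz (fun h1 => hn ((h n).mpr h1))) h

/-- Extensionality. -/
lemma mem_ext {y z : M} (h : ∀ x, Mem x y ↔ Mem x z) : y = z :=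
  ext_aux (y + z) y z (lt_of_le_of_lt le_self_add (lt_pow2 _))
    (lt_of_le_of_lt le_add_self (lt_pow2 _)) h

/-- The set of the elements with the property `P`. -/
noncomputable def cls (P : M → Prop) : M := the (fun y => ∀ x, Mem x y ↔ P x)

theorem DefF.cls {Q : (ℕ → M) → M → Prop} (h : Def (fun v => Q (fun n => v (n + 1)) (v 0))) :
    DefF (fun v => cls (fun x => Q v x)) := by
  have h1 : Def (fun v => Q (fun n => v (n + 2)) (v 0)) :=
    Def.ren (fun n => match n with | 0 => 0 | n + 1 => n + 2) h
  unfold Arith.cls
  apply DefF.the
  apply Def.all
  apply Def.iff
  · exact Def.mem (DefF.var 0) (DefF.var 1)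
  · exact h1


lemma mem_cls {P : M → Prop} (hP : Def (fun v => P (v 0))) (n : M) (hn : ∀ x, P x → x < n)
    (x : M) : Mem x (cls P) ↔ P x := by
  obtain ⟨y, _, hy⟩ := comprehension hP n
  have h1 : ∀ x, Mem x y ↔ P x := by
    intro x
    rw [hy]
    exact ⟨fun h => h.2, fun h => ⟨hn x h, h⟩⟩
  exact the_spec (P := fun y => ∀ x, Mem x y ↔ P x)
    ⟨y, h1, fun z hz => mem_ext (fun x => by rw [hz, h1])⟩ x

lemma lt_pow2_of_forall {y n : M} (h : ∀ x, Mem x y → x < n) : y < pow2 n := by
  obtain ⟨z, hz, h1⟩ := comprehension (P := fun x => Mem x y) (by (repeat' first
      | assumption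
      | with_reducible exact DefF.var _
      | with_reducible exact DefF.const _
      | with_reducible exact Def.const _
      | with_reducible apply DefF.val
      | with_reducible apply DefF.pow2
      | with_reducible apply Def.mem
      | with_reducible apply DefF.cls
      | with_reducible apply Def.and
      | with_reducible apply Def.or
      | with_reducible apply Def.iff
      | with_reducible apply Def.not
      | with_reducible apply Def.ex
      | with_reducible apply Def.all
      | with_reducible apply Def.imp
      | with_reducible apply Def.eq
      | with_reducible apply Def.lt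
      | with_reducible apply Def.le
      | with_reducible apply DefF.add
      | with_reducible apply DefF.mul
      | with_reducible apply DefF.the)) n
  have : y = z := mem_ext (fun x => by rw [h1]; exact ⟨fun h2 => ⟨h x h2, h2⟩, fun h2 => h2.2⟩)
  rw [this]
  exact hz




/-! ### Finite sets and their cardinalities -/

/-- `k` is the number of elements of `s` which are smaller than `n`. -/
def CntRel (s n k : M) : Prop := ∃ a b, val a b 0 = 0 ∧
  (∀ i, i < n → ((Mem i s ∧ val a b (i + 1) = val a b i + 1) ∨
    (¬ Mem i s ∧ val a b (i + 1) = val a b i))) ∧ val a b n = k

/-- One step of the counting function. -/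
noncomputable def stp (s i y : M) : M := the (fun z => (Mem i s ∧ z = y + 1) ∨ (¬ Mem i s ∧ z = y))

lemma def_stp (s : M) : Def (M := M) (fun v => v 0 = stp s (v 1) (v 2)) := by
  unfold stp
  (repeat' first
      | assumption
      | with_reducible exact DefF.var _
      | with_reducible exact DefF.const _
      | with_reducible exact Def.const _
      | with_reducible apply DefF.val
      | with_reducible apply DefF.pow2
      | with_reducible apply Def.mem
      | with_reducible apply DefF.cls
      | with_reducible apply Def.and
      | with_reducible apply Def.or
      | with_reducible apply Def.iff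
      | with_reducible apply Def.not
      | with_reducible apply Def.ex
      | with_reducible apply Def.all
      | with_reducible apply Def.imp
      | with_reducible apply Def.eq
      | with_reducible apply Def.lt
      | with_reducible apply Def.le
      | with_reducible apply DefF.add
      | with_reducible apply DefF.mul
      | with_reducible apply DefF.the)

lemma eq_stp_iff (s i y z : M) : z = stp s i y ↔ (Mem i s ∧ z = y + 1) ∨ (¬ Mem i s ∧ z = y) := by
  by_cases h : Mem i s
  · have h1 : stp s i y = y + 1 := the_eq (P := fun z => (Mem i s ∧ z = y + 1) ∨
      (¬ Mem i s ∧ z = y)) (Or.inl ⟨h, rfl⟩) (by rintro w (h1 | h1); exacts [h1.2, absurd h h1.1])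
    rw [h1]
    simp [h]
  · have h1 : stp s i y = y := the_eq (P := fun z => (Mem i s ∧ z = y + 1) ∨
      (¬ Mem i s ∧ z = y)) (Or.inr ⟨h, rfl⟩) (by rintro w (h1 | h1); exacts [absurd h1.1 h, h1.2])
    rw [h1]
    simp [h]

/-- The number of elements of `s` which are smaller than `n`. -/
noncomputable def cnt (s n : M) : M := rc 0 (stp s) n

lemma cnt_eq_iff (s n k : M) : cnt s n = k ↔ CntRel s n k := by
  unfold cnt
  rw [rc_eq_iff (def_stp s)]
  unfold RecRel CntRel
  simp only [eq_stp_iff]

lemma cnt_zero (s : M) : cnt s 0 = 0 := rc_zero (def_stp s)

lemma cnt_succ_mem {s n : M} (h : Mem n s) : cnt s (n + 1) = cnt s n + 1 := by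
  have h1 := rc_succ (c := 0) (def_stp s) n
  rw [eq_stp_iff] at h1
  rcases h1 with h1 | h1
  · exact h1.2
  · exact absurd h h1.1

lemma cnt_succ_not_mem {s n : M} (h : ¬ Mem n s) : cnt s (n + 1) = cnt s n := by
  have h1 := rc_succ (c := 0) (def_stp s) n
  rw [eq_stp_iff] at h1
  rcases h1 with h1 | h1
  · exact absurd h1.1 h
  · exact h1.2

theorem DefF.cnt {f g : (ℕ → M) → M} (hf : DefF f) (hg : DefF g) :
    DefF (fun v => cnt (f v) (g v)) := by
  have h : Def (M := M) (fun v => v 0 = Arith.cnt (v 1) (v 2)) := by
    refine Def.congr (R := fun v => CntRel (v 1) (v 2) (v 0)) ?_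
      (fun v => by rw [eq_comm (a := v 0), cnt_eq_iff])
    unfold CntRel
    (repeat' first
        | assumption
        | with_reducible exact DefF.var _
        | with_reducible exact DefF.const _
        | with_reducible exact Def.const _
        | with_reducible apply DefF.val
        | with_reducible apply DefF.pow2
        | with_reducible apply Def.mem
        | with_reducible apply DefF.cls
        | with_reducible apply Def.and
        | with_reducible apply Def.or
        | with_reducible apply Def.iff
        | with_reducible apply Def.not
        | with_reducible apply Def.ex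
        | with_reducible apply Def.all
        | with_reducible apply Def.imp
        | with_reducible apply Def.eq
        | with_reducible apply Def.lt
        | with_reducible apply Def.le
        | with_reducible apply DefF.add
        | with_reducible apply DefF.mul
        | with_reducible apply DefF.the)
  exact DefF.app2 h hf hg


lemma cnt_of_bound {s n : M} (hs : ∀ x, Mem x s → x < n) {m : M} (hm : n ≤ m) :
    cnt s m = cnt s n := by
  obtain ⟨k, rfl⟩ := exists_add_of_le hm
  refine ind (P := fun k => cnt s (n + k) = cnt s n) ?_ ?_ ?_ k
  · (repeat' first
      | assumption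
      | with_reducible exact DefF.var _
      | with_reducible exact DefF.const _
      | with_reducible exact Def.const _
      | with_reducible apply DefF.val
      | with_reducible apply DefF.pow2
      | with_reducible apply Def.mem
      | with_reducible apply DefF.cls
      | with_reducible apply DefF.cnt
      | with_reducible apply Def.and
      | with_reducible apply Def.or
      | with_reducible apply Def.iff
      | with_reducible apply Def.not
      | with_reducible apply Def.ex
      | with_reducible apply Def.all
      | with_reducible apply Def.imp
      | with_reducible apply Def.eq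
      | with_reducible apply Def.lt
      | with_reducible apply Def.le
      | with_reducible apply DefF.add
      | with_reducible apply DefF.mul
      | with_reducible apply DefF.the)
  · rw [add_zero]
  · intro k ih
    rw [← add_assoc, cnt_succ_not_mem, ih]
    intro h
    exact absurd (hs _ h) (not_lt.mpr le_self_add)

/-- The cardinality of a finite set. -/
noncomputable def card (s : M) : M := cnt s s

theorem DefF.card {f : (ℕ → M) → M} (hf : DefF f) : DefF (fun v => card (f v)) :=
  DefF.cnt hf hf


lemma card_eq_cnt {s n : M} (hs : ∀ x, Mem x s → x < n) : card s = cnt s n := by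
  have h1 : cnt s (s + n) = cnt s s := cnt_of_bound (fun x hx => hx.lt) le_self_add
  have h2 : cnt s (s + n) = cnt s n := cnt_of_bound hs le_add_self
  rw [card, ← h1, h2]

lemma card_eq_iff (s k : M) : card s = k ↔ ∃ n, (∀ x, Mem x s → x < n) ∧ CntRel s n k := by
  constructor
  · rintro rfl
    exact ⟨s, fun x hx => hx.lt, (cnt_eq_iff _ _ _).mp rfl⟩
  · rintro ⟨n, hn, h⟩
    rw [card_eq_cnt hn, cnt_eq_iff]
    exact h

/-- The set `s` with one more element. -/
noncomputable def ins (x s : M) : M := cls (fun y => Mem y s ∨ y = x)

@[simp] lemma mem_ins {x s y : M} : Mem y (ins x s) ↔ Mem y s ∨ y = x := by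
  refine mem_cls (P := fun y => Mem y s ∨ y = x) ?_ (s + x + 1) ?_ y
  · (repeat' first
      | assumption
      | with_reducible exact DefF.var _
      | with_reducible exact DefF.const _
      | with_reducible exact Def.const _
      | with_reducible apply DefF.val
      | with_reducible apply DefF.pow2
      | with_reducible apply Def.mem
      | with_reducible apply DefF.cls
      | with_reducible apply DefF.cnt
      | with_reducible apply DefF.card
      | with_reducible apply Def.and
      | with_reducible apply Def.or
      | with_reducible apply Def.iff
      | with_reducible apply Def.not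
      | with_reducible apply Def.ex
      | with_reducible apply Def.all
      | with_reducible apply Def.imp
      | with_reducible apply Def.eq
      | with_reducible apply Def.lt
      | with_reducible apply Def.le
      | with_reducible apply DefF.add
      | with_reducible apply DefF.mul
      | with_reducible apply DefF.the)
  · rintro y (h | rfl)
    · rw [lt_succ_iff]
      exact h.lt.le.trans le_self_add
    · rw [lt_succ_iff]
      exact le_add_self

theorem DefF.ins {f g : (ℕ → M) → M} (hf : DefF f) (hg : DefF g) :
    DefF (fun v => ins (f v) (g v)) := by
  have h : DefF (M := M) (fun v => Arith.ins (v 0) (v 1)) := by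
    unfold Arith.ins
    (repeat' first
        | assumption
        | with_reducible exact DefF.var _
        | with_reducible exact DefF.const _
        | with_reducible exact Def.const _
        | with_reducible apply DefF.val
        | with_reducible apply DefF.pow2
        | with_reducible apply Def.mem
        | with_reducible apply DefF.cls
        | with_reducible apply DefF.cnt
        | with_reducible apply DefF.card
        | with_reducible apply Def.and
        | with_reducible apply Def.or
        | with_reducible apply Def.iff
        | with_reducible apply Def.not
        | with_reducible apply Def.ex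
        | with_reducible apply Def.all
        | with_reducible apply Def.imp
        | with_reducible apply Def.eq
        | with_reducible apply Def.lt
        | with_reducible apply Def.le
        | with_reducible apply DefF.add
        | with_reducible apply DefF.mul
        | with_reducible apply DefF.the)
  exact DefF.app2 h hf hg


/-- The union of two sets. -/
noncomputable def un (s t : M) : M := cls (fun y => Mem y s ∨ Mem y t)

@[simp] lemma mem_un {s t y : M} : Mem y (un s t) ↔ Mem y s ∨ Mem y t := by
  refine mem_cls (P := fun y => Mem y s ∨ Mem y t) ?_ (s + t) ?_ y
  · (repeat' first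
      | assumption
      | with_reducible exact DefF.var _
      | with_reducible exact DefF.const _
      | with_reducible exact Def.const _
      | with_reducible apply DefF.val
      | with_reducible apply DefF.pow2
      | with_reducible apply Def.mem
      | with_reducible apply DefF.cls
      | with_reducible apply DefF.cnt
      | with_reducible apply DefF.card
      | with_reducible apply DefF.ins
      | with_reducible apply Def.and
      | with_reducible apply Def.or
      | with_reducible apply Def.iff
      | with_reducible apply Def.not
      | with_reducible apply Def.ex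
      | with_reducible apply Def.all
      | with_reducible apply Def.imp
      | with_reducible apply Def.eq
      | with_reducible apply Def.lt
      | with_reducible apply Def.le
      | with_reducible apply DefF.add
      | with_reducible apply DefF.mul
      | with_reducible apply DefF.the)
  · rintro y (h | h)
    · exact h.lt.trans_le le_self_add
    · exact h.lt.trans_le le_add_self

theorem DefF.un {f g : (ℕ → M) → M} (hf : DefF f) (hg : DefF g) :
    DefF (fun v => un (f v) (g v)) := by
  have h : DefF (M := M) (fun v => Arith.un (v 0) (v 1)) := by
    unfold Arith.un
    (repeat' first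
        | assumption
        | with_reducible exact DefF.var _
        | with_reducible exact DefF.const _
        | with_reducible exact Def.const _
        | with_reducible apply DefF.val
        | with_reducible apply DefF.pow2
        | with_reducible apply Def.mem
        | with_reducible apply DefF.cls
        | with_reducible apply DefF.cnt
        | with_reducible apply DefF.card
        | with_reducible apply DefF.ins
        | with_reducible apply Def.and
        | with_reducible apply Def.or
        | with_reducible apply Def.iff
        | with_reducible apply Def.not
        | with_reducible apply Def.ex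
        | with_reducible apply Def.all
        | with_reducible apply Def.imp
        | with_reducible apply Def.eq
        | with_reducible apply Def.lt
        | with_reducible apply Def.le
        | with_reducible apply DefF.add
        | with_reducible apply DefF.mul
        | with_reducible apply DefF.the)
  exact DefF.app2 h hf hg


/-- The interval `[a, b)`. -/
noncomputable def ico (a b : M) : M := cls (fun y => a ≤ y ∧ y < b)

@[simp] lemma mem_ico {a b y : M} : Mem y (ico a b) ↔ a ≤ y ∧ y < b := by
  refine mem_cls (P := fun y => a ≤ y ∧ y < b) ?_ b (fun x hx => hx.2) y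
  (repeat' first
      | assumption
      | with_reducible exact DefF.var _
      | with_reducible exact DefF.const _
      | with_reducible exact Def.const _
      | with_reducible apply DefF.val
      | with_reducible apply DefF.pow2
      | with_reducible apply Def.mem
      | with_reducible apply DefF.cls
      | with_reducible apply DefF.cnt
      | with_reducible apply DefF.card
      | with_reducible apply DefF.ins
      | with_reducible apply DefF.un
      | with_reducible apply Def.and
      | with_reducible apply Def.or
      | with_reducible apply Def.iff
      | with_reducible apply Def.not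
      | with_reducible apply Def.ex
      | with_reducible apply Def.all
      | with_reducible apply Def.imp
      | with_reducible apply Def.eq
      | with_reducible apply Def.lt
      | with_reducible apply Def.le
      | with_reducible apply DefF.add
      | with_reducible apply DefF.mul
      | with_reducible apply DefF.the)

theorem DefF.ico {f g : (ℕ → M) → M} (hf : DefF f) (hg : DefF g) :
    DefF (fun v => ico (f v) (g v)) := by
  have h : DefF (M := M) (fun v => Arith.ico (v 0) (v 1)) := by
    unfold Arith.ico
    (repeat' first
        | assumption
        | with_reducible exact DefF.var _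
        | with_reducible exact DefF.const _
        | with_reducible exact Def.const _
        | with_reducible apply DefF.val
        | with_reducible apply DefF.pow2
        | with_reducible apply Def.mem
        | with_reducible apply DefF.cls
        | with_reducible apply DefF.cnt
        | with_reducible apply DefF.card
        | with_reducible apply DefF.ins
        | with_reducible apply DefF.un
        | with_reducible apply Def.and
        | with_reducible apply Def.or
        | with_reducible apply Def.iff
        | with_reducible apply Def.not
        | with_reducible apply Def.ex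
        | with_reducible apply Def.all
        | with_reducible apply Def.imp
        | with_reducible apply Def.eq
        | with_reducible apply Def.lt
        | with_reducible apply Def.le
        | with_reducible apply DefF.add
        | with_reducible apply DefF.mul
        | with_reducible apply DefF.the)
  exact DefF.app2 h hf hg


lemma card_zero : card (0 : M) = 0 := cnt_zero 0

lemma card_ins {x s : M} (h : ¬ Mem x s) : card (ins x s) = card s + 1 := by
  have key : ∀ n, (n ≤ x → cnt (ins x s) n = cnt s n) ∧
      (x < n → cnt (ins x s) n = cnt s n + 1) := by
    intro n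
    refine ind (P := fun n => (n ≤ x → cnt (ins x s) n = cnt s n) ∧
      (x < n → cnt (ins x s) n = cnt s n + 1)) ?_ ?_ ?_ n
    · (repeat' first
        | assumption
        | with_reducible exact DefF.var _
        | with_reducible exact DefF.const _
        | with_reducible exact Def.const _
        | with_reducible apply DefF.val
        | with_reducible apply DefF.pow2
        | with_reducible apply Def.mem
        | with_reducible apply DefF.cls
        | with_reducible apply DefF.cnt
        | with_reducible apply DefF.card
        | with_reducible apply DefF.ins
        | with_reducible apply DefF.un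
        | with_reducible apply DefF.ico
        | with_reducible apply Def.and
        | with_reducible apply Def.or
        | with_reducible apply Def.iff
        | with_reducible apply Def.not
        | with_reducible apply Def.ex
        | with_reducible apply Def.all
        | with_reducible apply Def.imp
        | with_reducible apply Def.eq
        | with_reducible apply Def.lt
        | with_reducible apply Def.le
        | with_reducible apply DefF.add
        | with_reducible apply DefF.mul
        | with_reducible apply DefF.the)
    · exact ⟨fun _ => by rw [cnt_zero, cnt_zero], fun h1 => absurd h1 (not_lt.mpr zero_le)⟩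
    · rintro n ⟨ih1, ih2⟩
      constructor
      · intro h1
        have h1 := succ_le_iff.mp h1
        by_cases h2 : Mem n s
        · rw [cnt_succ_mem (mem_ins.mpr (Or.inl h2)), cnt_succ_mem h2, ih1 h1.le]
        · rw [cnt_succ_not_mem (by rw [mem_ins]; rintro (h3 | h3); exacts [h2 h3, h1.ne h3]),
            cnt_succ_not_mem h2, ih1 h1.le]
      · intro h1
        rcases lt_succ_iff'.mp h1 with h1 | h1
        · by_cases h2 : Mem n s
          · rw [cnt_succ_mem (mem_ins.mpr (Or.inl h2)), cnt_succ_mem h2, ih2 h1]
          · rw [cnt_succ_not_mem (by rw [mem_ins]; rintro (h3 | h3); exacts [h2 h3, h1.ne' h3]),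
              cnt_succ_not_mem h2, ih2 h1]
        · rw [cnt_succ_mem (mem_ins.mpr (Or.inr h1.symm)), ih1 h1.ge, cnt_succ_not_mem (h1 ▸ h)]
  have hb : ∀ y, Mem y (ins x s) → y < s + x + 1 := by
    intro y hy
    rw [lt_succ_iff]
    rcases mem_ins.mp hy with h | rfl
    · exact h.lt.le.trans le_self_add
    · exact le_add_self
  rw [card_eq_cnt hb, card_eq_cnt (n := s + x + 1) (fun y hy => hb y (mem_ins.mpr (Or.inl hy)))]
  exact (key _).2 (lt_succ_iff.mpr le_add_self)

/-- Induction on finite sets. -/
theorem set_ind {P : M → Prop} (hP : Def (fun v => P (v 0))) (h0 : P 0)
    (hs : ∀ x s, (∀ y, Mem y s → y < x) → P s → P (ins x s)) (s : M) : P s := by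
  have key : ∀ n s : M, s < pow2 n → P s := by
    intro n
    refine ind (P := fun n => ∀ s : M, s < pow2 n → P s) ?_ ?_ ?_ n
    · have h1 : ∀ {f : (ℕ → M) → M}, DefF f → Def (fun v => P (f v)) := fun hf => Def.sub1 hP hf
      (repeat' first
          | assumption
          | with_reducible exact DefF.var _
          | with_reducible exact DefF.const _
          | with_reducible exact Def.const _
          | with_reducible apply h1
          | with_reducible apply DefF.val
          | with_reducible apply DefF.pow2
          | with_reducible apply Def.mem
          | with_reducible apply DefF.cls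
          | with_reducible apply DefF.cnt
          | with_reducible apply DefF.card
          | with_reducible apply DefF.ins
          | with_reducible apply DefF.un
          | with_reducible apply DefF.ico
          | with_reducible apply Def.and
          | with_reducible apply Def.or
          | with_reducible apply Def.iff
          | with_reducible apply Def.not
          | with_reducible apply Def.ex
          | with_reducible apply Def.all
          | with_reducible apply Def.imp
          | with_reducible apply Def.eq
          | with_reducible apply Def.lt
          | with_reducible apply Def.le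
          | with_reducible apply DefF.add
          | with_reducible apply DefF.mul
          | with_reducible apply DefF.the)
    · intro s hs
      rw [pow2_zero, lt_one_iff'] at hs
      rw [hs]
      exact h0
    · intro n ih s hsn
      by_cases hn : Mem n s
      · have hdef : Def (fun v : ℕ → M => Mem (v 0) s ∧ v 0 < n) := by (repeat' first
          | assumption
          | with_reducible exact DefF.var _
          | with_reducible exact DefF.const _
          | with_reducible exact Def.const _
          | with_reducible apply DefF.val
          | with_reducible apply DefF.pow2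
          | with_reducible apply Def.mem
          | with_reducible apply DefF.cls
          | with_reducible apply DefF.cnt
          | with_reducible apply DefF.card
          | with_reducible apply DefF.ins
          | with_reducible apply DefF.un
          | with_reducible apply DefF.ico
          | with_reducible apply Def.and
          | with_reducible apply Def.or
          | with_reducible apply Def.iff
          | with_reducible apply Def.not
          | with_reducible apply Def.ex
          | with_reducible apply Def.all
          | with_reducible apply Def.imp
          | with_reducible apply Def.eq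
          | with_reducible apply Def.lt
          | with_reducible apply Def.le
          | with_reducible apply DefF.add
          | with_reducible apply DefF.mul
          | with_reducible apply DefF.the)
        have h1 := mem_cls (P := fun y => Mem y s ∧ y < n) hdef n (fun x hx => hx.2)
        have h2 : s = ins n (cls (fun y => Mem y s ∧ y < n)) := by
          apply mem_ext
          intro y
          rw [mem_ins, h1]
          constructor
          · intro hy
            rcases lt_succ_iff'.mp (hy.lt_of_lt_pow2 hsn) with h3 | h3
            · exact Or.inl ⟨hy, h3⟩
            · exact Or.inr h3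
          · rintro (h3 | rfl)
            · exact h3.1
            · exact hn
        rw [h2]
        apply hs
        · intro y hy
          exact ((h1 y).mp hy).2
        · apply ih
          apply lt_pow2_of_forall
          intro y hy
          exact ((h1 y).mp hy).2
      · apply ih
        apply lt_pow2_of_forall
        intro y hy
        rcases lt_succ_iff'.mp (hy.lt_of_lt_pow2 hsn) with h3 | h3
        · exact h3
        · exact absurd (h3 ▸ hy) hn
  exact key s s (lt_pow2 s)

/-- A nonempty set is the union of a smaller set and a larger element. -/
lemma exists_max {s : M} (h : s ≠ 0) : ∃ x t, (∀ y, Mem y t → y < x) ∧ s = ins x t := by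
  revert h
  refine set_ind (P := fun s => s ≠ 0 → ∃ x t, (∀ y, Mem y t → y < x) ∧ s = ins x t) ?_ ?_ ?_ s
  · (repeat' first
      | assumption
      | with_reducible exact DefF.var _
      | with_reducible exact DefF.const _
      | with_reducible exact Def.const _
      | with_reducible apply DefF.val
      | with_reducible apply DefF.pow2
      | with_reducible apply Def.mem
      | with_reducible apply DefF.cls
      | with_reducible apply DefF.cnt
      | with_reducible apply DefF.card
      | with_reducible apply DefF.ins
      | with_reducible apply DefF.un
      | with_reducible apply DefF.ico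
      | with_reducible apply Def.and
      | with_reducible apply Def.or
      | with_reducible apply Def.iff
      | with_reducible apply Def.not
      | with_reducible apply Def.ex
      | with_reducible apply Def.all
      | with_reducible apply Def.imp
      | with_reducible apply Def.eq
      | with_reducible apply Def.lt
      | with_reducible apply Def.le
      | with_reducible apply DefF.add
      | with_reducible apply DefF.mul
      | with_reducible apply DefF.the)
  · intro h; exact absurd rfl h
  · intro x s hx _ _
    exact ⟨x, s, hx, rfl⟩

lemma card_un {s t : M} (h : ∀ x, Mem x s → ¬ Mem x t) : card (un s t) = card s + card t := by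
  revert h
  refine set_ind (P := fun t => (∀ x, Mem x s → ¬ Mem x t) → card (un s t) = card s + card t)
    ?_ ?_ ?_ t
  · (repeat' first
      | assumption
      | with_reducible exact DefF.var _
      | with_reducible exact DefF.const _
      | with_reducible exact Def.const _
      | with_reducible apply DefF.val
      | with_reducible apply DefF.pow2
      | with_reducible apply Def.mem
      | with_reducible apply DefF.cls
      | with_reducible apply DefF.cnt
      | with_reducible apply DefF.card
      | with_reducible apply DefF.ins
      | with_reducible apply DefF.un
      | with_reducible apply DefF.ico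
      | with_reducible apply Def.and
      | with_reducible apply Def.or
      | with_reducible apply Def.iff
      | with_reducible apply Def.not
      | with_reducible apply Def.ex
      | with_reducible apply Def.all
      | with_reducible apply Def.imp
      | with_reducible apply Def.eq
      | with_reducible apply Def.lt
      | with_reducible apply Def.le
      | with_reducible apply DefF.add
      | with_reducible apply DefF.mul
      | with_reducible apply DefF.the)
  · intro _
    have h1 : un s 0 = s := mem_ext (fun x => by simp [not_mem_zero])
    rw [h1, card_zero, add_zero]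
  · intro x t hx ih h
    have hxs : ¬ Mem x s := fun h1 => h x h1 (mem_ins.mpr (Or.inr rfl))
    have hxt : ¬ Mem x t := fun h1 => lt_irrefl x (hx x h1)
    have h1 : un s (ins x t) = ins x (un s t) := mem_ext (fun y => by simp [or_assoc])
    rw [h1, card_ins (by rw [mem_un]; tauto), card_ins hxt,
      ih (fun y hy hy' => h y hy (mem_ins.mpr (Or.inl hy'))), add_assoc]

lemma eq_zero_of_card {s : M} (h : card s = 0) : s = 0 := by
  by_contra hne
  obtain ⟨x, t, hx, rfl⟩ := exists_max hne
  rw [card_ins (fun h1 => lt_irrefl x (hx x h1))] at h
  exact (zero_lt_succ' (card t)).ne' h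

lemma card_ico (a k : M) : card (ico a (a + k)) = k := by
  refine ind (P := fun k => card (ico a (a + k)) = k) ?_ ?_ ?_ k
  · (repeat' first
      | assumption
      | with_reducible exact DefF.var _
      | with_reducible exact DefF.const _
      | with_reducible exact Def.const _
      | with_reducible apply DefF.val
      | with_reducible apply DefF.pow2
      | with_reducible apply Def.mem
      | with_reducible apply DefF.cls
      | with_reducible apply DefF.cnt
      | with_reducible apply DefF.card
      | with_reducible apply DefF.ins
      | with_reducible apply DefF.un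
      | with_reducible apply DefF.ico
      | with_reducible apply Def.and
      | with_reducible apply Def.or
      | with_reducible apply Def.iff
      | with_reducible apply Def.not
      | with_reducible apply Def.ex
      | with_reducible apply Def.all
      | with_reducible apply Def.imp
      | with_reducible apply Def.eq
      | with_reducible apply Def.lt
      | with_reducible apply Def.le
      | with_reducible apply DefF.add
      | with_reducible apply DefF.mul
      | with_reducible apply DefF.the)
  · have : ico a (a + 0) = 0 := mem_ext (fun x => by simp [not_mem_zero])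
    rw [this, card_zero]
  · intro k ih
    have : ico a (a + (k + 1)) = ins (a + k) (ico a (a + k)) := by
      apply mem_ext
      intro x
      rw [mem_ins, mem_ico, mem_ico, ← add_assoc, lt_succ_iff']
      constructor
      · rintro ⟨h1, h2 | h2⟩
        · exact Or.inl ⟨h1, h2⟩
        · exact Or.inr h2
      · rintro (⟨h1, h2⟩ | rfl)
        · exact ⟨h1, Or.inl h2⟩
        · exact ⟨le_self_add, Or.inr rfl⟩
    rw [this, card_ins (by simp), ih]

/-- A subset of the same cardinality is the whole set. -/
lemma eq_of_card {s t : M} (hst : ∀ x, Mem x s → Mem x t) (h : card s = card t) : s = t := by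
  have hdef : Def (fun v : ℕ → M => Mem (v 0) t ∧ ¬ Mem (v 0) s) := by (repeat' first
      | assumption
      | with_reducible exact DefF.var _
      | with_reducible exact DefF.const _
      | with_reducible exact Def.const _
      | with_reducible apply DefF.val
      | with_reducible apply DefF.pow2
      | with_reducible apply Def.mem
      | with_reducible apply DefF.cls
      | with_reducible apply DefF.cnt
      | with_reducible apply DefF.card
      | with_reducible apply DefF.ins
      | with_reducible apply DefF.un
      | with_reducible apply DefF.ico
      | with_reducible apply Def.and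
      | with_reducible apply Def.or
      | with_reducible apply Def.iff
      | with_reducible apply Def.not
      | with_reducible apply Def.ex
      | with_reducible apply Def.all
      | with_reducible apply Def.imp
      | with_reducible apply Def.eq
      | with_reducible apply Def.lt
      | with_reducible apply Def.le
      | with_reducible apply DefF.add
      | with_reducible apply DefF.mul
      | with_reducible apply DefF.the)
  have h1 := mem_cls (P := fun y => Mem y t ∧ ¬ Mem y s) hdef t (fun x hx => hx.1.lt)
  set r := cls (fun y => Mem y t ∧ ¬ Mem y s) with hr
  have h2 : t = un s r := by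
    apply mem_ext
    intro x
    rw [mem_un, h1]
    constructor
    · intro hx
      by_cases hxs : Mem x s
      · exact Or.inl hxs
      · exact Or.inr ⟨hx, hxs⟩
    · rintro (hx | hx)
      · exact hst x hx
      · exact hx.1
  have h3 : card t = card s + card r := by
    conv_lhs => rw [h2]
    exact card_un (fun x hx hx' => ((h1 x).mp hx').2 hx)
  have h4 : card r = 0 := by
    rw [h] at h3
    have : card t + 0 = card t + card r := by rw [add_zero]; exact h3
    exact (add_left_cancel this).symm
  rw [h2, eq_zero_of_card h4]
  exact mem_ext (fun x => by simp [not_mem_zero])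

/-! ### Coded functions and images -/

lemma pair_inj {a b a' b' : M} (h : (a + b) * (a + b) + a = (a' + b') * (a' + b') + a') :
    a = a' ∧ b = b' := by
  have key : ∀ {a b a' b' : M}, (a + b) * (a + b) + a = (a' + b') * (a' + b') + a' →
      ¬ a + b < a' + b' := by
    intro a b a' b' h hlt
    obtain ⟨z, hz⟩ := (lt_iff_exists _ _).mp hlt
    have h1 : (a + b) * (a + b) + a < (a' + b') * (a' + b') + a' := by
      rw [← hz]
      have h3 : (a + b) * (a + b) + a + (b + a + b + 1 + z * (2 * (a + b) + z + 2) + a') =
          (a + b + (z + 1)) * (a + b + (z + 1)) + a' := by ring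
      rw [← h3]
      exact lt_of_lt_of_le (lt_succ_iff.mpr le_rfl) (by
        have : (a + b) * (a + b) + a + (b + a + b + 1 + z * (2 * (a + b) + z + 2) + a') =
          ((a + b) * (a + b) + a + 1) + (b + a + b + z * (2 * (a + b) + z + 2) + a') := by ring
        rw [this]
        exact le_self_add)
    exact absurd h h1.ne
  have h1 : a + b = a' + b' := le_antisymm (not_lt.mp (key h.symm)) (not_lt.mp (key h))
  rw [h1] at h
  have h2 := add_left_cancel h
  refine ⟨h2, ?_⟩
  rw [h2] at h1
  exact add_left_cancel h1

noncomputable def fst (c : M) : M := the (fun a => ∃ b, c = (a + b) * (a + b) + a)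
noncomputable def snd (c : M) : M := the (fun b => ∃ a, c = (a + b) * (a + b) + a)

lemma fst_pair (a b : M) : fst ((a + b) * (a + b) + a) = a :=
  the_eq (P := fun a' => ∃ b', (a + b) * (a + b) + a = (a' + b') * (a' + b') + a') ⟨b, rfl⟩
    (fun _ ⟨_, h⟩ => (pair_inj h).1.symm)

lemma snd_pair (a b : M) : snd ((a + b) * (a + b) + a) = b :=
  the_eq (P := fun b' => ∃ a', (a + b) * (a + b) + a = (a' + b') * (a' + b') + a') ⟨a, rfl⟩
    (fun _ ⟨_, h⟩ => (pair_inj h).2.symm)

theorem DefF.fst {f : (ℕ → M) → M} (hf : DefF f) : DefF (fun v => fst (f v)) := by
  have h : DefF (M := M) (fun v => Arith.fst (v 0)) := by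
    unfold Arith.fst
    (repeat' first
        | assumption
        | with_reducible exact DefF.var _
        | with_reducible exact DefF.const _
        | with_reducible exact Def.const _
        | with_reducible apply DefF.val
        | with_reducible apply DefF.pow2
        | with_reducible apply Def.mem
        | with_reducible apply DefF.cls
        | with_reducible apply DefF.cnt
        | with_reducible apply DefF.card
        | with_reducible apply DefF.ins
        | with_reducible apply DefF.un
        | with_reducible apply DefF.ico
        | with_reducible apply Def.and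
        | with_reducible apply Def.or
        | with_reducible apply Def.iff
        | with_reducible apply Def.not
        | with_reducible apply Def.ex
        | with_reducible apply Def.all
        | with_reducible apply Def.imp
        | with_reducible apply Def.eq
        | with_reducible apply Def.lt
        | with_reducible apply Def.le
        | with_reducible apply DefF.add
        | with_reducible apply DefF.mul
        | with_reducible apply DefF.the)
  exact DefF.app1 h hf

theorem DefF.snd {f : (ℕ → M) → M} (hf : DefF f) : DefF (fun v => snd (f v)) := by
  have h : DefF (M := M) (fun v => Arith.snd (v 0)) := by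
    unfold Arith.snd
    (repeat' first
        | assumption
        | with_reducible exact DefF.var _
        | with_reducible exact DefF.const _
        | with_reducible exact Def.const _
        | with_reducible apply DefF.val
        | with_reducible apply DefF.pow2
        | with_reducible apply Def.mem
        | with_reducible apply DefF.cls
        | with_reducible apply DefF.cnt
        | with_reducible apply DefF.card
        | with_reducible apply DefF.ins
        | with_reducible apply DefF.un
        | with_reducible apply DefF.ico
        | with_reducible apply Def.and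
        | with_reducible apply Def.or
        | with_reducible apply Def.iff
        | with_reducible apply Def.not
        | with_reducible apply Def.ex
        | with_reducible apply Def.all
        | with_reducible apply Def.imp
        | with_reducible apply Def.eq
        | with_reducible apply Def.lt
        | with_reducible apply Def.le
        | with_reducible apply DefF.add
        | with_reducible apply DefF.mul
        | with_reducible apply DefF.the)
  exact DefF.app1 h hf


/-- Application of the function coded by `c`. -/
noncomputable def ap (c i : M) : M := val (fst c) (snd c) i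

theorem DefF.ap {f g : (ℕ → M) → M} (hf : DefF f) (hg : DefF g) :
    DefF (fun v => ap (f v) (g v)) := by
  have h : DefF (M := M) (fun v => Arith.ap (v 0) (v 1)) := by
    unfold Arith.ap
    (repeat' first
        | assumption
        | with_reducible exact DefF.var _
        | with_reducible exact DefF.const _
        | with_reducible exact Def.const _
        | with_reducible apply DefF.val
        | with_reducible apply DefF.pow2
        | with_reducible apply Def.mem
        | with_reducible apply DefF.cls
        | with_reducible apply DefF.cnt
        | with_reducible apply DefF.card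
        | with_reducible apply DefF.ins
        | with_reducible apply DefF.un
        | with_reducible apply DefF.ico
        | with_reducible apply DefF.fst
        | with_reducible apply DefF.snd
        | with_reducible apply Def.and
        | with_reducible apply Def.or
        | with_reducible apply Def.iff
        | with_reducible apply Def.not
        | with_reducible apply Def.ex
        | with_reducible apply Def.all
        | with_reducible apply Def.imp
        | with_reducible apply Def.eq
        | with_reducible apply Def.lt
        | with_reducible apply Def.le
        | with_reducible apply DefF.add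
        | with_reducible apply DefF.mul
        | with_reducible apply DefF.the)
  exact DefF.app2 h hf hg


theorem exists_ap {f : M → M} (hf : DefF (fun v => f (v 0))) (n : M) :
    ∃ c, ∀ i < n, ap c i = f i := by
  obtain ⟨a, b, h⟩ := exists_val hf n
  refine ⟨(a + b) * (a + b) + a, fun i hi => ?_⟩
  rw [ap, fst_pair, snd_pair, h i hi]

/-- The image of a set under a coded function. -/
noncomputable def img (c u : M) : M := cls (fun y => ∃ i, Mem i u ∧ y = ap c i)

lemma mem_img {c u y : M} : Mem y (img c u) ↔ ∃ i, Mem i u ∧ y = ap c i := by
  obtain ⟨B, hB⟩ := exists_bound (f := fun i => ap c i) (by (repeat' first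
      | assumption
      | with_reducible exact DefF.var _
      | with_reducible exact DefF.const _
      | with_reducible exact Def.const _
      | with_reducible apply DefF.val
      | with_reducible apply DefF.pow2
      | with_reducible apply Def.mem
      | with_reducible apply DefF.cls
      | with_reducible apply DefF.cnt
      | with_reducible apply DefF.card
      | with_reducible apply DefF.ins
      | with_reducible apply DefF.un
      | with_reducible apply DefF.ico
      | with_reducible apply DefF.fst
      | with_reducible apply DefF.snd
      | with_reducible apply DefF.ap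
      | with_reducible apply Def.and
      | with_reducible apply Def.or
      | with_reducible apply Def.iff
      | with_reducible apply Def.not
      | with_reducible apply Def.ex
      | with_reducible apply Def.all
      | with_reducible apply Def.imp
      | with_reducible apply Def.eq
      | with_reducible apply Def.lt
      | with_reducible apply Def.le
      | with_reducible apply DefF.add
      | with_reducible apply DefF.mul
      | with_reducible apply DefF.the)) u
  refine mem_cls (P := fun y => ∃ i, Mem i u ∧ y = ap c i) ?_ B ?_ y
  · (repeat' first
      | assumption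
      | with_reducible exact DefF.var _
      | with_reducible exact DefF.const _
      | with_reducible exact Def.const _
      | with_reducible apply DefF.val
      | with_reducible apply DefF.pow2
      | with_reducible apply Def.mem
      | with_reducible apply DefF.cls
      | with_reducible apply DefF.cnt
      | with_reducible apply DefF.card
      | with_reducible apply DefF.ins
      | with_reducible apply DefF.un
      | with_reducible apply DefF.ico
      | with_reducible apply DefF.fst
      | with_reducible apply DefF.snd
      | with_reducible apply DefF.ap
      | with_reducible apply Def.and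
      | with_reducible apply Def.or
      | with_reducible apply Def.iff
      | with_reducible apply Def.not
      | with_reducible apply Def.ex
      | with_reducible apply Def.all
      | with_reducible apply Def.imp
      | with_reducible apply Def.eq
      | with_reducible apply Def.lt
      | with_reducible apply Def.le
      | with_reducible apply DefF.add
      | with_reducible apply DefF.mul
      | with_reducible apply DefF.the)
  · rintro y ⟨i, hi, rfl⟩
    exact hB i hi.lt

theorem DefF.img {f g : (ℕ → M) → M} (hf : DefF f) (hg : DefF g) :
    DefF (fun v => img (f v) (g v)) := by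
  have h : DefF (M := M) (fun v => Arith.img (v 0) (v 1)) := by
    unfold Arith.img
    (repeat' first
        | assumption
        | with_reducible exact DefF.var _
        | with_reducible exact DefF.const _
        | with_reducible exact Def.const _
        | with_reducible apply DefF.val
        | with_reducible apply DefF.pow2
        | with_reducible apply Def.mem
        | with_reducible apply DefF.cls
        | with_reducible apply DefF.cnt
        | with_reducible apply DefF.card
        | with_reducible apply DefF.ins
        | with_reducible apply DefF.un
        | with_reducible apply DefF.ico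
        | with_reducible apply DefF.fst
        | with_reducible apply DefF.snd
        | with_reducible apply DefF.ap
        | with_reducible apply Def.and
        | with_reducible apply Def.or
        | with_reducible apply Def.iff
        | with_reducible apply Def.not
        | with_reducible apply Def.ex
        | with_reducible apply Def.all
        | with_reducible apply Def.imp
        | with_reducible apply Def.eq
        | with_reducible apply Def.lt
        | with_reducible apply Def.le
        | with_reducible apply DefF.add
        | with_reducible apply DefF.mul
        | with_reducible apply DefF.the)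
  exact DefF.app2 h hf hg


lemma img_ins (c x u : M) : img c (ins x u) = ins (ap c x) (img c u) := by
  apply mem_ext
  intro y
  simp only [mem_img, mem_ins]
  constructor
  · rintro ⟨i, h | rfl, rfl⟩
    · exact Or.inl ⟨i, h, rfl⟩
    · exact Or.inr rfl
  · rintro (⟨i, h, rfl⟩ | rfl)
    · exact ⟨i, Or.inl h, rfl⟩
    · exact ⟨x, Or.inr rfl, rfl⟩

lemma card_img {c u : M} (h : ∀ i j, Mem i u → Mem j u → ap c i = ap c j → i = j) :
    card (img c u) = card u := by
  revert h
  refine set_ind (P := fun u => (∀ i j, Mem i u → Mem j u → ap c i = ap c j → i = j) →
    card (img c u) = card u) ?_ ?_ ?_ u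
  · (repeat' first
      | assumption
      | with_reducible exact DefF.var _
      | with_reducible exact DefF.const _
      | with_reducible exact Def.const _
      | with_reducible apply DefF.val
      | with_reducible apply DefF.pow2
      | with_reducible apply Def.mem
      | with_reducible apply DefF.cls
      | with_reducible apply DefF.cnt
      | with_reducible apply DefF.card
      | with_reducible apply DefF.ins
      | with_reducible apply DefF.un
      | with_reducible apply DefF.ico
      | with_reducible apply DefF.fst
      | with_reducible apply DefF.snd
      | with_reducible apply DefF.ap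
      | with_reducible apply DefF.img
      | with_reducible apply Def.and
      | with_reducible apply Def.or
      | with_reducible apply Def.iff
      | with_reducible apply Def.not
      | with_reducible apply Def.ex
      | with_reducible apply Def.all
      | with_reducible apply Def.imp
      | with_reducible apply Def.eq
      | with_reducible apply Def.lt
      | with_reducible apply Def.le
      | with_reducible apply DefF.add
      | with_reducible apply DefF.mul
      | with_reducible apply DefF.the)
  · intro _
    have : img c 0 = 0 := mem_ext (fun x => by simp [mem_img, not_mem_zero])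
    rw [this]
  · intro x u hx ih h
    have hxu : ¬ Mem x u := fun h1 => lt_irrefl x (hx x h1)
    rw [img_ins, card_ins, card_ins hxu, ih]
    · intro i j hi hj
      exact h i j (mem_ins.mpr (Or.inl hi)) (mem_ins.mpr (Or.inl hj))
    · rw [mem_img]
      rintro ⟨i, hi, hi'⟩
      have := h x i (mem_ins.mpr (Or.inr rfl)) (mem_ins.mpr (Or.inl hi)) hi'
      exact hxu (this ▸ hi)

/-! ### The finite Ramsey theorem inside the model -/

/-- `c` codes a strictly increasing map from `[0, a + m)` to `[0, a + N)` which is the identity
on `[0, a)`. -/
def Emb (a m N c : M) : Prop :=
  (∀ i, i < a → ap c i = i) ∧ (∀ i, a ≤ i → i < a + m → a ≤ ap c i ∧ ap c i < a + N) ∧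
  ∀ i j, i < j → j < a + m → ap c i < ap c j

theorem Def.emb {f g k l : (ℕ → M) → M} (hf : DefF f) (hg : DefF g) (hk : DefF k)
    (hl : DefF l) : Def (fun v => Emb (f v) (g v) (k v) (l v)) := by
  have h : Def (M := M) (fun v => Emb (v 0) (v 1) (v 2) (v 3)) := by
    unfold Emb
    (repeat' first
        | assumption
        | with_reducible exact DefF.var _
        | with_reducible exact DefF.const _
        | with_reducible exact Def.const _
        | with_reducible apply DefF.val
        | with_reducible apply DefF.pow2
        | with_reducible apply Def.mem
        | with_reducible apply DefF.cls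
        | with_reducible apply DefF.cnt
        | with_reducible apply DefF.card
        | with_reducible apply DefF.ins
        | with_reducible apply DefF.un
        | with_reducible apply DefF.ico
        | with_reducible apply DefF.fst
        | with_reducible apply DefF.snd
        | with_reducible apply DefF.ap
        | with_reducible apply DefF.img
        | with_reducible apply Def.and
        | with_reducible apply Def.or
        | with_reducible apply Def.iff
        | with_reducible apply Def.not
        | with_reducible apply Def.ex
        | with_reducible apply Def.all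
        | with_reducible apply Def.imp
        | with_reducible apply Def.eq
        | with_reducible apply Def.lt
        | with_reducible apply Def.le
        | with_reducible apply DefF.add
        | with_reducible apply DefF.mul
        | with_reducible apply DefF.the)
  exact Def.sub4 h hf hg hk hl


lemma Emb.lt {a m N c : M} (h : Emb a m N c) {i : M} (hi : i < a + m) : ap c i < a + N := by
  rcases lt_or_ge i a with h1 | h1
  · rw [h.1 i h1]
    exact lt_of_lt_of_le h1 le_self_add
  · exact (h.2.1 i h1 hi).2

lemma Emb.mono {a m N N' c : M} (h : Emb a m N c) (hN : N ≤ N') : Emb a m N' c := by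
  refine ⟨h.1, fun i h1 h2 => ?_, h.2.2⟩
  obtain ⟨h3, h4⟩ := h.2.1 i h1 h2
  exact ⟨h3, lt_of_lt_of_le h4 (by gcongr)⟩

lemma Emb.inj {a m N c : M} (h : Emb a m N c) {i j : M} (hi : i < a + m) (hj : j < a + m)
    (hij : ap c i = ap c j) : i = j := by
  rcases lt_trichotomy i j with h1 | h1 | h1
  · exact absurd hij (h.2.2 i j h1 hj).ne
  · exact h1
  · exact absurd hij (h.2.2 j i h1 hi).ne'

lemma exists_id (a m : M) : ∃ c, Emb a m m c := by
  obtain ⟨c, hc⟩ := exists_ap (f := fun i : M => i) (DefF.var 0) (a + m)
  refine ⟨c, fun i hi => hc i (lt_of_lt_of_le hi le_self_add), fun i h1 h2 => ?_,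
    fun i j h1 h2 => ?_⟩
  · rw [hc i h2]
    exact ⟨h1, h2⟩
  · rw [hc i (h1.trans h2), hc j h2]
    exact h1

lemma Emb.comp {a m K N c d : M} (hc : Emb a K N c) (hd : Emb a m K d) :
    ∃ e, Emb a m N e ∧ ∀ i, i < a + m → ap e i = ap c (ap d i) := by
  obtain ⟨e, he⟩ := exists_ap (f := fun i : M => ap c (ap d i)) (by (repeat' first
      | assumption
      | with_reducible exact DefF.var _
      | with_reducible exact DefF.const _
      | with_reducible exact Def.const _
      | with_reducible apply DefF.val
      | with_reducible apply DefF.pow2
      | with_reducible apply Def.mem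
      | with_reducible apply DefF.cls
      | with_reducible apply DefF.cnt
      | with_reducible apply DefF.card
      | with_reducible apply DefF.ins
      | with_reducible apply DefF.un
      | with_reducible apply DefF.ico
      | with_reducible apply DefF.fst
      | with_reducible apply DefF.snd
      | with_reducible apply DefF.ap
      | with_reducible apply DefF.img
      | with_reducible apply Def.emb
      | with_reducible apply Def.and
      | with_reducible apply Def.or
      | with_reducible apply Def.iff
      | with_reducible apply Def.not
      | with_reducible apply Def.ex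
      | with_reducible apply Def.all
      | with_reducible apply Def.imp
      | with_reducible apply Def.eq
      | with_reducible apply Def.lt
      | with_reducible apply Def.le
      | with_reducible apply DefF.add
      | with_reducible apply DefF.mul
      | with_reducible apply DefF.the)) (a + m)
  refine ⟨e, ⟨fun i hi => ?_, fun i h1 h2 => ?_, fun i j h1 h2 => ?_⟩, he⟩
  · rw [he i (lt_of_lt_of_le hi le_self_add), hd.1 i hi, hc.1 i hi]
  · rw [he i h2]
    obtain ⟨h3, h4⟩ := hd.2.1 i h1 h2
    exact hc.2.1 _ h3 h4
  · rw [he i (h1.trans h2), he j h2]
    exact hc.2.2 _ _ (hd.2.2 i j h1 h2) (hd.lt h2)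

lemma Emb.extend {a m n c : M} (hc : Emb a m n c) :
    ∃ d, Emb a (m + 1) (n + 1) d ∧ (∀ i, i < a + m → ap d i = ap c i) ∧
      ap d (a + m) = a + n := by
  obtain ⟨d, hd⟩ := exists_ap (f := fun x : M => the (fun z => (x < a + m ∧ z = ap c x) ∨
    (¬ x < a + m ∧ z = a + n))) (by (repeat' first
        | assumption
        | with_reducible exact DefF.var _
        | with_reducible exact DefF.const _
        | with_reducible exact Def.const _
        | with_reducible apply DefF.val
        | with_reducible apply DefF.pow2
        | with_reducible apply Def.mem
        | with_reducible apply DefF.cls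
        | with_reducible apply DefF.cnt
        | with_reducible apply DefF.card
        | with_reducible apply DefF.ins
        | with_reducible apply DefF.un
        | with_reducible apply DefF.ico
        | with_reducible apply DefF.fst
        | with_reducible apply DefF.snd
        | with_reducible apply DefF.ap
        | with_reducible apply DefF.img
        | with_reducible apply Def.emb
        | with_reducible apply Def.and
        | with_reducible apply Def.or
        | with_reducible apply Def.iff
        | with_reducible apply Def.not
        | with_reducible apply Def.ex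
        | with_reducible apply Def.all
        | with_reducible apply Def.imp
        | with_reducible apply Def.eq
        | with_reducible apply Def.lt
        | with_reducible apply Def.le
        | with_reducible apply DefF.add
        | with_reducible apply DefF.mul
        | with_reducible apply DefF.the)) (a + m + 1)
  have e1 : ∀ i, i < a + m → ap d i = ap c i := by
    intro i hi
    rw [hd i (hi.trans (lt_succ_iff.mpr le_rfl))]
    apply the_eq (P := fun z => (i < a + m ∧ z = ap c i) ∨ (¬ i < a + m ∧ z = a + n))
      (Or.inl ⟨hi, rfl⟩)
    rintro y (⟨_, hy⟩ | ⟨hy, _⟩)
    · exact hy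
    · exact absurd hi hy
  have e2 : ap d (a + m) = a + n := by
    rw [hd (a + m) (lt_succ_iff.mpr le_rfl)]
    apply the_eq (P := fun z => (a + m < a + m ∧ z = ap c (a + m)) ∨
      (¬ a + m < a + m ∧ z = a + n)) (Or.inr ⟨lt_irrefl _, rfl⟩)
    rintro y (⟨hy, _⟩ | ⟨_, hy⟩)
    · exact absurd hy (lt_irrefl _)
    · exact hy
  refine ⟨d, ⟨fun i hi => ?_, fun i h1 h2 => ?_, fun i j h1 h2 => ?_⟩, e1, e2⟩
  · rw [e1 i (lt_of_lt_of_le hi le_self_add), hc.1 i hi]
  · rw [← add_assoc] at h2 ⊢
    rcases lt_succ_iff'.mp h2 with h3 | h3
    · rw [e1 i h3]
      obtain ⟨h4, h5⟩ := hc.2.1 i h1 h3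
      exact ⟨h4, h5.trans (lt_succ_iff.mpr le_rfl)⟩
    · rw [h3, e2]
      exact ⟨le_self_add, lt_succ_iff.mpr le_rfl⟩
  · rw [← add_assoc] at h2
    rcases lt_succ_iff'.mp h2 with h3 | h3
    · rw [e1 i (h1.trans h3), e1 j h3]
      exact hc.2.2 i j h1 h3
    · rw [h3] at h1 ⊢
      rw [e1 i h1, e2]
      exact hc.lt h1

/-- Every set is large on one of the two sides. -/
lemma halving (a n : M) : ∀ i j, i + j = n → ∀ X,
    (∃ c, Emb a i n c ∧ ∀ x, a ≤ x → x < a + i → Mem (ap c x) X) ∨
    (∃ c, Emb a j n c ∧ ∀ x, a ≤ x → x < a + j → ¬ Mem (ap c x) X) := by
  have hempty : ∀ n X : M, ∃ c, Emb a 0 n c ∧ ∀ x, a ≤ x → x < a + 0 → Mem (ap c x) X := by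
    intro n X
    obtain ⟨c, hc⟩ := exists_id a 0
    refine ⟨c, hc.mono zero_le, fun x h1 h2 => ?_⟩
    rw [add_zero] at h2
    exact absurd h1 (not_le.mpr h2)
  have hempty' : ∀ n X : M, ∃ c, Emb a 0 n c ∧ ∀ x, a ≤ x → x < a + 0 → ¬ Mem (ap c x) X := by
    intro n X
    obtain ⟨c, hc⟩ := exists_id a 0
    refine ⟨c, hc.mono zero_le, fun x h1 h2 => ?_⟩
    rw [add_zero] at h2
    exact absurd h1 (not_le.mpr h2)
  refine ind (P := fun n => ∀ i j, i + j = n → ∀ X,
    (∃ c, Emb a i n c ∧ ∀ x, a ≤ x → x < a + i → Mem (ap c x) X) ∨
    (∃ c, Emb a j n c ∧ ∀ x, a ≤ x → x < a + j → ¬ Mem (ap c x) X)) ?_ ?_ ?_ n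
  · (repeat' first
      | assumption
      | with_reducible exact DefF.var _
      | with_reducible exact DefF.const _
      | with_reducible exact Def.const _
      | with_reducible apply DefF.val
      | with_reducible apply DefF.pow2
      | with_reducible apply Def.mem
      | with_reducible apply DefF.cls
      | with_reducible apply DefF.cnt
      | with_reducible apply DefF.card
      | with_reducible apply DefF.ins
      | with_reducible apply DefF.un
      | with_reducible apply DefF.ico
      | with_reducible apply DefF.fst
      | with_reducible apply DefF.snd
      | with_reducible apply DefF.ap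
      | with_reducible apply DefF.img
      | with_reducible apply Def.emb
      | with_reducible apply Def.and
      | with_reducible apply Def.or
      | with_reducible apply Def.iff
      | with_reducible apply Def.not
      | with_reducible apply Def.ex
      | with_reducible apply Def.all
      | with_reducible apply Def.imp
      | with_reducible apply Def.eq
      | with_reducible apply Def.lt
      | with_reducible apply Def.le
      | with_reducible apply DefF.add
      | with_reducible apply DefF.mul
      | with_reducible apply DefF.the)
  · intro i j hij X
    have hi : i = 0 := (add_eq_zero.mp hij).1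
    subst hi
    exact Or.inl (hempty _ _)
  · intro n ih i j hij X
    by_cases hi : i = 0
    · subst hi
      exact Or.inl (hempty _ _)
    by_cases hj : j = 0
    · subst hj
      exact Or.inr (hempty' _ _)
    obtain ⟨i', rfl⟩ := exists_pred (pos_of_ne hi)
    obtain ⟨j', rfl⟩ := exists_pred (pos_of_ne hj)
    have h1 : i' + (j' + 1) = n := by
      have : i' + (j' + 1) + 1 = n + 1 := by rw [← hij]; ring
      exact add_right_cancel this
    have h2 : (i' + 1) + j' = n := by rw [← h1]; ring
    by_cases hX : Mem (a + n) X
    · rcases ih _ _ h1 X with ⟨c, hc, hm⟩ | ⟨c, hc, hm⟩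
      · left
        obtain ⟨d, hd, e1, e2⟩ := hc.extend
        refine ⟨d, hd, fun x h3 h4 => ?_⟩
        rw [← add_assoc] at h4
        rcases lt_succ_iff'.mp h4 with h5 | h5
        · rw [e1 x h5]
          exact hm x h3 h5
        · rw [h5, e2]
          exact hX
      · right
        exact ⟨c, hc.mono le_self_add, hm⟩
    · rcases ih _ _ h2 X with ⟨c, hc, hm⟩ | ⟨c, hc, hm⟩
      · left
        exact ⟨c, hc.mono le_self_add, hm⟩
      · right
        obtain ⟨d, hd, e1, e2⟩ := hc.extend
        refine ⟨d, hd, fun x h3 h4 => ?_⟩
        rw [← add_assoc] at h4
        rcases lt_succ_iff'.mp h4 with h5 | h5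
        · rw [e1 x h5]
          exact hm x h3 h5
        · rw [h5, e2]
          exact hX

lemma refinement (w : M) : ∀ a K, ∃ N, ∀ F, ∃ c, Emb a K N c ∧ ∀ u, u < w →
    (∀ y, Mem y u → y < a) → ∀ x x', a ≤ x → x < a + K → a ≤ x' → x' < a + K →
      (Mem (ins (ap c x) u) F ↔ Mem (ins (ap c x') u) F) := by
  refine ind (P := fun w => ∀ a K, ∃ N, ∀ F, ∃ c, Emb a K N c ∧ ∀ u, u < w →
    (∀ y, Mem y u → y < a) → ∀ x x', a ≤ x → x < a + K → a ≤ x' → x' < a + K →
      (Mem (ins (ap c x) u) F ↔ Mem (ins (ap c x') u) F)) ?_ ?_ ?_ w
  · (repeat' first
      | assumption
      | with_reducible exact DefF.var _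
      | with_reducible exact DefF.const _
      | with_reducible exact Def.const _
      | with_reducible apply DefF.val
      | with_reducible apply DefF.pow2
      | with_reducible apply Def.mem
      | with_reducible apply DefF.cls
      | with_reducible apply DefF.cnt
      | with_reducible apply DefF.card
      | with_reducible apply DefF.ins
      | with_reducible apply DefF.un
      | with_reducible apply DefF.ico
      | with_reducible apply DefF.fst
      | with_reducible apply DefF.snd
      | with_reducible apply DefF.ap
      | with_reducible apply DefF.img
      | with_reducible apply Def.emb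
      | with_reducible apply Def.and
      | with_reducible apply Def.or
      | with_reducible apply Def.iff
      | with_reducible apply Def.not
      | with_reducible apply Def.ex
      | with_reducible apply Def.all
      | with_reducible apply Def.imp
      | with_reducible apply Def.eq
      | with_reducible apply Def.lt
      | with_reducible apply Def.le
      | with_reducible apply DefF.add
      | with_reducible apply DefF.mul
      | with_reducible apply DefF.the)
  · intro a K
    refine ⟨K, fun F => ?_⟩
    obtain ⟨c, hc⟩ := exists_id a K
    exact ⟨c, hc, fun u hu => absurd hu (not_lt.mpr zero_le)⟩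
  · intro w ih a K
    obtain ⟨N, hN⟩ := ih a (K + K)
    refine ⟨N, fun F => ?_⟩
    obtain ⟨c, hc, hcF⟩ := hN F
    have hdef : Def (fun v : ℕ → M => v 0 < a + (K + K) ∧ Mem (ins (ap c (v 0)) w) F) := by (repeat' first
        | assumption
        | with_reducible exact DefF.var _
        | with_reducible exact DefF.const _
        | with_reducible exact Def.const _
        | with_reducible apply DefF.val
        | with_reducible apply DefF.pow2
        | with_reducible apply Def.mem
        | with_reducible apply DefF.cls
        | with_reducible apply DefF.cnt
        | with_reducible apply DefF.card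
        | with_reducible apply DefF.ins
        | with_reducible apply DefF.un
        | with_reducible apply DefF.ico
        | with_reducible apply DefF.fst
        | with_reducible apply DefF.snd
        | with_reducible apply DefF.ap
        | with_reducible apply DefF.img
        | with_reducible apply Def.emb
        | with_reducible apply Def.and
        | with_reducible apply Def.or
        | with_reducible apply Def.iff
        | with_reducible apply Def.not
        | with_reducible apply Def.ex
        | with_reducible apply Def.all
        | with_reducible apply Def.imp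
        | with_reducible apply Def.eq
        | with_reducible apply Def.lt
        | with_reducible apply Def.le
        | with_reducible apply DefF.add
        | with_reducible apply DefF.mul
        | with_reducible apply DefF.the)
    have hX := mem_cls (P := fun x => x < a + (K + K) ∧ Mem (ins (ap c x) w) F) hdef
      (a + (K + K)) (fun x hx => hx.1)
    obtain ⟨d, hd, hdX⟩ : ∃ d, Emb a K (K + K) d ∧ ∀ x x', a ≤ x → x < a + K → a ≤ x' →
        x' < a + K → (Mem (ins (ap c (ap d x)) w) F ↔ Mem (ins (ap c (ap d x')) w) F) := by
      rcases halving a (K + K) K K rfl (cls (fun x => x < a + (K + K) ∧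
        Mem (ins (ap c x) w) F)) with ⟨d, hd, h⟩ | ⟨d, hd, h⟩
      · refine ⟨d, hd, fun x x' h1 h2 h3 h4 => ?_⟩
        have e1 := (hX _).mp (h x h1 h2)
        have e2 := (hX _).mp (h x' h3 h4)
        exact ⟨fun _ => e2.2, fun _ => e1.2⟩
      · refine ⟨d, hd, fun x x' h1 h2 h3 h4 => ?_⟩
        have e1 := h x h1 h2
        have e2 := h x' h3 h4
        rw [hX] at e1 e2
        exact ⟨fun h5 => absurd ⟨hd.lt h2, h5⟩ e1, fun h5 => absurd ⟨hd.lt h4, h5⟩ e2⟩
    obtain ⟨e, he, hee⟩ := hc.comp hd
    refine ⟨e, he, fun u hu hua x x' h1 h2 h3 h4 => ?_⟩
    rw [hee x h2, hee x' h4]
    rcases lt_succ_iff'.mp hu with h5 | h5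
    · exact hcF u h5 hua _ _ (hd.2.1 x h1 h2).1 (hd.2.1 x h1 h2).2 (hd.2.1 x' h3 h4).1
        (hd.2.1 x' h3 h4).2
    · rw [h5]
      exact hdX x x' h1 h2 h3 h4

/-- The colour of `u ∪ {x}`, for `u` below `a`, does not depend on `x` in `[a, a + N)`. -/
def Good (a N F : M) : Prop := ∀ u x x', (∀ y, Mem y u → y < a) → a ≤ x → x < a + N → a ≤ x' →
  x' < a + N → (Mem (ins x u) F ↔ Mem (ins x' u) F)

theorem Def.good {f g k : (ℕ → M) → M} (hf : DefF f) (hg : DefF g) (hk : DefF k) :
    Def (fun v => Good (f v) (g v) (k v)) := by
  have h : Def (M := M) (fun v => Good (v 0) (v 1) (v 2)) := by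
    unfold Good
    (repeat' first
        | assumption
        | with_reducible exact DefF.var _
        | with_reducible exact DefF.const _
        | with_reducible exact Def.const _
        | with_reducible apply DefF.val
        | with_reducible apply DefF.pow2
        | with_reducible apply Def.mem
        | with_reducible apply DefF.cls
        | with_reducible apply DefF.cnt
        | with_reducible apply DefF.card
        | with_reducible apply DefF.ins
        | with_reducible apply DefF.un
        | with_reducible apply DefF.ico
        | with_reducible apply DefF.fst
        | with_reducible apply DefF.snd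
        | with_reducible apply DefF.ap
        | with_reducible apply DefF.img
        | with_reducible apply Def.emb
        | with_reducible apply Def.and
        | with_reducible apply Def.or
        | with_reducible apply Def.iff
        | with_reducible apply Def.not
        | with_reducible apply Def.ex
        | with_reducible apply Def.all
        | with_reducible apply Def.imp
        | with_reducible apply Def.eq
        | with_reducible apply Def.lt
        | with_reducible apply Def.le
        | with_reducible apply DefF.add
        | with_reducible apply DefF.mul
        | with_reducible apply DefF.the)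
  exact Def.sub3 h hf hg hk


/-- The colouring of the subsets of `[0, n)` induced by the colouring `F` and the map `c`. -/
noncomputable def pull (c n F : M) : M := cls (fun u => u < pow2 n ∧ Mem (img c u) F)

lemma mem_pull {c n F u : M} : Mem u (pull c n F) ↔ u < pow2 n ∧ Mem (img c u) F := by
  refine mem_cls (P := fun u => u < pow2 n ∧ Mem (img c u) F) ?_ (pow2 n) (fun x hx => hx.1) u
  (repeat' first
      | assumption
      | with_reducible exact DefF.var _
      | with_reducible exact DefF.const _
      | with_reducible exact Def.const _
      | with_reducible apply DefF.val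
      | with_reducible apply DefF.pow2
      | with_reducible apply Def.mem
      | with_reducible apply DefF.cls
      | with_reducible apply DefF.cnt
      | with_reducible apply DefF.card
      | with_reducible apply DefF.ins
      | with_reducible apply DefF.un
      | with_reducible apply DefF.ico
      | with_reducible apply DefF.fst
      | with_reducible apply DefF.snd
      | with_reducible apply DefF.ap
      | with_reducible apply DefF.img
      | with_reducible apply Def.emb
      | with_reducible apply Def.good
      | with_reducible apply Def.and
      | with_reducible apply Def.or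
      | with_reducible apply Def.iff
      | with_reducible apply Def.not
      | with_reducible apply Def.ex
      | with_reducible apply Def.all
      | with_reducible apply Def.imp
      | with_reducible apply Def.eq
      | with_reducible apply Def.lt
      | with_reducible apply Def.le
      | with_reducible apply DefF.add
      | with_reducible apply DefF.mul
      | with_reducible apply DefF.the)

theorem DefF.pull {f g k : (ℕ → M) → M} (hf : DefF f) (hg : DefF g) (hk : DefF k) :
    DefF (fun v => pull (f v) (g v) (k v)) := by
  have h : DefF (M := M) (fun v => Arith.pull (v 0) (v 1) (v 2)) := by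
    unfold Arith.pull
    (repeat' first
        | assumption
        | with_reducible exact DefF.var _
        | with_reducible exact DefF.const _
        | with_reducible exact Def.const _
        | with_reducible apply DefF.val
        | with_reducible apply DefF.pow2
        | with_reducible apply Def.mem
        | with_reducible apply DefF.cls
        | with_reducible apply DefF.cnt
        | with_reducible apply DefF.card
        | with_reducible apply DefF.ins
        | with_reducible apply DefF.un
        | with_reducible apply DefF.ico
        | with_reducible apply DefF.fst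
        | with_reducible apply DefF.snd
        | with_reducible apply DefF.ap
        | with_reducible apply DefF.img
        | with_reducible apply Def.emb
        | with_reducible apply Def.good
        | with_reducible apply Def.and
        | with_reducible apply Def.or
        | with_reducible apply Def.iff
        | with_reducible apply Def.not
        | with_reducible apply Def.ex
        | with_reducible apply Def.all
        | with_reducible apply Def.imp
        | with_reducible apply Def.eq
        | with_reducible apply Def.lt
        | with_reducible apply Def.le
        | with_reducible apply DefF.add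
        | with_reducible apply DefF.mul
        | with_reducible apply DefF.the)
  exact DefF.app3 h hf hg hk


lemma mem_pull_of_forall {c n F u : M} (h : ∀ y, Mem y u → y < n) :
    Mem u (pull c n F) ↔ Mem (img c u) F := by
  rw [mem_pull]
  exact ⟨fun h1 => h1.2, fun h1 => ⟨lt_pow2_of_forall h, h1⟩⟩

lemma img_eq_self {c u : M} (h : ∀ y, Mem y u → ap c y = y) : img c u = u := by
  apply mem_ext
  intro y
  rw [mem_img]
  constructor
  · rintro ⟨i, hi, rfl⟩
    rw [h i hi]
    exact hi
  · intro hy
    exact ⟨y, hy, (h y hy).symm⟩

lemma img_comp {c d e u : M} (h : ∀ y, Mem y u → ap e y = ap c (ap d y)) :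
    img e u = img c (img d u) := by
  apply mem_ext
  intro y
  simp only [mem_img]
  constructor
  · rintro ⟨i, hi, rfl⟩
    exact ⟨ap d i, ⟨i, hi, rfl⟩, h i hi⟩
  · rintro ⟨_, ⟨i, hi, rfl⟩, rfl⟩
    exact ⟨i, hi, (h i hi).symm⟩

lemma Emb.img_lt {a m N c u : M} (h : Emb a m N c) (hu : ∀ y, Mem y u → y < a + m) :
    ∀ y, Mem y (img c u) → y < a + N := by
  intro y hy
  rw [mem_img] at hy
  obtain ⟨i, hi, rfl⟩ := hy
  exact h.lt (hu i hi)

lemma exists_good (a K : M) : ∃ N, ∀ F, ∃ c, Emb a K N c ∧ Good a K (pull c (a + K) F) := by
  obtain ⟨N, hN⟩ := refinement (pow2 a) a K
  refine ⟨N, fun F => ?_⟩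
  obtain ⟨c, hc, h⟩ := hN F
  refine ⟨c, hc, fun u x x' hu h1 h2 h3 h4 => ?_⟩
  have key : ∀ x, x < a + K → (Mem (ins x u) (pull c (a + K) F) ↔ Mem (ins (ap c x) u) F) := by
    intro x hx
    rw [mem_pull_of_forall, img_ins, img_eq_self]
    · intro y hy
      exact hc.1 y (hu y hy)
    · intro y hy
      rcases mem_ins.mp hy with h5 | rfl
      · exact lt_of_lt_of_le (hu y h5) le_self_add
      · exact hx
  rw [key x h2, key x' h4]
  exact h u (lt_pow2_of_forall hu) hu x x' h1 h2 h3 h4

/-- The colour of `c[u ∪ {x}]`, for `x` in `[a, a + m)` above `u`, does not depend on `x`. -/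
def EHom (a m F c : M) : Prop := ∀ u x x', (∀ y, Mem y u → y < x ∧ y < x') → a ≤ x → x < a + m →
  a ≤ x' → x' < a + m → (Mem (img c (ins x u)) F ↔ Mem (img c (ins x' u)) F)

theorem Def.ehom {f g k l : (ℕ → M) → M} (hf : DefF f) (hg : DefF g) (hk : DefF k)
    (hl : DefF l) : Def (fun v => EHom (f v) (g v) (k v) (l v)) := by
  have h : Def (M := M) (fun v => EHom (v 0) (v 1) (v 2) (v 3)) := by
    unfold EHom
    (repeat' first
        | assumption
        | with_reducible exact DefF.var _
        | with_reducible exact DefF.const _
        | with_reducible exact Def.const _
        | with_reducible apply DefF.val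
        | with_reducible apply DefF.pow2
        | with_reducible apply Def.mem
        | with_reducible apply DefF.cls
        | with_reducible apply DefF.cnt
        | with_reducible apply DefF.card
        | with_reducible apply DefF.ins
        | with_reducible apply DefF.un
        | with_reducible apply DefF.ico
        | with_reducible apply DefF.fst
        | with_reducible apply DefF.snd
        | with_reducible apply DefF.ap
        | with_reducible apply DefF.img
        | with_reducible apply Def.emb
        | with_reducible apply Def.good
        | with_reducible apply DefF.pull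
        | with_reducible apply Def.and
        | with_reducible apply Def.or
        | with_reducible apply Def.iff
        | with_reducible apply Def.not
        | with_reducible apply Def.ex
        | with_reducible apply Def.all
        | with_reducible apply Def.imp
        | with_reducible apply Def.eq
        | with_reducible apply Def.lt
        | with_reducible apply Def.le
        | with_reducible apply DefF.add
        | with_reducible apply DefF.mul
        | with_reducible apply DefF.the)
  exact Def.sub4 h hf hg hk hl


lemma end_homogeneous (m : M) : ∀ a, ∃ N, ∀ F, Good a N F → ∃ c, Emb a m N c ∧ EHom a m F c := by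
  refine ind (P := fun m => ∀ a, ∃ N, ∀ F, Good a N F → ∃ c, Emb a m N c ∧ EHom a m F c)
    ?_ ?_ ?_ m
  · (repeat' first
      | assumption
      | with_reducible exact DefF.var _
      | with_reducible exact DefF.const _
      | with_reducible exact Def.const _
      | with_reducible apply DefF.val
      | with_reducible apply DefF.pow2
      | with_reducible apply Def.mem
      | with_reducible apply DefF.cls
      | with_reducible apply DefF.cnt
      | with_reducible apply DefF.card
      | with_reducible apply DefF.ins
      | with_reducible apply DefF.un
      | with_reducible apply DefF.ico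
      | with_reducible apply DefF.fst
      | with_reducible apply DefF.snd
      | with_reducible apply DefF.ap
      | with_reducible apply DefF.img
      | with_reducible apply Def.emb
      | with_reducible apply Def.good
      | with_reducible apply DefF.pull
      | with_reducible apply Def.ehom
      | with_reducible apply Def.and
      | with_reducible apply Def.or
      | with_reducible apply Def.iff
      | with_reducible apply Def.not
      | with_reducible apply Def.ex
      | with_reducible apply Def.all
      | with_reducible apply Def.imp
      | with_reducible apply Def.eq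
      | with_reducible apply Def.lt
      | with_reducible apply Def.le
      | with_reducible apply DefF.add
      | with_reducible apply DefF.mul
      | with_reducible apply DefF.the)
  · intro a
    refine ⟨0, fun F _ => ?_⟩
    obtain ⟨c, hc⟩ := exists_id a 0
    refine ⟨c, hc, fun u x x' _ h1 h2 => ?_⟩
    rw [add_zero] at h2
    exact absurd h1 (not_le.mpr h2)
  · intro m ih a
    obtain ⟨N1, h1⟩ := ih (a + 1)
    obtain ⟨N2, h2⟩ := exists_good (a + 1) N1
    refine ⟨N2 + 1, fun F hF => ?_⟩
    obtain ⟨c1, hc1, hg1⟩ := h2 F
    obtain ⟨c2, hc2, he2⟩ := h1 _ hg1
    obtain ⟨c, hc, hcc⟩ := hc1.comp hc2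
    have hsum : a + (m + 1) = a + 1 + m := by ring
    have hsum' : a + (N2 + 1) = a + 1 + N2 := by ring
    have hemb : Emb a (m + 1) (N2 + 1) c := by
      refine ⟨fun i hi => hc.1 i (hi.trans (lt_succ_iff.mpr le_rfl)), fun i h3 h4 => ?_, ?_⟩
      · rw [hsum] at h4
        rw [hsum']
        rcases h3.lt_or_eq with h5 | h5
        · have := hc.2.1 i (succ_le_iff.mpr h5) h4
          exact ⟨le_self_add.trans this.1, this.2⟩
        · rw [← h5, hc.1 a (lt_succ_iff.mpr le_rfl)]
          exact ⟨le_rfl, lt_of_lt_of_le (lt_succ_iff.mpr le_rfl) le_self_add⟩
      · rw [hsum]
        exact hc.2.2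
    refine ⟨c, hemb, fun u x x' hu h3 h4 h5 h6 => ?_⟩
    by_cases hx : x = a ∨ x' = a
    · have hua : ∀ y, Mem y u → y < a := by
        intro y hy
        rcases hx with h7 | h7
        · rw [← h7]; exact (hu y hy).1
        · rw [← h7]; exact (hu y hy).2
      have hfix : img c u = u := img_eq_self (fun y hy => hemb.1 y (hua y hy))
      rw [img_ins, img_ins, hfix]
      exact hF u _ _ hua (hemb.2.1 x h3 h4).1 (hemb.2.1 x h3 h4).2 (hemb.2.1 x' h5 h6).1
        (hemb.2.1 x' h5 h6).2
    · rw [not_or] at hx
      have h7 : a + 1 ≤ x := succ_le_iff.mpr (lt_of_le_of_ne h3 (Ne.symm hx.1))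
      have h8 : a + 1 ≤ x' := succ_le_iff.mpr (lt_of_le_of_ne h5 (Ne.symm hx.2))
      rw [hsum] at h4 h6
      have key : ∀ x, (∀ y, Mem y u → y < x) → x < a + 1 + m →
          (Mem (img c (ins x u)) F ↔ Mem (img c2 (ins x u)) (pull c1 (a + 1 + N1) F)) := by
        intro x hux hx
        have h9 : ∀ y, Mem y (ins x u) → y < a + 1 + m := by
          intro y hy
          rcases mem_ins.mp hy with h10 | rfl
          · exact (hux y h10).trans hx
          · exact hx
        rw [mem_pull_of_forall (hc2.img_lt h9), img_comp (fun y hy => hcc y (h9 y hy))]
      rw [key x (fun y hy => (hu y hy).1) h4, key x' (fun y hy => (hu y hy).2) h6]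
      exact he2 u x x' hu h7 h4 h8 h6

/-- The colour of `c[s ∪ t]`, for `s` below `a` and `t` in `[a, a + k)` with together `e`
elements, only depends on `s`. -/
def Hom (e a k F c : M) : Prop := ∀ s t t', (∀ y, Mem y s → y < a) →
  (∀ y, Mem y t → a ≤ y ∧ y < a + k) → (∀ y, Mem y t' → a ≤ y ∧ y < a + k) →
  card s + card t = e → card s + card t' = e → (Mem (img c (un s t)) F ↔ Mem (img c (un s t')) F)

theorem ramsey (e : M) : ∀ a k, ∃ N, ∀ F, ∃ c, Emb a k N c ∧ Hom e a k F c := by
  refine ind (P := fun e => ∀ a k, ∃ N, ∀ F, ∃ c, Emb a k N c ∧ Hom e a k F c) ?_ ?_ ?_ e
  · unfold Hom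
    (repeat' first
        | assumption
        | with_reducible exact DefF.var _
        | with_reducible exact DefF.const _
        | with_reducible exact Def.const _
        | with_reducible apply DefF.val
        | with_reducible apply DefF.pow2
        | with_reducible apply Def.mem
        | with_reducible apply DefF.cls
        | with_reducible apply DefF.cnt
        | with_reducible apply DefF.card
        | with_reducible apply DefF.ins
        | with_reducible apply DefF.un
        | with_reducible apply DefF.ico
        | with_reducible apply DefF.fst
        | with_reducible apply DefF.snd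
        | with_reducible apply DefF.ap
        | with_reducible apply DefF.img
        | with_reducible apply Def.emb
        | with_reducible apply Def.good
        | with_reducible apply DefF.pull
        | with_reducible apply Def.ehom
        | with_reducible apply Def.and
        | with_reducible apply Def.or
        | with_reducible apply Def.iff
        | with_reducible apply Def.not
        | with_reducible apply Def.ex
        | with_reducible apply Def.all
        | with_reducible apply Def.imp
        | with_reducible apply Def.eq
        | with_reducible apply Def.lt
        | with_reducible apply Def.le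
        | with_reducible apply DefF.add
        | with_reducible apply DefF.mul
        | with_reducible apply DefF.the)
  · intro a k
    refine ⟨k, fun F => ?_⟩
    obtain ⟨c, hc⟩ := exists_id a k
    refine ⟨c, hc, fun s t t' _ _ _ h1 h2 => ?_⟩
    rw [eq_zero_of_card (add_eq_zero.mp h1).2, eq_zero_of_card (add_eq_zero.mp h2).2]
  · intro e ih a k
    obtain ⟨N1, h1⟩ := ih a k
    obtain ⟨N2, h2⟩ := end_homogeneous (N1 + 1) a
    obtain ⟨N3, h3⟩ := exists_good a N2
    refine ⟨N3, fun F => ?_⟩
    obtain ⟨c1, hc1, hg1⟩ := h3 F
    obtain ⟨c2, hc2, he2⟩ := h2 _ hg1
    set F1 := pull c1 (a + N2) F with hF1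
    have hdef : Def (fun v : ℕ → M => v 0 < pow2 (a + N1) ∧
        Mem (img c2 (ins (a + N1) (v 0))) F1) := by (repeat' first
            | assumption
            | with_reducible exact DefF.var _
            | with_reducible exact DefF.const _
            | with_reducible exact Def.const _
            | with_reducible apply DefF.val
            | with_reducible apply DefF.pow2
            | with_reducible apply Def.mem
            | with_reducible apply DefF.cls
            | with_reducible apply DefF.cnt
            | with_reducible apply DefF.card
            | with_reducible apply DefF.ins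
            | with_reducible apply DefF.un
            | with_reducible apply DefF.ico
            | with_reducible apply DefF.fst
            | with_reducible apply DefF.snd
            | with_reducible apply DefF.ap
            | with_reducible apply DefF.img
            | with_reducible apply Def.emb
            | with_reducible apply Def.good
            | with_reducible apply DefF.pull
            | with_reducible apply Def.ehom
            | with_reducible apply Def.and
            | with_reducible apply Def.or
            | with_reducible apply Def.iff
            | with_reducible apply Def.not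
            | with_reducible apply Def.ex
            | with_reducible apply Def.all
            | with_reducible apply Def.imp
            | with_reducible apply Def.eq
            | with_reducible apply Def.lt
            | with_reducible apply Def.le
            | with_reducible apply DefF.add
            | with_reducible apply DefF.mul
            | with_reducible apply DefF.the)
    have hF2 := mem_cls (P := fun u => u < pow2 (a + N1) ∧ Mem (img c2 (ins (a + N1) u)) F1)
      hdef (pow2 (a + N1)) (fun x hx => hx.1)
    set F2 := cls (fun u => u < pow2 (a + N1) ∧ Mem (img c2 (ins (a + N1) u)) F1) with hF2def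
    obtain ⟨c3, hc3, hh3⟩ := h1 F2
    obtain ⟨d, hd, hdd⟩ := hc2.comp (hc3.mono le_self_add)
    obtain ⟨c, hc, hcc⟩ := hc1.comp hd
    refine ⟨c, hc, fun s t t' hs ht ht' h4 h5 => ?_⟩
    by_cases ht0 : t = 0
    · have ht0' : t' = 0 := by
        apply eq_zero_of_card
        have h6 : card s + card t' = card s + card t := by rw [h4, h5]
        rw [ht0, card_zero] at h6
        exact add_left_cancel h6
      rw [ht0, ht0']
    · have ht0' : t' ≠ 0 := by
        intro h6
        apply ht0
        apply eq_zero_of_card
        have h7 : card s + card t = card s + card t' := by rw [h4, h5]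
        rw [h6, card_zero] at h7
        exact add_left_cancel h7
      have key : ∀ t, t ≠ 0 → (∀ y, Mem y t → a ≤ y ∧ y < a + k) → card s + card t = e + 1 →
          ∃ t0, (∀ y, Mem y t0 → a ≤ y ∧ y < a + k) ∧ card s + card t0 = e ∧
            (Mem (img c (un s t)) F ↔ Mem (img c3 (un s t0)) F2) := by
        intro t ht0 ht h4
        obtain ⟨x, t0, hx, rfl⟩ := exists_max ht0
        have hxt : ¬ Mem x t0 := fun h6 => lt_irrefl x (hx x h6)
        have hax := ht x (mem_ins.mpr (Or.inr rfl))
        have ht0b : ∀ y, Mem y t0 → a ≤ y ∧ y < a + k := fun y hy =>
          ht y (mem_ins.mpr (Or.inl hy))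
        refine ⟨t0, ht0b, ?_, ?_⟩
        · rw [card_ins hxt, ← add_assoc] at h4
          exact add_right_cancel h4
        · have hub : ∀ y, Mem y (un s t0) → y < x := by
            intro y hy
            rcases mem_un.mp hy with h6 | h6
            · exact lt_of_lt_of_le (hs y h6) hax.1
            · exact hx y h6
          have hins : un s (ins x t0) = ins x (un s t0) := mem_ext (fun y => by simp [or_assoc])
          have hb : ∀ y, Mem y (ins x (un s t0)) → y < a + k := by
            intro y hy
            rcases mem_ins.mp hy with h6 | rfl
            · exact (hub y h6).trans hax.2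
            · exact hax.2
          have hb' : ∀ y, Mem y (un s t0) → y < a + k := fun y hy => (hub y hy).trans hax.2
          have hu3 : ∀ y, Mem y (img c3 (un s t0)) → y < a + N1 := hc3.img_lt hb'
          have hlt : ∀ y, Mem y (img c3 (un s t0)) → y < ap c3 x := by
            intro y hy
            obtain ⟨i, hi, rfl⟩ := mem_img.mp hy
            exact hc3.2.2 i x (hub i hi) hax.2
          have hx3 := hc3.2.1 x hax.1 hax.2
          rw [hins, img_comp (fun y hy => hcc y (hb y hy)),
            ← mem_pull_of_forall (hd.img_lt hb), ← hF1,
            img_comp (fun y hy => hdd y (hb y hy)), img_ins c3,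
            he2 (img c3 (un s t0)) (ap c3 x) (a + N1) (fun y hy => ⟨hlt y hy, hu3 y hy⟩) hx3.1
              (by rw [← add_assoc]; exact hx3.2.trans (lt_succ_iff.mpr le_rfl)) le_self_add
              (by rw [← add_assoc]; exact lt_succ_iff.mpr le_rfl), hF2]
          exact ⟨fun h6 => ⟨lt_pow2_of_forall hu3, h6⟩, fun h6 => h6.2⟩
      obtain ⟨t0, h6, h7, h8⟩ := key t ht0 ht h4
      obtain ⟨t0', h6', h7', h8'⟩ := key t' ht0' ht' h5
      rw [h8, h8']
      exact hh3 s t0 t0' hs h6 h6' h7 h7'

/-! ### The main combinatorial argument inside the model -/

/-- The set `s` without the element `x`. -/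
noncomputable def del (x s : M) : M := cls (fun y => Mem y s ∧ y ≠ x)

@[simp] lemma mem_del {x s y : M} : Mem y (del x s) ↔ Mem y s ∧ y ≠ x := by
  refine mem_cls (P := fun y => Mem y s ∧ y ≠ x) ?_ s (fun y hy => hy.1.lt) y
  (repeat' first
      | assumption
      | with_reducible exact DefF.var _
      | with_reducible exact DefF.const _
      | with_reducible exact Def.const _
      | with_reducible apply DefF.val
      | with_reducible apply DefF.pow2
      | with_reducible apply Def.mem
      | with_reducible apply DefF.cls
      | with_reducible apply DefF.cnt
      | with_reducible apply DefF.card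
      | with_reducible apply DefF.ins
      | with_reducible apply DefF.un
      | with_reducible apply DefF.ico
      | with_reducible apply DefF.fst
      | with_reducible apply DefF.snd
      | with_reducible apply DefF.ap
      | with_reducible apply DefF.img
      | with_reducible apply Def.emb
      | with_reducible apply Def.good
      | with_reducible apply DefF.pull
      | with_reducible apply Def.ehom
      | with_reducible apply Def.and
      | with_reducible apply Def.or
      | with_reducible apply Def.iff
      | with_reducible apply Def.not
      | with_reducible apply Def.ex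
      | with_reducible apply Def.all
      | with_reducible apply Def.imp
      | with_reducible apply Def.eq
      | with_reducible apply Def.lt
      | with_reducible apply Def.le
      | with_reducible apply DefF.add
      | with_reducible apply DefF.mul
      | with_reducible apply DefF.the)

theorem DefF.del {f g : (ℕ → M) → M} (hf : DefF f) (hg : DefF g) :
    DefF (fun v => del (f v) (g v)) := by
  have h : DefF (M := M) (fun v => Arith.del (v 0) (v 1)) := by
    unfold Arith.del
    (repeat' first
        | assumption
        | with_reducible exact DefF.var _
        | with_reducible exact DefF.const _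
        | with_reducible exact Def.const _
        | with_reducible apply DefF.val
        | with_reducible apply DefF.pow2
        | with_reducible apply Def.mem
        | with_reducible apply DefF.cls
        | with_reducible apply DefF.cnt
        | with_reducible apply DefF.card
        | with_reducible apply DefF.ins
        | with_reducible apply DefF.un
        | with_reducible apply DefF.ico
        | with_reducible apply DefF.fst
        | with_reducible apply DefF.snd
        | with_reducible apply DefF.ap
        | with_reducible apply DefF.img
        | with_reducible apply Def.emb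
        | with_reducible apply Def.good
        | with_reducible apply DefF.pull
        | with_reducible apply Def.ehom
        | with_reducible apply Def.and
        | with_reducible apply Def.or
        | with_reducible apply Def.iff
        | with_reducible apply Def.not
        | with_reducible apply Def.ex
        | with_reducible apply Def.all
        | with_reducible apply Def.imp
        | with_reducible apply Def.eq
        | with_reducible apply Def.lt
        | with_reducible apply Def.le
        | with_reducible apply DefF.add
        | with_reducible apply DefF.mul
        | with_reducible apply DefF.the)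
  exact DefF.app2 h hf hg


lemma ins_del {x s : M} (h : Mem x s) : ins x (del x s) = s := by
  apply mem_ext
  intro y
  rw [mem_ins, mem_del]
  constructor
  · rintro (⟨h1, _⟩ | rfl)
    · exact h1
    · exact h
  · intro h1
    by_cases h2 : y = x
    · exact Or.inr h2
    · exact Or.inl ⟨h1, h2⟩

lemma card_del {x s : M} (h : Mem x s) : card s = card (del x s) + 1 := by
  conv_lhs => rw [← ins_del h]
  exact card_ins (by simp)

/-- A set with `e` elements contained in a set with `e + 1` elements misses exactly one of them. -/
lemma eq_del_of_card {r H e : M} (hr : ∀ x, Mem x r → Mem x H) (h1 : card r = e)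
    (h2 : card H = e + 1) : ∃ x, Mem x H ∧ r = del x H := by
  by_contra hno
  push Not at hno
  have h3 : ∀ x, Mem x H → Mem x r := by
    intro x hx
    by_contra hxr
    apply hno x hx
    apply eq_of_card
    · intro y hy
      rw [mem_del]
      exact ⟨hr y hy, by rintro rfl; exact hxr hy⟩
    · have := card_del hx
      rw [h2] at this
      rw [h1]
      exact add_right_cancel this
  have h4 : r = H := mem_ext (fun x => ⟨hr x, h3 x⟩)
  rw [h4, h2] at h1
  exact (lt_succ_iff.mpr (le_refl e)).ne' h1

/-- The Paris-Harrington relation `n →_* (k)^e_2` inside the model. -/
def Arrow (n k e : M) : Prop := ∀ F, ∃ H m, (∀ x, Mem x H → x < n) ∧ card H = m ∧ k ≤ m ∧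
  (∃ x, Mem x H ∧ (∀ y, Mem y H → x ≤ y) ∧ x ≤ m) ∧
  ∀ s t, (∀ x, Mem x s → Mem x H) → (∀ x, Mem x t → Mem x H) → card s = e → card t = e →
    (Mem s F ↔ Mem t F)

theorem exists_arrow (e : M) : ∃ n, Arrow n (e + 1) e := by
  obtain ⟨N, hN⟩ := ramsey e (e + 1) (e + 1)
  refine ⟨e + 1 + N, fun F => ?_⟩
  obtain ⟨c, hc, hh⟩ := hN F
  -- the colour attached to a subset `s` of `[0, e + 1)`
  let C : M → M → Prop := fun s j => Mem (img c (un s (ico (e + 1) (e + 1 + j)))) F
  have hC : ∀ {f g : (ℕ → M) → M}, DefF f → DefF g → Def (fun v => C (f v) (g v)) := by
    intro f g hf hg
    refine Def.sub2 (R := C) ?_ hf hg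
    show Def (fun v : ℕ → M => Mem (img c (un (v 0) (ico (e + 1) (e + 1 + v 1)))) F)
    (repeat' first
        | assumption
        | with_reducible exact DefF.var _
        | with_reducible exact DefF.const _
        | with_reducible exact Def.const _
        | with_reducible apply DefF.val
        | with_reducible apply DefF.pow2
        | with_reducible apply Def.mem
        | with_reducible apply DefF.cls
        | with_reducible apply DefF.cnt
        | with_reducible apply DefF.card
        | with_reducible apply DefF.ins
        | with_reducible apply DefF.un
        | with_reducible apply DefF.ico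
        | with_reducible apply DefF.fst
        | with_reducible apply DefF.snd
        | with_reducible apply DefF.ap
        | with_reducible apply DefF.img
        | with_reducible apply Def.emb
        | with_reducible apply Def.good
        | with_reducible apply DefF.pull
        | with_reducible apply Def.ehom
        | with_reducible apply DefF.del
        | with_reducible apply Def.and
        | with_reducible apply Def.or
        | with_reducible apply Def.iff
        | with_reducible apply Def.not
        | with_reducible apply Def.ex
        | with_reducible apply Def.all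
        | with_reducible apply Def.imp
        | with_reducible apply Def.eq
        | with_reducible apply Def.lt
        | with_reducible apply Def.le
        | with_reducible apply DefF.add
        | with_reducible apply DefF.mul
        | with_reducible apply DefF.the)
  by_cases hA : ∃ s j, (∀ y, Mem y s → y < e + 1) ∧ s ≠ 0 ∧ card s + j = e ∧
      ∀ x, Mem x s → (C (del x s) (j + 1) ↔ C s j)
  · -- `s` together with `j + 1` further elements is homogeneous
    obtain ⟨s, j, hs, hs0, hj, hx⟩ := hA
    have hje : j ≤ e := by rw [← hj]; exact le_add_self
    set T := ico (e + 1) (e + 1 + (j + 1)) with hT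
    have hTb : ∀ y, Mem y T → e + 1 ≤ y ∧ y < e + 1 + (e + 1) := by
      intro y hy
      rw [hT, mem_ico] at hy
      exact ⟨hy.1, lt_of_lt_of_le hy.2 (by gcongr)⟩
    have hdisj : ∀ x, Mem x s → ¬ Mem x T := fun x h1 h2 =>
      absurd (hs x h1) (not_lt.mpr (hTb x h2).1)
    have hcardT : card T = j + 1 := card_ico _ _
    have hcard0 : card (un s T) = e + 1 := by
      rw [card_un hdisj, hcardT, ← add_assoc, hj]
    have hb : ∀ y, Mem y (un s T) → y < e + 1 + (e + 1) := by
      intro y hy
      rcases mem_un.mp hy with h1 | h1
      · exact lt_of_lt_of_le (hs y h1) le_self_add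
      · exact (hTb y h1).2
    have hinj : ∀ i j, Mem i (un s T) → Mem j (un s T) → ap c i = ap c j → i = j :=
      fun i j hi hj => hc.inj (hb i hi) (hb j hj)
    have hcardH : card (img c (un s T)) = e + 1 := by rw [card_img hinj, hcard0]
    -- all subsets of size `e` have the colour `C s j`
    have key : ∀ r, (∀ x, Mem x r → Mem x (img c (un s T))) → card r = e →
        (Mem r F ↔ C s j) := by
      intro r hr hcr
      have hdef : Def (fun v : ℕ → M => Mem (v 0) (un s T) ∧ Mem (ap c (v 0)) r) := by (repeat' first
          | assumption
          | with_reducible exact DefF.var _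
          | with_reducible exact DefF.const _
          | with_reducible exact Def.const _
          | with_reducible apply DefF.val
          | with_reducible apply DefF.pow2
          | with_reducible apply Def.mem
          | with_reducible apply DefF.cls
          | with_reducible apply DefF.cnt
          | with_reducible apply DefF.card
          | with_reducible apply DefF.ins
          | with_reducible apply DefF.un
          | with_reducible apply DefF.ico
          | with_reducible apply DefF.fst
          | with_reducible apply DefF.snd
          | with_reducible apply DefF.ap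
          | with_reducible apply DefF.img
          | with_reducible apply Def.emb
          | with_reducible apply Def.good
          | with_reducible apply DefF.pull
          | with_reducible apply Def.ehom
          | with_reducible apply DefF.del
          | with_reducible apply Def.and
          | with_reducible apply Def.or
          | with_reducible apply Def.iff
          | with_reducible apply Def.not
          | with_reducible apply Def.ex
          | with_reducible apply Def.all
          | with_reducible apply Def.imp
          | with_reducible apply Def.eq
          | with_reducible apply Def.lt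
          | with_reducible apply Def.le
          | with_reducible apply DefF.add
          | with_reducible apply DefF.mul
          | with_reducible apply DefF.the)
      have hr0 := mem_cls (P := fun i => Mem i (un s T) ∧ Mem (ap c i) r) hdef (un s T)
        (fun x hx => hx.1.lt)
      set r0 := cls (fun i => Mem i (un s T) ∧ Mem (ap c i) r) with hr0def
      have hrimg : r = img c r0 := by
        apply mem_ext
        intro y
        rw [mem_img]
        constructor
        · intro hy
          obtain ⟨i, hi, rfl⟩ := mem_img.mp (hr y hy)
          exact ⟨i, (hr0 i).mpr ⟨hi, hy⟩, rfl⟩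
        · rintro ⟨i, hi, rfl⟩
          exact ((hr0 i).mp hi).2
      have hcr0 : card r0 = e := by
        rw [← hcr, hrimg, card_img]
        intro i j hi hj
        exact hinj i j ((hr0 i).mp hi).1 ((hr0 j).mp hj).1
      obtain ⟨x, hx1, hx2⟩ := eq_del_of_card (fun x hx => ((hr0 x).mp hx).1) hcr0 hcard0
      rw [hrimg, hx2]
      rcases mem_un.mp hx1 with h1 | h1
      · -- an element of `s` is missing
        rw [← hx x h1]
        have : del x (un s T) = un (del x s) T := by
          apply mem_ext
          intro y
          simp only [mem_del, mem_un]
          constructor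
          · rintro ⟨h2 | h2, h3⟩
            · exact Or.inl ⟨h2, h3⟩
            · exact Or.inr h2
          · rintro (⟨h2, h3⟩ | h2)
            · exact ⟨Or.inl h2, h3⟩
            · refine ⟨Or.inr h2, ?_⟩
              rintro rfl
              exact hdisj y h1 h2
        rw [this]
      · -- an element above is missing
        have : del x (un s T) = un s (del x T) := by
          apply mem_ext
          intro y
          simp only [mem_del, mem_un]
          constructor
          · rintro ⟨h2 | h2, h3⟩
            · exact Or.inl h2
            · exact Or.inr ⟨h2, h3⟩
          · rintro (h2 | ⟨h2, h3⟩)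
            · refine ⟨Or.inl h2, ?_⟩
              rintro rfl
              exact hdisj y h2 h1
            · exact ⟨Or.inr h2, h3⟩
        rw [this]
        have h2 := card_del h1
        rw [hcardT] at h2
        refine hh s (del x T) (ico (e + 1) (e + 1 + j)) hs
          (fun y hy => hTb y (mem_del.mp hy).1) (fun y hy => ?_) ?_ ?_
        · rw [mem_ico] at hy
          exact ⟨hy.1, lt_of_lt_of_le hy.2 (by gcongr; exact hje.trans le_self_add)⟩
        · rw [← add_right_cancel h2, hj]
        · rw [card_ico, hj]
    obtain ⟨z, hz⟩ : ∃ z, Mem z s := by
      by_contra hno
      push Not at hno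
      exact hs0 (mem_ext (fun x => ⟨fun h => absurd h (hno x), fun h => absurd h (not_mem_zero x)⟩))
    have hzH : Mem z (img c (un s T)) :=
      mem_img.mpr ⟨z, mem_un.mpr (Or.inl hz), (hc.1 z (hs z hz)).symm⟩
    obtain ⟨x, hx1, hx2⟩ := least (P := fun x => Mem x (img c (un s T))) (by (repeat' first
        | assumption
        | with_reducible exact DefF.var _
        | with_reducible exact DefF.const _
        | with_reducible exact Def.const _
        | with_reducible apply DefF.val
        | with_reducible apply DefF.pow2
        | with_reducible apply Def.mem
        | with_reducible apply DefF.cls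
        | with_reducible apply DefF.cnt
        | with_reducible apply DefF.card
        | with_reducible apply DefF.ins
        | with_reducible apply DefF.un
        | with_reducible apply DefF.ico
        | with_reducible apply DefF.fst
        | with_reducible apply DefF.snd
        | with_reducible apply DefF.ap
        | with_reducible apply DefF.img
        | with_reducible apply Def.emb
        | with_reducible apply Def.good
        | with_reducible apply DefF.pull
        | with_reducible apply Def.ehom
        | with_reducible apply DefF.del
        | with_reducible apply Def.and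
        | with_reducible apply Def.or
        | with_reducible apply Def.iff
        | with_reducible apply Def.not
        | with_reducible apply Def.ex
        | with_reducible apply Def.all
        | with_reducible apply Def.imp
        | with_reducible apply Def.eq
        | with_reducible apply Def.lt
        | with_reducible apply Def.le
        | with_reducible apply DefF.add
        | with_reducible apply DefF.mul
        | with_reducible apply DefF.the)) ⟨z, hzH⟩
    have hmin : ∀ y, Mem y (img c (un s T)) → x ≤ y := fun y hy => by
      by_contra hno
      exact hx2 y (not_le.mp hno) hy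
    refine ⟨img c (un s T), e + 1, hc.img_lt hb, hcardH, le_rfl, ⟨x, hx1, hmin, ?_⟩, ?_⟩
    · exact (hmin z hzH).trans (hs z hz).le
    · intro r r' hr hr' h1 h2
      rw [key r hr h1, key r' hr' h2]
  · -- the colour of `s` alternates with the size of `s`
    push Not at hA
    have hB : ∀ s j, (∀ y, Mem y s → y < e + 1) → s ≠ 0 → card s + j = e →
        ∃ x, Mem x s ∧ ¬ (C (del x s) (j + 1) ↔ C s j) := by
      intro s j h1 h2 h3
      obtain ⟨x, hx, h4⟩ := hA s j h1 h2 h3
      refine ⟨x, hx, fun h5 => ?_⟩
      rcases h4 with ⟨h6, h7⟩ | ⟨h6, h7⟩
      · exact h7 (h5.mp h6)
      · exact h6 (h5.mpr h7)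
    have key : ∀ i : M, ∀ s s' j, i + j = e → (∀ y, Mem y s → y < e + 1) →
        (∀ y, Mem y s' → y < e + 1) → card s = i → card s' = i → (C s j ↔ C s' j) := by
      intro i
      refine ind (P := fun i => ∀ s s' j, i + j = e → (∀ y, Mem y s → y < e + 1) →
        (∀ y, Mem y s' → y < e + 1) → card s = i → card s' = i → (C s j ↔ C s' j)) ?_ ?_ ?_ i
      · (repeat' first
          | assumption
          | with_reducible exact DefF.var _
          | with_reducible exact DefF.const _
          | with_reducible exact Def.const _
          | with_reducible apply hC
          | with_reducible apply DefF.val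
          | with_reducible apply DefF.pow2
          | with_reducible apply Def.mem
          | with_reducible apply DefF.cls
          | with_reducible apply DefF.cnt
          | with_reducible apply DefF.card
          | with_reducible apply DefF.ins
          | with_reducible apply DefF.un
          | with_reducible apply DefF.ico
          | with_reducible apply DefF.fst
          | with_reducible apply DefF.snd
          | with_reducible apply DefF.ap
          | with_reducible apply DefF.img
          | with_reducible apply Def.emb
          | with_reducible apply Def.good
          | with_reducible apply DefF.pull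
          | with_reducible apply Def.ehom
          | with_reducible apply DefF.del
          | with_reducible apply Def.and
          | with_reducible apply Def.or
          | with_reducible apply Def.iff
          | with_reducible apply Def.not
          | with_reducible apply Def.ex
          | with_reducible apply Def.all
          | with_reducible apply Def.imp
          | with_reducible apply Def.eq
          | with_reducible apply Def.lt
          | with_reducible apply Def.le
          | with_reducible apply DefF.add
          | with_reducible apply DefF.mul
          | with_reducible apply DefF.the)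
      · intro s s' j _ _ _ h1 h2
        rw [eq_zero_of_card h1, eq_zero_of_card h2]
      · intro i ih s s' j hij hs hs' h1 h2
        have hne : ∀ s : M, card s = i + 1 → s ≠ 0 := by
          rintro s h3 rfl
          rw [card_zero] at h3
          exact (zero_lt_succ' i).ne h3
        obtain ⟨x, hx, h3⟩ := hB s j hs (hne s h1) (by rw [h1]; exact hij)
        obtain ⟨x', hx', h3'⟩ := hB s' j hs' (hne s' h2) (by rw [h2]; exact hij)
        have h4 : card (del x s) = i := by
          have := card_del hx
          rw [h1] at this
          exact (add_right_cancel this).symm
        have h4' : card (del x' s') = i := by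
          have := card_del hx'
          rw [h2] at this
          exact (add_right_cancel this).symm
        have h5 := ih (del x s) (del x' s') (j + 1) (by rw [← hij]; ring)
          (fun y hy => hs y (mem_del.mp hy).1) (fun y hy => hs' y (mem_del.mp hy).1) h4 h4'
        tauto
    have hmem : ∀ y : M, Mem y (ico 0 (e + 1)) ↔ y < e + 1 := fun y => by simp
    have hfix : ∀ r, (∀ y, Mem y r → y < e + 1) → (C r 0 ↔ Mem r F) := by
      intro r hr
      have h1 : un r (ico (e + 1) (e + 1 + 0)) = r := by
        apply mem_ext
        intro y
        rw [mem_un, mem_ico, add_zero]
        constructor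
        · rintro (h1 | ⟨h1, h2⟩)
          · exact h1
          · exact absurd h2 (not_lt.mpr h1)
        · exact Or.inl
      show Mem (img c (un r (ico (e + 1) (e + 1 + 0)))) F ↔ _
      rw [h1, img_eq_self (fun y hy => hc.1 y (hr y hy))]
    refine ⟨ico 0 (e + 1), e + 1, fun x hx => ?_, ?_, le_rfl, ⟨0, ?_, fun y _ => zero_le,
      zero_le⟩, ?_⟩
    · exact lt_of_lt_of_le ((hmem x).mp hx) le_self_add
    · have := card_ico (0 : M) (e + 1)
      rwa [zero_add] at this
    · rw [hmem]
      exact zero_lt_succ' e
    · intro r r' hr hr' h1 h2
      have hr1 : ∀ y, Mem y r → y < e + 1 := fun y hy => (hmem y).mp (hr y hy)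
      have hr1' : ∀ y, Mem y r' → y < e + 1 := fun y hy => (hmem y).mp (hr' y hy)
      rw [← hfix r hr1, ← hfix r' hr1']
      exact key e r r' 0 (add_zero e) hr1 hr1' h1 h2

/-! ### The meaning of the formulas in models of arithmetic -/

section realize

variable {α : Type*} {n : ℕ}

@[simp] lemma realize_up (t : LA.Term (Empty ⊕ Fin n)) (v : Empty → M) (xs : Fin n → M) (a : M) :
    (up t).realize (Sum.elim v (Fin.snoc xs a : Fin (n + 1) → M)) = t.realize (Sum.elim v xs) := by
  unfold up
  rw [Term.realize_relabel]
  congr 1
  funext s
  rcases s with s | s
  · rfl
  · simp

@[simp] lemma realize_last (v : Empty → M) (xs : Fin n → M) (a : M) :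
    (Term.var (Sum.inr (Fin.last n)) : LA.Term (Empty ⊕ Fin (n + 1))).realize
      (Sum.elim v (Fin.snoc xs a : Fin (n + 1) → M)) = a := by
  simp

lemma realize_exF (f : LA.Term (Empty ⊕ Fin (n + 1)) → LA.BoundedFormula Empty (n + 1))
    (v : Empty → M) (xs : Fin n → M) : (exF f).Realize v xs ↔
      ∃ a : M, (f (Term.var (Sum.inr (Fin.last n)))).Realize v (Fin.snoc xs a) :=
  BoundedFormula.realize_ex

lemma realize_allF (f : LA.Term (Empty ⊕ Fin (n + 1)) → LA.BoundedFormula Empty (n + 1))
    (v : Empty → M) (xs : Fin n → M) : (allF f).Realize v xs ↔
      ∀ a : M, (f (Term.var (Sum.inr (Fin.last n)))).Realize v (Fin.snoc xs a) :=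
  BoundedFormula.realize_all

lemma realize_ltF (s t : LA.Term (Empty ⊕ Fin n)) (v : Empty → M) (xs : Fin n → M) :
    (ltF s t).Realize v xs ↔ s.realize (Sum.elim v xs) < t.realize (Sum.elim v xs) := by
  rw [ltF, realize_exF, lt_iff_exists]
  simp only [BoundedFormula.realize_bdEqual, realize_Pl, realize_Sc, realize_up, realize_last]

lemma realize_leF (s t : LA.Term (Empty ⊕ Fin n)) (v : Empty → M) (xs : Fin n → M) :
    (leF s t).Realize v xs ↔ s.realize (Sum.elim v xs) ≤ t.realize (Sum.elim v xs) := by
  rw [leF, realize_exF, le_iff_exists_add]
  simp only [BoundedFormula.realize_bdEqual, realize_Pl, realize_up, realize_last]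
  exact exists_congr (fun a => eq_comm)

lemma realize_betaF (a b i y : LA.Term (Empty ⊕ Fin n)) (v : Empty → M) (xs : Fin n → M) :
    (betaF a b i y).Realize v xs ↔ val (a.realize (Sum.elim v xs)) (b.realize (Sum.elim v xs))
      (i.realize (Sum.elim v xs)) = y.realize (Sum.elim v xs) := by
  rw [betaF, BoundedFormula.realize_inf, realize_exF, realize_ltF, val_eq_iff]
  simp only [BoundedFormula.realize_bdEqual, realize_Pl, realize_Ti, realize_Sc, realize_up,
    realize_last]

lemma realize_powF (x p : LA.Term (Empty ⊕ Fin n)) (v : Empty → M) (xs : Fin n → M) :
    (powF x p).Realize v xs ↔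
      pow2 (x.realize (Sum.elim v xs)) = p.realize (Sum.elim v xs) := by
  rw [pow2_eq_iff, powF]
  simp only [realize_exF, realize_allF, BoundedFormula.realize_inf, BoundedFormula.realize_imp,
    realize_betaF, realize_ltF, realize_up, realize_last, realize_O, realize_Sc, realize_Pl,
    exists_eq_left', zero_add, and_assoc]

lemma realize_memF (x y : LA.Term (Empty ⊕ Fin n)) (v : Empty → M) (xs : Fin n → M) :
    (memF x y).Realize v xs ↔ Mem (x.realize (Sum.elim v xs)) (y.realize (Sum.elim v xs)) := by
  rw [memF, Mem]
  simp only [realize_exF, BoundedFormula.realize_inf, realize_powF, realize_ltF,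
    BoundedFormula.realize_bdEqual, realize_up, realize_last, realize_Pl, realize_Ti]
  constructor
  · rintro ⟨p, u, w, ⟨rfl, h1⟩, h2⟩
    exact ⟨u, w, h1, h2⟩
  · rintro ⟨u, w, h1, h2⟩
    exact ⟨_, u, w, ⟨rfl, h1⟩, h2⟩

lemma realize_subF (s t : LA.Term (Empty ⊕ Fin n)) (v : Empty → M) (xs : Fin n → M) :
    (subF s t).Realize v xs ↔ ∀ x, Mem x (s.realize (Sum.elim v xs)) →
      Mem x (t.realize (Sum.elim v xs)) := by
  rw [subF]
  simp only [realize_allF, BoundedFormula.realize_imp, realize_memF, realize_up, realize_last]

lemma realize_cardF (s k : LA.Term (Empty ⊕ Fin n)) (v : Empty → M) (xs : Fin n → M) :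
    (cardF s k).Realize v xs ↔
      card (s.realize (Sum.elim v xs)) = k.realize (Sum.elim v xs) := by
  rw [cardF, card_eq_iff]
  unfold CntRel
  simp only [realize_exF, realize_allF, BoundedFormula.realize_inf, BoundedFormula.realize_imp,
    BoundedFormula.realize_sup, BoundedFormula.realize_not, realize_memF, realize_betaF,
    realize_ltF, realize_up, realize_last, realize_O, realize_Sc, exists_eq_left']
  constructor
  · rintro ⟨m, a, b, ⟨⟨h1, h2⟩, h3⟩, h4⟩
    exact ⟨m, h1, a, b, h2, h3, h4⟩
  · rintro ⟨m, h1, a, b, h2, h3, h4⟩
    exact ⟨m, a, b, ⟨⟨h1, h2⟩, h3⟩, h4⟩

lemma realize_arrowF (N k e : LA.Term (Empty ⊕ Fin n)) (v : Empty → M) (xs : Fin n → M) :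
    (arrowF N k e).Realize v xs ↔ Arrow (N.realize (Sum.elim v xs)) (k.realize (Sum.elim v xs))
      (e.realize (Sum.elim v xs)) := by
  rw [arrowF, Arrow]
  simp only [realize_exF, realize_allF, BoundedFormula.realize_inf, BoundedFormula.realize_imp,
    BoundedFormula.realize_iff, realize_memF, realize_cardF, realize_subF, realize_leF,
    realize_ltF, realize_up, realize_last, and_assoc]

end realize

theorem realize_phSentence : M ⊨ phSentence := by
  unfold phSentence Sentence.Realize Formula.Realize
  simp only [realize_exF, realize_allF, realize_arrowF, realize_up, realize_last, realize_Sc]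
  exact fun e => exists_arrow e

end model

/-! ### Every model of the theory PA is a model in the sense of the class above -/

section raw

variable {M : Type u} [LA.Structure M]

/-- The interpretations of the function symbols. -/
def rz : M := (O : LA.Term Empty).realize Empty.elim
def rs (x : M) : M := Structure.funMap (L := LA) (ArithFunc.succ : LA.Functions 1) ![x]
def ra (x y : M) : M := Structure.funMap (L := LA) (ArithFunc.add : LA.Functions 2) ![x, y]
def rm (x y : M) : M := Structure.funMap (L := LA) (ArithFunc.mul : LA.Functions 2) ![x, y]

lemma vec0 {α : Type*} (f : Fin 0 → α) : f = ![] := Subsingleton.elim _ _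

lemma vec1 {α : Type*} (f : Fin 1 → α) : f = ![f 0] := by
  funext i
  rw [Subsingleton.elim i 0]
  rfl

lemma vec2 {α : Type*} (f : Fin 2 → α) : f = ![f 0, f 1] := by
  funext i
  fin_cases i <;> rfl

lemma real_O {α : Type*} (v : α → M) : (O : LA.Term α).realize v = rz := by
  show Structure.funMap (L := LA) (ArithFunc.zero : LA.Functions 0) _ =
    Structure.funMap (L := LA) (ArithFunc.zero : LA.Functions 0) _
  congr 1
  exact Subsingleton.elim _ _

lemma real_Sc {α : Type*} (v : α → M) (t : LA.Term α) : (Sc t).realize v = rs (t.realize v) := by
  show Structure.funMap (L := LA) (ArithFunc.succ : LA.Functions 1) _ =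
    Structure.funMap (L := LA) (ArithFunc.succ : LA.Functions 1) _
  congr 1
  exact vec1 _

lemma real_Pl {α : Type*} (v : α → M) (s t : LA.Term α) :
    (Pl s t).realize v = ra (s.realize v) (t.realize v) := by
  show Structure.funMap (L := LA) (ArithFunc.add : LA.Functions 2) _ =
    Structure.funMap (L := LA) (ArithFunc.add : LA.Functions 2) _
  congr 1
  exact vec2 _

lemma real_Ti {α : Type*} (v : α → M) (s t : LA.Term α) :
    (Ti s t).realize v = rm (s.realize v) (t.realize v) := by
  show Structure.funMap (L := LA) (ArithFunc.mul : LA.Functions 2) _ =
    Structure.funMap (L := LA) (ArithFunc.mul : LA.Functions 2) _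
  congr 1
  exact vec2 _

theorem DefF.rz : DefF (M := M) (fun _ => Arith.rz) := DefF.const _

theorem DefF.rs {f : (ℕ → M) → M} (hf : DefF f) : DefF (fun v => rs (f v)) :=
  DefF.app1 (F := Arith.rs) ⟨(Term.var (Sum.inr 0)).equal (Sc (Term.var (Sum.inr 1))),
    fun _ => by rw [Formula.realize_equal, real_Sc]; rfl⟩ hf

theorem DefF.ra {f g : (ℕ → M) → M} (hf : DefF f) (hg : DefF g) :
    DefF (fun v => ra (f v) (g v)) :=
  DefF.app2 (F := Arith.ra) ⟨(Term.var (Sum.inr 0)).equal
    (Pl (Term.var (Sum.inr 1)) (Term.var (Sum.inr 2))),
    fun _ => by rw [Formula.realize_equal, real_Pl]; rfl⟩ hf hg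

theorem DefF.rm {f g : (ℕ → M) → M} (hf : DefF f) (hg : DefF g) :
    DefF (fun v => rm (f v) (g v)) :=
  DefF.app2 (F := Arith.rm) ⟨(Term.var (Sum.inr 0)).equal
    (Ti (Term.var (Sum.inr 1)) (Term.var (Sum.inr 2))),
    fun _ => by rw [Formula.realize_equal, real_Ti]; rfl⟩ hf hg

lemma realize_inductionAxiom {n : ℕ} (φ : LA.Formula (Fin n ⊕ Fin 1)) :
    M ⊨ inductionAxiom φ ↔ ∀ y : Fin n → M, φ.Realize (Sum.elim y (fun _ => rz)) →
      (∀ x : M, φ.Realize (Sum.elim y (fun _ => x)) → φ.Realize (Sum.elim y (fun _ => rs x))) →
      ∀ x : M, φ.Realize (Sum.elim y (fun _ => x)) := by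
  have e1 : ∀ (y : Fin n → M) (i : Fin 1 → M), (Sum.elim y i) = Sum.elim y (fun _ => i 0) := by
    intro y i
    congr 1
    funext j
    rw [Subsingleton.elim j 0]
  unfold inductionAxiom Sentence.Realize
  rw [Formula.realize_iAlls]
  refine forall_congr' fun y => ?_
  rw [Formula.realize_relabel]
  have e2 : (Sum.elim (default : Empty → M) y) ∘ (Sum.inr : Fin n → Empty ⊕ Fin n) = y := by
    funext i
    rfl
  rw [e2, Formula.realize_imp, Formula.realize_inf, Formula.realize_iAlls, Formula.realize_iAlls]
  have e3 : Formula.Realize (BoundedFormula.subst φ (Sum.elim (fun i => Term.var i)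
      (fun _ => O)) : LA.Formula (Fin n)) y ↔ φ.Realize (Sum.elim y (fun _ => rz)) := by
    unfold Formula.Realize
    rw [BoundedFormula.realize_subst]
    have : (fun a => Term.realize y ((Sum.elim (fun i => Term.var i) (fun _ => O) :
        Fin n ⊕ Fin 1 → LA.Term (Fin n)) a)) = Sum.elim y (fun _ => rz) := by
      funext s
      rcases s with s | s
      · rfl
      · exact real_O _
    rw [this]
  have e4 : ∀ x : M, Formula.Realize (BoundedFormula.subst φ (Sum.elim
      (fun i => Term.var (Sum.inl i)) (fun i => Sc (Term.var (Sum.inr i)))) :
      LA.Formula (Fin n ⊕ Fin 1)) (Sum.elim y (fun _ => x)) ↔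
      φ.Realize (Sum.elim y (fun _ => rs x)) := by
    intro x
    unfold Formula.Realize
    rw [BoundedFormula.realize_subst]
    have : (fun a => Term.realize (Sum.elim y (fun _ => x)) ((Sum.elim
        (fun i => Term.var (Sum.inl i)) (fun i => Sc (Term.var (Sum.inr i))) :
        Fin n ⊕ Fin 1 → LA.Term (Fin n ⊕ Fin 1)) a)) = Sum.elim y (fun _ => rs x) := by
      funext s
      rcases s with s | s
      · rfl
      · exact real_Sc _ _
    rw [this]
  constructor
  · intro h h0 hs x
    refine h ⟨e3.mpr h0, fun i => ?_⟩ (fun _ => x)
    rw [e1, Formula.realize_imp, e4]
    exact hs (i 0)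
  · rintro h ⟨h0, hs⟩ i
    rw [e1]
    refine h (e3.mp h0) (fun x hx => ?_) (i 0)
    have := hs (fun _ => x)
    rw [Formula.realize_imp, e4] at this
    exact this hx

/-- Induction for sets definable with parameters. -/
theorem raw_ind [M ⊨ PA] {P : M → Prop} (hP : Def (fun v => P (v 0))) (h0 : P rz)
    (hs : ∀ x, P x → P (rs x)) (x : M) : P x := by
  classical
  obtain ⟨φ, hφ⟩ := hP
  obtain ⟨e⟩ : Nonempty (Fin φ.freeVarFinset.card ≃ φ.freeVarFinset) :=
    ⟨φ.freeVarFinset.equivFin.symm⟩
  -- the free variable with index `0` is the induction variable, the others are parameters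
  let f : φ.freeVarFinset → Fin φ.freeVarFinset.card ⊕ Fin 1 := fun a =>
    if a.1 = Sum.inr 0 then Sum.inr 0 else Sum.inl (e.symm a)
  let ψ : LA.Formula (Fin φ.freeVarFinset.card ⊕ Fin 1) := φ.restrictFreeVar f
  let v0 : ℕ → M := fun _ => x
  let y : Fin φ.freeVarFinset.card → M := fun i => Sum.elim id v0 (e i).1
  have key : ∀ z : M, ψ.Realize (Sum.elim y (fun _ => z)) ↔ P z := by
    intro z
    let w : ℕ → M := fun n => if n = 0 then z else x
    rw [show P z ↔ φ.Realize (Sum.elim id w) from (hφ w).symm]
    refine BoundedFormula.realize_restrictFreeVar (Sum.elim id w) ?_
    rintro ⟨a, ha⟩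
    show Sum.elim y (fun _ => z) (if a = Sum.inr 0 then Sum.inr 0 else
      Sum.inl (e.symm ⟨a, ha⟩)) = Sum.elim id w a
    split_ifs with h
    · rw [h]
      rfl
    · show Sum.elim id v0 (e (e.symm ⟨a, ha⟩)).1 = _
      rw [Equiv.apply_symm_apply]
      rcases a with a | a
      · rfl
      · show x = if a = 0 then z else x
        rw [if_neg (fun h1 => h (by rw [h1]))]
  have hax : M ⊨ inductionAxiom ψ :=
    Theory.realize_sentence_of_mem PA (IsAxiom.induction ψ)
  rw [realize_inductionAxiom] at hax
  have h1 := hax y ((key _).mpr h0) (fun x hx => (key _).mpr (hs x ((key _).mp hx))) x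
  exact (key x).mp h1

section axioms

variable [M ⊨ PA]

lemma rs_ne (x : M) : rs x ≠ rz := by
  have h : M ⊨ (∀' ∼(Sc (&0) =' O) : LA.Sentence) :=
    Theory.realize_sentence_of_mem PA IsAxiom.succ_ne
  simp only [Sentence.Realize, Formula.Realize, BoundedFormula.realize_all,
    BoundedFormula.realize_not, BoundedFormula.realize_bdEqual, real_Sc, real_O] at h
  exact h x

lemma rs_inj {x y : M} (hxy : rs x = rs y) : x = y := by
  have h : M ⊨ (∀' ∀' ((Sc (&0) =' Sc (&1)) ⟹ (&0 =' &1)) : LA.Sentence) :=
    Theory.realize_sentence_of_mem PA IsAxiom.succ_inj
  simp only [Sentence.Realize, Formula.Realize, BoundedFormula.realize_all,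
    BoundedFormula.realize_imp, BoundedFormula.realize_bdEqual, real_Sc] at h
  exact h x y hxy

lemma ra_rz (x : M) : ra x rz = x := by
  have h : M ⊨ (∀' (Pl (&0) O =' &0) : LA.Sentence) :=
    Theory.realize_sentence_of_mem PA IsAxiom.add_zero
  simp only [Sentence.Realize, Formula.Realize, BoundedFormula.realize_all,
    BoundedFormula.realize_bdEqual, real_Pl, real_O] at h
  exact h x

lemma ra_rs (x y : M) : ra x (rs y) = rs (ra x y) := by
  have h : M ⊨ (∀' ∀' (Pl (&0) (Sc (&1)) =' Sc (Pl (&0) (&1))) : LA.Sentence) :=
    Theory.realize_sentence_of_mem PA IsAxiom.add_succ
  simp only [Sentence.Realize, Formula.Realize, BoundedFormula.realize_all,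
    BoundedFormula.realize_bdEqual, real_Pl, real_Sc] at h
  exact h x y

lemma rm_rz (x : M) : rm x rz = rz := by
  have h : M ⊨ (∀' (Ti (&0) O =' O) : LA.Sentence) :=
    Theory.realize_sentence_of_mem PA IsAxiom.mul_zero
  simp only [Sentence.Realize, Formula.Realize, BoundedFormula.realize_all,
    BoundedFormula.realize_bdEqual, real_Ti, real_O] at h
  exact h x

lemma rm_rs (x y : M) : rm x (rs y) = ra (rm x y) x := by
  have h : M ⊨ (∀' ∀' (Ti (&0) (Sc (&1)) =' Pl (Ti (&0) (&1)) (&0)) : LA.Sentence) :=
    Theory.realize_sentence_of_mem PA IsAxiom.mul_succ
  simp only [Sentence.Realize, Formula.Realize, BoundedFormula.realize_all,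
    BoundedFormula.realize_bdEqual, real_Ti, real_Pl, real_Sc] at h
  exact h x y

end axioms

end raw

/-! ### The algebra of models of PA -/

section algebra

variable {M : Type u} [LA.Structure M] [M ⊨ PA]


lemma rz_ra (x : M) : ra rz x = x := by
  refine raw_ind (P := fun x => ra rz x = x) ?_ ?_ ?_ x
  · (repeat' first
      | assumption
      | with_reducible exact DefF.var _
      | with_reducible exact DefF.const _
      | with_reducible exact Def.const _
      | with_reducible apply DefF.val
      | with_reducible apply DefF.pow2
      | with_reducible apply Def.mem
      | with_reducible apply DefF.cls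
      | with_reducible apply DefF.cnt
      | with_reducible apply DefF.card
      | with_reducible apply DefF.ins
      | with_reducible apply DefF.un
      | with_reducible apply DefF.ico
      | with_reducible apply DefF.fst
      | with_reducible apply DefF.snd
      | with_reducible apply DefF.ap
      | with_reducible apply DefF.img
      | with_reducible apply Def.emb
      | with_reducible apply Def.good
      | with_reducible apply DefF.pull
      | with_reducible apply Def.ehom
      | with_reducible apply DefF.del
      | with_reducible apply DefF.rs
      | with_reducible apply DefF.ra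
      | with_reducible apply DefF.rm
      | with_reducible apply Def.and
      | with_reducible apply Def.or
      | with_reducible apply Def.iff
      | with_reducible apply Def.not
      | with_reducible apply Def.ex
      | with_reducible apply Def.all
      | with_reducible apply Def.imp
      | with_reducible apply Def.eq
      | with_reducible apply Def.lt
      | with_reducible apply Def.le
      | with_reducible apply DefF.add
      | with_reducible apply DefF.mul
      | with_reducible apply DefF.the)
  · exact ra_rz _
  · intro x ih
    rw [ra_rs, ih]

lemma rs_ra (x y : M) : ra (rs x) y = rs (ra x y) := by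
  refine raw_ind (P := fun y => ra (rs x) y = rs (ra x y)) ?_ ?_ ?_ y
  · (repeat' first
      | assumption
      | with_reducible exact DefF.var _
      | with_reducible exact DefF.const _
      | with_reducible exact Def.const _
      | with_reducible apply DefF.val
      | with_reducible apply DefF.pow2
      | with_reducible apply Def.mem
      | with_reducible apply DefF.cls
      | with_reducible apply DefF.cnt
      | with_reducible apply DefF.card
      | with_reducible apply DefF.ins
      | with_reducible apply DefF.un
      | with_reducible apply DefF.ico
      | with_reducible apply DefF.fst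
      | with_reducible apply DefF.snd
      | with_reducible apply DefF.ap
      | with_reducible apply DefF.img
      | with_reducible apply Def.emb
      | with_reducible apply Def.good
      | with_reducible apply DefF.pull
      | with_reducible apply Def.ehom
      | with_reducible apply DefF.del
      | with_reducible apply DefF.rs
      | with_reducible apply DefF.ra
      | with_reducible apply DefF.rm
      | with_reducible apply Def.and
      | with_reducible apply Def.or
      | with_reducible apply Def.iff
      | with_reducible apply Def.not
      | with_reducible apply Def.ex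
      | with_reducible apply Def.all
      | with_reducible apply Def.imp
      | with_reducible apply Def.eq
      | with_reducible apply Def.lt
      | with_reducible apply Def.le
      | with_reducible apply DefF.add
      | with_reducible apply DefF.mul
      | with_reducible apply DefF.the)
  · rw [ra_rz, ra_rz]
  · intro y ih
    rw [ra_rs, ih, ra_rs]

lemma ra_comm (x y : M) : ra x y = ra y x := by
  refine raw_ind (P := fun y => ra x y = ra y x) ?_ ?_ ?_ y
  · (repeat' first
      | assumption
      | with_reducible exact DefF.var _
      | with_reducible exact DefF.const _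
      | with_reducible exact Def.const _
      | with_reducible apply DefF.val
      | with_reducible apply DefF.pow2
      | with_reducible apply Def.mem
      | with_reducible apply DefF.cls
      | with_reducible apply DefF.cnt
      | with_reducible apply DefF.card
      | with_reducible apply DefF.ins
      | with_reducible apply DefF.un
      | with_reducible apply DefF.ico
      | with_reducible apply DefF.fst
      | with_reducible apply DefF.snd
      | with_reducible apply DefF.ap
      | with_reducible apply DefF.img
      | with_reducible apply Def.emb
      | with_reducible apply Def.good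
      | with_reducible apply DefF.pull
      | with_reducible apply Def.ehom
      | with_reducible apply DefF.del
      | with_reducible apply DefF.rs
      | with_reducible apply DefF.ra
      | with_reducible apply DefF.rm
      | with_reducible apply Def.and
      | with_reducible apply Def.or
      | with_reducible apply Def.iff
      | with_reducible apply Def.not
      | with_reducible apply Def.ex
      | with_reducible apply Def.all
      | with_reducible apply Def.imp
      | with_reducible apply Def.eq
      | with_reducible apply Def.lt
      | with_reducible apply Def.le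
      | with_reducible apply DefF.add
      | with_reducible apply DefF.mul
      | with_reducible apply DefF.the)
  · rw [ra_rz, rz_ra]
  · intro y ih
    rw [ra_rs, ih, rs_ra]

lemma ra_assoc (x y z : M) : ra (ra x y) z = ra x (ra y z) := by
  refine raw_ind (P := fun z => ra (ra x y) z = ra x (ra y z)) ?_ ?_ ?_ z
  · (repeat' first
      | assumption
      | with_reducible exact DefF.var _
      | with_reducible exact DefF.const _
      | with_reducible exact Def.const _
      | with_reducible apply DefF.val
      | with_reducible apply DefF.pow2
      | with_reducible apply Def.mem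
      | with_reducible apply DefF.cls
      | with_reducible apply DefF.cnt
      | with_reducible apply DefF.card
      | with_reducible apply DefF.ins
      | with_reducible apply DefF.un
      | with_reducible apply DefF.ico
      | with_reducible apply DefF.fst
      | with_reducible apply DefF.snd
      | with_reducible apply DefF.ap
      | with_reducible apply DefF.img
      | with_reducible apply Def.emb
      | with_reducible apply Def.good
      | with_reducible apply DefF.pull
      | with_reducible apply Def.ehom
      | with_reducible apply DefF.del
      | with_reducible apply DefF.rs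
      | with_reducible apply DefF.ra
      | with_reducible apply DefF.rm
      | with_reducible apply Def.and
      | with_reducible apply Def.or
      | with_reducible apply Def.iff
      | with_reducible apply Def.not
      | with_reducible apply Def.ex
      | with_reducible apply Def.all
      | with_reducible apply Def.imp
      | with_reducible apply Def.eq
      | with_reducible apply Def.lt
      | with_reducible apply Def.le
      | with_reducible apply DefF.add
      | with_reducible apply DefF.mul
      | with_reducible apply DefF.the)
  · rw [ra_rz, ra_rz]
  · intro z ih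
    rw [ra_rs, ih, ra_rs, ra_rs]

lemma rz_rm (x : M) : rm rz x = rz := by
  refine raw_ind (P := fun x => rm rz x = rz) ?_ ?_ ?_ x
  · (repeat' first
      | assumption
      | with_reducible exact DefF.var _
      | with_reducible exact DefF.const _
      | with_reducible exact Def.const _
      | with_reducible apply DefF.val
      | with_reducible apply DefF.pow2
      | with_reducible apply Def.mem
      | with_reducible apply DefF.cls
      | with_reducible apply DefF.cnt
      | with_reducible apply DefF.card
      | with_reducible apply DefF.ins
      | with_reducible apply DefF.un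
      | with_reducible apply DefF.ico
      | with_reducible apply DefF.fst
      | with_reducible apply DefF.snd
      | with_reducible apply DefF.ap
      | with_reducible apply DefF.img
      | with_reducible apply Def.emb
      | with_reducible apply Def.good
      | with_reducible apply DefF.pull
      | with_reducible apply Def.ehom
      | with_reducible apply DefF.del
      | with_reducible apply DefF.rs
      | with_reducible apply DefF.ra
      | with_reducible apply DefF.rm
      | with_reducible apply Def.and
      | with_reducible apply Def.or
      | with_reducible apply Def.iff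
      | with_reducible apply Def.not
      | with_reducible apply Def.ex
      | with_reducible apply Def.all
      | with_reducible apply Def.imp
      | with_reducible apply Def.eq
      | with_reducible apply Def.lt
      | with_reducible apply Def.le
      | with_reducible apply DefF.add
      | with_reducible apply DefF.mul
      | with_reducible apply DefF.the)
  · exact rm_rz _
  · intro x ih
    rw [rm_rs, ih, ra_rz]

lemma rs_rm (x y : M) : rm (rs x) y = ra (rm x y) y := by
  refine raw_ind (P := fun y => rm (rs x) y = ra (rm x y) y) ?_ ?_ ?_ y
  · (repeat' first
      | assumption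
      | with_reducible exact DefF.var _
      | with_reducible exact DefF.const _
      | with_reducible exact Def.const _
      | with_reducible apply DefF.val
      | with_reducible apply DefF.pow2
      | with_reducible apply Def.mem
      | with_reducible apply DefF.cls
      | with_reducible apply DefF.cnt
      | with_reducible apply DefF.card
      | with_reducible apply DefF.ins
      | with_reducible apply DefF.un
      | with_reducible apply DefF.ico
      | with_reducible apply DefF.fst
      | with_reducible apply DefF.snd
      | with_reducible apply DefF.ap
      | with_reducible apply DefF.img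
      | with_reducible apply Def.emb
      | with_reducible apply Def.good
      | with_reducible apply DefF.pull
      | with_reducible apply Def.ehom
      | with_reducible apply DefF.del
      | with_reducible apply DefF.rs
      | with_reducible apply DefF.ra
      | with_reducible apply DefF.rm
      | with_reducible apply Def.and
      | with_reducible apply Def.or
      | with_reducible apply Def.iff
      | with_reducible apply Def.not
      | with_reducible apply Def.ex
      | with_reducible apply Def.all
      | with_reducible apply Def.imp
      | with_reducible apply Def.eq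
      | with_reducible apply Def.lt
      | with_reducible apply Def.le
      | with_reducible apply DefF.add
      | with_reducible apply DefF.mul
      | with_reducible apply DefF.the)
  · rw [rm_rz, rm_rz, ra_rz]
  · intro y ih
    rw [rm_rs, ih, rm_rs, ra_rs, ra_rs, ra_assoc, ra_assoc, ra_comm y x]

lemma rm_comm (x y : M) : rm x y = rm y x := by
  refine raw_ind (P := fun y => rm x y = rm y x) ?_ ?_ ?_ y
  · (repeat' first
      | assumption
      | with_reducible exact DefF.var _
      | with_reducible exact DefF.const _
      | with_reducible exact Def.const _
      | with_reducible apply DefF.val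
      | with_reducible apply DefF.pow2
      | with_reducible apply Def.mem
      | with_reducible apply DefF.cls
      | with_reducible apply DefF.cnt
      | with_reducible apply DefF.card
      | with_reducible apply DefF.ins
      | with_reducible apply DefF.un
      | with_reducible apply DefF.ico
      | with_reducible apply DefF.fst
      | with_reducible apply DefF.snd
      | with_reducible apply DefF.ap
      | with_reducible apply DefF.img
      | with_reducible apply Def.emb
      | with_reducible apply Def.good
      | with_reducible apply DefF.pull
      | with_reducible apply Def.ehom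
      | with_reducible apply DefF.del
      | with_reducible apply DefF.rs
      | with_reducible apply DefF.ra
      | with_reducible apply DefF.rm
      | with_reducible apply Def.and
      | with_reducible apply Def.or
      | with_reducible apply Def.iff
      | with_reducible apply Def.not
      | with_reducible apply Def.ex
      | with_reducible apply Def.all
      | with_reducible apply Def.imp
      | with_reducible apply Def.eq
      | with_reducible apply Def.lt
      | with_reducible apply Def.le
      | with_reducible apply DefF.add
      | with_reducible apply DefF.mul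
      | with_reducible apply DefF.the)
  · rw [rm_rz, rz_rm]
  · intro y ih
    rw [rm_rs, ih, rs_rm]

lemma rm_ra (x y z : M) : rm x (ra y z) = ra (rm x y) (rm x z) := by
  refine raw_ind (P := fun z => rm x (ra y z) = ra (rm x y) (rm x z)) ?_ ?_ ?_ z
  · (repeat' first
      | assumption
      | with_reducible exact DefF.var _
      | with_reducible exact DefF.const _
      | with_reducible exact Def.const _
      | with_reducible apply DefF.val
      | with_reducible apply DefF.pow2
      | with_reducible apply Def.mem
      | with_reducible apply DefF.cls
      | with_reducible apply DefF.cnt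
      | with_reducible apply DefF.card
      | with_reducible apply DefF.ins
      | with_reducible apply DefF.un
      | with_reducible apply DefF.ico
      | with_reducible apply DefF.fst
      | with_reducible apply DefF.snd
      | with_reducible apply DefF.ap
      | with_reducible apply DefF.img
      | with_reducible apply Def.emb
      | with_reducible apply Def.good
      | with_reducible apply DefF.pull
      | with_reducible apply Def.ehom
      | with_reducible apply DefF.del
      | with_reducible apply DefF.rs
      | with_reducible apply DefF.ra
      | with_reducible apply DefF.rm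
      | with_reducible apply Def.and
      | with_reducible apply Def.or
      | with_reducible apply Def.iff
      | with_reducible apply Def.not
      | with_reducible apply Def.ex
      | with_reducible apply Def.all
      | with_reducible apply Def.imp
      | with_reducible apply Def.eq
      | with_reducible apply Def.lt
      | with_reducible apply Def.le
      | with_reducible apply DefF.add
      | with_reducible apply DefF.mul
      | with_reducible apply DefF.the)
  · rw [ra_rz, rm_rz, ra_rz]
  · intro z ih
    rw [ra_rs, rm_rs, ih, rm_rs, ra_assoc]

lemma rm_assoc (x y z : M) : rm (rm x y) z = rm x (rm y z) := by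
  refine raw_ind (P := fun z => rm (rm x y) z = rm x (rm y z)) ?_ ?_ ?_ z
  · (repeat' first
      | assumption
      | with_reducible exact DefF.var _
      | with_reducible exact DefF.const _
      | with_reducible exact Def.const _
      | with_reducible apply DefF.val
      | with_reducible apply DefF.pow2
      | with_reducible apply Def.mem
      | with_reducible apply DefF.cls
      | with_reducible apply DefF.cnt
      | with_reducible apply DefF.card
      | with_reducible apply DefF.ins
      | with_reducible apply DefF.un
      | with_reducible apply DefF.ico
      | with_reducible apply DefF.fst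
      | with_reducible apply DefF.snd
      | with_reducible apply DefF.ap
      | with_reducible apply DefF.img
      | with_reducible apply Def.emb
      | with_reducible apply Def.good
      | with_reducible apply DefF.pull
      | with_reducible apply Def.ehom
      | with_reducible apply DefF.del
      | with_reducible apply DefF.rs
      | with_reducible apply DefF.ra
      | with_reducible apply DefF.rm
      | with_reducible apply Def.and
      | with_reducible apply Def.or
      | with_reducible apply Def.iff
      | with_reducible apply Def.not
      | with_reducible apply Def.ex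
      | with_reducible apply Def.all
      | with_reducible apply Def.imp
      | with_reducible apply Def.eq
      | with_reducible apply Def.lt
      | with_reducible apply Def.le
      | with_reducible apply DefF.add
      | with_reducible apply DefF.mul
      | with_reducible apply DefF.the)
  · rw [rm_rz, rm_rz, rm_rz]
  · intro z ih
    rw [rm_rs, ih, rm_rs, rm_ra]

lemma rm_one (x : M) : rm x (rs rz) = x := by rw [rm_rs, rm_rz, rz_ra]

lemma ra_one (x : M) : ra x (rs rz) = rs x := by rw [ra_rs, ra_rz]

lemma ra_cancel {x y z : M} (h : ra x z = ra y z) : x = y := by
  revert h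
  refine raw_ind (P := fun z => ra x z = ra y z → x = y) ?_ ?_ ?_ z
  · (repeat' first
      | assumption
      | with_reducible exact DefF.var _
      | with_reducible exact DefF.const _
      | with_reducible exact Def.const _
      | with_reducible apply DefF.val
      | with_reducible apply DefF.pow2
      | with_reducible apply Def.mem
      | with_reducible apply DefF.cls
      | with_reducible apply DefF.cnt
      | with_reducible apply DefF.card
      | with_reducible apply DefF.ins
      | with_reducible apply DefF.un
      | with_reducible apply DefF.ico
      | with_reducible apply DefF.fst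
      | with_reducible apply DefF.snd
      | with_reducible apply DefF.ap
      | with_reducible apply DefF.img
      | with_reducible apply Def.emb
      | with_reducible apply Def.good
      | with_reducible apply DefF.pull
      | with_reducible apply Def.ehom
      | with_reducible apply DefF.del
      | with_reducible apply DefF.rs
      | with_reducible apply DefF.ra
      | with_reducible apply DefF.rm
      | with_reducible apply Def.and
      | with_reducible apply Def.or
      | with_reducible apply Def.iff
      | with_reducible apply Def.not
      | with_reducible apply Def.ex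
      | with_reducible apply Def.all
      | with_reducible apply Def.imp
      | with_reducible apply Def.eq
      | with_reducible apply Def.lt
      | with_reducible apply Def.le
      | with_reducible apply DefF.add
      | with_reducible apply DefF.mul
      | with_reducible apply DefF.the)
  · intro h
    rwa [ra_rz, ra_rz] at h
  · intro z ih h
    rw [ra_rs, ra_rs] at h
    exact ih (rs_inj h)

lemma cases_rs (x : M) : x = rz ∨ ∃ y, x = rs y := by
  refine raw_ind (P := fun x => x = rz ∨ ∃ y, x = rs y) ?_ ?_ ?_ x
  · apply Def.or
    · exact Def.eq (DefF.var 0) DefF.rz
    · (repeat' first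
        | assumption
        | with_reducible exact DefF.var _
        | with_reducible exact DefF.const _
        | with_reducible exact Def.const _
        | with_reducible apply DefF.val
        | with_reducible apply DefF.pow2
        | with_reducible apply Def.mem
        | with_reducible apply DefF.cls
        | with_reducible apply DefF.cnt
        | with_reducible apply DefF.card
        | with_reducible apply DefF.ins
        | with_reducible apply DefF.un
        | with_reducible apply DefF.ico
        | with_reducible apply DefF.fst
        | with_reducible apply DefF.snd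
        | with_reducible apply DefF.ap
        | with_reducible apply DefF.img
        | with_reducible apply Def.emb
        | with_reducible apply Def.good
        | with_reducible apply DefF.pull
        | with_reducible apply Def.ehom
        | with_reducible apply DefF.del
        | with_reducible apply DefF.rs
        | with_reducible apply DefF.ra
        | with_reducible apply DefF.rm
        | with_reducible apply Def.and
        | with_reducible apply Def.or
        | with_reducible apply Def.iff
        | with_reducible apply Def.not
        | with_reducible apply Def.ex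
        | with_reducible apply Def.all
        | with_reducible apply Def.imp
        | with_reducible apply Def.eq
        | with_reducible apply Def.lt
        | with_reducible apply Def.le
        | with_reducible apply DefF.add
        | with_reducible apply DefF.mul
        | with_reducible apply DefF.the)
  · exact Or.inl rfl
  · intro x _
    exact Or.inr ⟨x, rfl⟩

lemma ra_eq_rz {x y : M} (h : ra x y = rz) : y = rz := by
  rcases cases_rs y with h1 | ⟨z, rfl⟩
  · exact h1
  · rw [ra_rs] at h
    exact absurd h (rs_ne _)

lemma raw_total (x y : M) : (∃ z, ra x z = y) ∨ ∃ z, ra y z = x := by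
  refine raw_ind (P := fun x => (∃ z, ra x z = y) ∨ ∃ z, ra y z = x) ?_ ?_ ?_ x
  · (repeat' first
      | assumption
      | with_reducible exact DefF.var _
      | with_reducible exact DefF.const _
      | with_reducible exact Def.const _
      | with_reducible apply DefF.val
      | with_reducible apply DefF.pow2
      | with_reducible apply Def.mem
      | with_reducible apply DefF.cls
      | with_reducible apply DefF.cnt
      | with_reducible apply DefF.card
      | with_reducible apply DefF.ins
      | with_reducible apply DefF.un
      | with_reducible apply DefF.ico
      | with_reducible apply DefF.fst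
      | with_reducible apply DefF.snd
      | with_reducible apply DefF.ap
      | with_reducible apply DefF.img
      | with_reducible apply Def.emb
      | with_reducible apply Def.good
      | with_reducible apply DefF.pull
      | with_reducible apply Def.ehom
      | with_reducible apply DefF.del
      | with_reducible apply DefF.rs
      | with_reducible apply DefF.ra
      | with_reducible apply DefF.rm
      | with_reducible apply Def.and
      | with_reducible apply Def.or
      | with_reducible apply Def.iff
      | with_reducible apply Def.not
      | with_reducible apply Def.ex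
      | with_reducible apply Def.all
      | with_reducible apply Def.imp
      | with_reducible apply Def.eq
      | with_reducible apply Def.lt
      | with_reducible apply Def.le
      | with_reducible apply DefF.add
      | with_reducible apply DefF.mul
      | with_reducible apply DefF.the)
  · exact Or.inl ⟨y, rz_ra y⟩
  · rintro x (⟨z, hz⟩ | ⟨z, hz⟩)
    · rcases cases_rs z with rfl | ⟨w, rfl⟩
      · right
        rw [ra_rz] at hz
        exact ⟨rs rz, by rw [← hz, ra_rs, ra_rz]⟩
      · left
        exact ⟨w, by rw [rs_ra, ← ra_rs, hz]⟩
    · right
      exact ⟨rs z, by rw [ra_rs, hz]⟩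

/-- The semiring structure of a model. -/
@[reducible] def rawSemiring (M : Type u) [LA.Structure M] [M ⊨ PA] : CommSemiring M where
  zero := rz
  one := rs rz
  add := ra
  mul := rm
  add_assoc := ra_assoc
  zero_add := rz_ra
  add_zero := ra_rz
  add_comm := ra_comm
  left_distrib := rm_ra
  right_distrib := fun x y z => by
    show rm (ra x y) z = ra (rm x z) (rm y z)
    rw [rm_comm, rm_ra, rm_comm z x, rm_comm z y]
  zero_mul := rz_rm
  mul_zero := rm_rz
  mul_assoc := rm_assoc
  one_mul := fun x => by
    show rm (rs rz) x = x
    rw [rm_comm, rm_one]
  mul_one := rm_one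
  mul_comm := rm_comm
  nsmul := @nsmulRec M ⟨rz⟩ ⟨ra⟩
  npow := @npowRec M ⟨rs rz⟩ ⟨rm⟩

lemma standard_rawSemiring (M : Type u) [inst : LA.Structure M] [M ⊨ PA] :
    @standard M (rawSemiring M) = inst := by
  have h1 : ∀ {n : ℕ} (f : LA.Functions n) (x : Fin n → M),
      @Structure.funMap LA M (@standard M (rawSemiring M)) n f x =
        @Structure.funMap LA M inst n f x := by
    intro n f x
    cases (f : ArithFunc n) with
    | zero =>
      show rz = _
      show Structure.funMap (L := LA) (ArithFunc.zero : LA.Functions 0) _ = _
      congr 1
      exact Subsingleton.elim _ _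
    | succ =>
      show ra (x 0) (rs rz) = _
      rw [ra_one]
      show Structure.funMap (L := LA) (ArithFunc.succ : LA.Functions 1) _ = _
      congr 1
      exact (vec1 x).symm
    | add =>
      show ra (x 0) (x 1) = _
      show Structure.funMap (L := LA) (ArithFunc.add : LA.Functions 2) _ = _
      congr 1
      exact (vec2 x).symm
    | mul =>
      show rm (x 0) (x 1) = _
      show Structure.funMap (L := LA) (ArithFunc.mul : LA.Functions 2) _ = _
      congr 1
      exact (vec2 x).symm
  apply Structure.ext
  · funext n f x
    exact h1 f x
  · funext n r
    exact r.elim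

open Classical in
/-- The order of a model. -/
@[reducible] noncomputable def rawOrder (M : Type u) [LA.Structure M] [M ⊨ PA] : LinearOrder M where
  le x y := ∃ z, ra x z = y
  le_refl x := ⟨rz, ra_rz x⟩
  le_trans := by
    rintro x y z ⟨a, rfl⟩ ⟨b, rfl⟩
    exact ⟨ra a b, (ra_assoc _ _ _).symm⟩
  le_antisymm := by
    rintro x y ⟨a, rfl⟩ ⟨b, h⟩
    rw [ra_assoc] at h
    have h1 : ra (ra a b) x = ra rz x := by rw [ra_comm, h, rz_ra]
    have h2 := ra_cancel h1
    rw [ra_comm] at h2
    rw [ra_eq_rz h2, ra_rz]
  le_total := raw_total
  toDecidableLE := inferInstance

theorem realize_phSentence_raw (M : Type u) [inst : LA.Structure M] [hPA : M ⊨ PA] :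
    M ⊨ phSentence := by
  let i1 : CommSemiring M := rawSemiring M
  let i2 : LinearOrder M := rawOrder M
  have hle : ∀ x y : M, x ≤ y ↔ ∃ z, x + z = y := fun x y => Iff.rfl
  have hcanc : ∀ {x y z : M}, x + z = y + z → x = y := fun {x y z} h => ra_cancel h
  have hlt : ∀ x y : M, x < y ↔ ∃ z, x + (z + 1) = y := by
    intro x y
    rw [lt_iff_le_and_ne, hle]
    constructor
    · rintro ⟨⟨z, rfl⟩, hne⟩
      rcases cases_rs z with h | ⟨w, rfl⟩
      · exfalso
        apply hne
        rw [h]
        exact (ra_rz x).symm
      · exact ⟨w, by show ra x (ra w (rs rz)) = ra x (rs w); rw [ra_one]⟩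
    · rintro ⟨z, rfl⟩
      refine ⟨⟨z + 1, rfl⟩, fun h => ?_⟩
      have h1 : (z + 1) + x = 0 + x := by rw [add_comm, ← h, zero_add]
      have h2 : z + 1 = 0 := hcanc h1
      have h3 : ra z (rs rz) = rz := h2
      rw [ra_one] at h3
      exact rs_ne _ h3
  have i3 : IsOrderedCancelAddMonoid M := {
    add_le_add_left := by
      rintro x y ⟨z, rfl⟩ w
      exact ⟨z, by show x + w + z = x + z + w; ring⟩
    le_of_add_le_add_left := by
      rintro x y z ⟨w, h⟩
      refine ⟨w, ?_⟩
      have h1 : x + y + w = x + z := h
      have h2 : (y + w) + x = z + x := by rw [add_comm z x, ← h1]; ring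
      exact hcanc h2 }
  have i4 : IsStrictOrderedRing M := {
    i3 with
    zero_le_one := ⟨1, by show (0 : M) + 1 = 1; rw [zero_add]⟩
    exists_pair_ne := ⟨0, 1, fun h => rs_ne (rz : M) h.symm⟩
    mul_lt_mul_of_pos_left := by
      intro a ha b c hbc
      obtain ⟨z, rfl⟩ := (hlt _ _).mp hbc
      obtain ⟨a', rfl⟩ := (hlt _ _).mp ha
      show (0 + (a' + 1)) * b < (0 + (a' + 1)) * (b + (z + 1))
      rw [hlt]
      exact ⟨a' * z + a' + z, by ring⟩
    mul_lt_mul_of_pos_right := by
      intro a ha b c hbc
      obtain ⟨z, rfl⟩ := (hlt _ _).mp hbc
      obtain ⟨a', rfl⟩ := (hlt _ _).mp ha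
      show b * (0 + (a' + 1)) < (b + (z + 1)) * (0 + (a' + 1))
      rw [hlt]
      exact ⟨a' * z + a' + z, by ring⟩ }
  have i5 : CanonicallyOrderedAdd M := {
    exists_add_of_le := by
      rintro x y ⟨z, rfl⟩
      exact ⟨z, rfl⟩
    le_add_self := fun x y => ⟨y, add_comm _ _⟩
    le_self_add := fun x y => ⟨y, rfl⟩ }
  have hst : @standard M i1 = inst := standard_rawSemiring M
  let i6 : PAModel M := {
    i1, i2, i4, i5 with
    lt_add_one_iff' := by
      intro x y
      rw [hlt, hle]
      constructor
      · rintro ⟨z, h⟩
        exact ⟨z, hcanc (z := 1) (by rw [← h]; ring)⟩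
      · rintro ⟨z, rfl⟩
        exact ⟨z, by ring⟩
    ind' := by
      intro P hP h0 hs x
      have hP' : @Def M inst (fun v => P (v 0)) := by
        rw [← hst]
        exact hP
      refine raw_ind (P := P) hP' h0 (fun x hx => ?_) x
      have := hs x hx
      rwa [show x + 1 = rs x from ra_one x] at this }
  have h := realize_phSentence (M := M)
  have h2 : @Sentence.Realize LA M (@standard M i1) phSentence := h
  rw [hst] at h2
  exact h2

end algebra

/-! ### The standard model -/

section standardModel

theorem nat_models_PA : ℕ ⊨ PA := by
  rw [Theory.model_iff]
  intro φ hφ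
  cases hφ with
  | succ_ne =>
    simp only [Sentence.Realize, Formula.Realize, BoundedFormula.realize_all,
      BoundedFormula.realize_not, BoundedFormula.realize_bdEqual, realize_Sc, realize_O]
    exact fun x => Nat.succ_ne_zero _
  | succ_inj =>
    simp only [Sentence.Realize, Formula.Realize, BoundedFormula.realize_all,
      BoundedFormula.realize_imp, BoundedFormula.realize_bdEqual, realize_Sc]
    exact fun x y h => Nat.succ_injective h
  | add_zero =>
    simp only [Sentence.Realize, Formula.Realize, BoundedFormula.realize_all,
      BoundedFormula.realize_bdEqual, realize_Pl, realize_O]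
    exact fun x => Nat.add_zero _
  | add_succ =>
    simp only [Sentence.Realize, Formula.Realize, BoundedFormula.realize_all,
      BoundedFormula.realize_bdEqual, realize_Pl, realize_Sc]
    exact fun x y => rfl
  | mul_zero =>
    simp only [Sentence.Realize, Formula.Realize, BoundedFormula.realize_all,
      BoundedFormula.realize_bdEqual, realize_Ti, realize_O]
    exact fun x => Nat.mul_zero _
  | mul_succ =>
    simp only [Sentence.Realize, Formula.Realize, BoundedFormula.realize_all,
      BoundedFormula.realize_bdEqual, realize_Ti, realize_Pl, realize_Sc]
    exact fun x y => rfl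
  | induction φ =>
    rw [realize_inductionAxiom]
    intro y h0 hs x
    exact Nat.rec h0 (fun n ih => hs n ih) x

/-- The natural numbers as a model in the sense of the class `PAModel`. -/
local instance natModel : PAModel ℕ :=
  { (inferInstance : CommSemiring ℕ), (inferInstance : LinearOrder ℕ),
    (inferInstance : IsStrictOrderedRing ℕ), (inferInstance : CanonicallyOrderedAdd ℕ) with
    lt_add_one_iff' := fun _ _ => Nat.lt_succ_iff
    ind' := fun P _ h0 hs x => Nat.rec h0 (fun n ih => hs n ih) x }

open Classical in
/-- The finite set with the code `y`. -/
noncomputable def toFin (y : ℕ) : Finset ℕ := (Finset.range y).filter (fun x => Mem x y)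

lemma mem_toFin {x y : ℕ} : x ∈ toFin y ↔ Mem x y := by
  unfold toFin
  simp only [Finset.mem_filter, Finset.mem_range]
  exact ⟨fun h => h.2, fun h => ⟨h.lt, h⟩⟩

lemma toFin_injective : Function.Injective toFin := by
  intro y z h
  apply mem_ext
  intro x
  rw [← mem_toFin, ← mem_toFin, h]

lemma exists_code (S : Finset ℕ) : ∃ y, toFin y = S := by
  classical
  induction S using Finset.induction_on with
  | empty =>
    refine ⟨0, ?_⟩
    ext x
    rw [mem_toFin]
    exact ⟨fun h => absurd h (not_mem_zero x), fun h => absurd h (Finset.notMem_empty x)⟩
  | insert a s _ ih =>
    obtain ⟨y, rfl⟩ := ih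
    refine ⟨ins a y, ?_⟩
    ext x
    rw [mem_toFin, mem_ins, Finset.mem_insert, mem_toFin, or_comm]

/-- The code of a finite set. -/
noncomputable def code (S : Finset ℕ) : ℕ := (exists_code S).choose

@[simp] lemma toFin_code (S : Finset ℕ) : toFin (code S) = S := (exists_code S).choose_spec

@[simp] lemma code_toFin (y : ℕ) : code (toFin y) = y := toFin_injective (toFin_code _)

lemma mem_code {x : ℕ} {S : Finset ℕ} : Mem x (code S) ↔ x ∈ S := by
  rw [← mem_toFin, toFin_code]

open Classical in
lemma cnt_eq_card (s n : ℕ) : cnt s n = ((Finset.range n).filter (fun x => Mem x s)).card := by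
  induction n with
  | zero => exact cnt_zero s
  | succ n ih =>
    rw [Finset.range_add_one, Finset.filter_insert]
    by_cases h : Mem n s
    · rw [if_pos h, cnt_succ_mem h, ih, Finset.card_insert_of_notMem]
      simp
    · rw [if_neg h, cnt_succ_not_mem h, ih]

lemma card_eq_card_toFin (s : ℕ) : card s = (toFin s).card := cnt_eq_card s s

theorem arrow_iff (n k e : ℕ) : Arrow n k e ↔ PHRel n k e 2 := by
  classical
  constructor
  · intro h F
    let G : Finset ℕ := (((Finset.range n).powersetCard e).filter (fun s =>
      ∃ h : s ⊆ Finset.range n ∧ s.card = e, F ⟨s, h⟩ = 1)).image code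
    have hG : ∀ s (hs : s ⊆ Finset.range n ∧ s.card = e), Mem (code s) (code G) ↔
        F ⟨s, hs⟩ = 1 := by
      intro s hs
      rw [mem_code, Finset.mem_image]
      constructor
      · rintro ⟨t, ht, hts⟩
        have : t = s := by rw [← toFin_code t, hts, toFin_code]
        subst this
        rw [Finset.mem_filter] at ht
        obtain ⟨_, _, h2⟩ := ht
        exact h2
      · intro h1
        refine ⟨s, ?_, rfl⟩
        rw [Finset.mem_filter, Finset.mem_powersetCard]
        exact ⟨hs, hs, h1⟩
    obtain ⟨H, m, h1, h2, h3, ⟨x, hx1, hx2, hx3⟩, h4⟩ := h (code G)
    have hH : toFin H ⊆ Finset.range n := by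
      intro y hy
      rw [Finset.mem_range]
      exact h1 y (mem_toFin.mp hy)
    refine ⟨toFin H, hH, ?_, ?_, x, mem_toFin.mpr hx1, fun y hy => hx2 y (mem_toFin.mp hy), ?_⟩
    · intro s t hs ht
      have hsub : ∀ s : Finset ℕ, s ⊆ toFin H → ∀ x, Mem x (code s) → Mem x H := by
        intro s hs x hx
        exact mem_toFin.mp (hs (mem_code.mp hx))
      have h5 := h4 (code s) (code t) (hsub s hs.1) (hsub t ht.1)
        (by rw [card_eq_card_toFin, toFin_code]; exact hs.2)
        (by rw [card_eq_card_toFin, toFin_code]; exact ht.2)
      rw [hG s ⟨hs.1.trans hH, hs.2⟩, hG t ⟨ht.1.trans hH, ht.2⟩] at h5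
      have h6 : ∀ a b : Fin 2, (a = 1 ↔ b = 1) → a = b := by decide
      exact h6 _ _ h5
    · rw [← card_eq_card_toFin, h2]
      exact h3
    · rw [← card_eq_card_toFin, h2]
      exact hx3
  · intro h F
    obtain ⟨H, hH, h1, h2, x, hx1, hx2, hx3⟩ :=
      h (fun s => if Mem (code s.1) F then 1 else 0)
    refine ⟨code H, H.card, ?_, ?_, h2, ⟨x, mem_code.mpr hx1, fun y hy => hx2 y (mem_code.mp hy),
      hx3⟩, ?_⟩
    · intro y hy
      exact Finset.mem_range.mp (hH (mem_code.mp hy))
    · rw [card_eq_card_toFin, toFin_code]
    · intro s t hs ht hcs hct
      have h3 : ∀ s : ℕ, (∀ x, Mem x s → Mem x (code H)) → toFin s ⊆ H := by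
        intro s hs x hx
        exact mem_code.mp (hs x (mem_toFin.mp hx))
      have h4 := h1 (toFin s) (toFin t) ⟨h3 s hs, by rw [← card_eq_card_toFin, hcs]⟩
        ⟨h3 t ht, by rw [← card_eq_card_toFin, hct]⟩
      simp only [code_toFin] at h4
      by_cases h5 : Mem s F <;> by_cases h6 : Mem t F <;> simp [h5, h6] at h4 ⊢

end standardModel

theorem nat_realize_arrowF (n k e : ℕ) :
    (arrowF (&0) (&1) (&2) : LA.BoundedFormula Empty 3).Realize default ![n, k, e] ↔
      PHRel n k e 2 := by
  rw [← arrow_iff]
  exact @realize_arrowF ℕ natModel 3 (&0) (&1) (&2) default ![n, k, e]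

end Pool.Agent.Helper687.Arith
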